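import Mathlib

-- merged part: Pool.Agent.Work.MP_be9894_co.H2Euler
section
set_option autoImplicit false
set_option linter.unusedSectionVars false

namespace Pool.Agent.Work.MP_be9894_co.H2

open Finset

variable {α : Type} [Fintype α] [PartialOrder α] [DecidableEq α]

def Low (I : Finset α) : Prop := ∀ a ∈ I, ∀ b, b ≤ a → b ∈ I

open Classical in
noncomputable def mx (I : Finset α) : Finset α := I.filter (fun a => ∀ b ∈ I, ¬ a < b)

lemma mem_mx {I : Finset α} {a : α} : a ∈ mx I ↔ a ∈ I ∧ ∀ b ∈ I, ¬ a < b := by simp [mx]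

lemma mx_sub (I : Finset α) : mx I ⊆ I := fun _ h => (mem_mx.1 h).1

lemma exists_mx {I : Finset α} {a : α} (ha : a ∈ I) : ∃ b ∈ mx I, a ≤ b := by
  classical
  obtain ⟨b, hb, hmax⟩ := (I.filter (fun b => a ≤ b)).exists_maximal ⟨a, by simp [ha]⟩
  simp only [mem_filter] at hb hmax
  refine ⟨b, mem_mx.2 ⟨hb.1, fun c hc hlt => ?_⟩, hb.2⟩
  exact absurd (hmax ⟨hc, hb.2.trans hlt.le⟩ hlt.le) (not_le_of_gt hlt)

lemma Low.sdiff {I S : Finset α} (hI : Low I) (hS : S ⊆ mx I) : Low (I \ S) := by
  intro a ha b hb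
  obtain ⟨h1, h2⟩ := mem_sdiff.1 ha
  refine mem_sdiff.2 ⟨hI a h1 b hb, fun hbS => ?_⟩
  rcases hb.lt_or_eq with h | h
  · exact (mem_mx.1 (hS hbS)).2 a h1 h
  · exact h2 (h ▸ hbS)

lemma Low.eq_of_mx {I J : Finset α} (hJ : Low J) (hsub : J ⊆ I) (h : mx I ⊆ J) : J = I := by
  refine Subset.antisymm hsub fun a ha => ?_
  obtain ⟨b, hb, hab⟩ := exists_mx ha
  exact hJ b (h hb) a hab

lemma alt_sum (M : Finset α) : ∑ S ∈ M.powerset, (-1 : ℤ) ^ S.card = if M = ∅ then 1 else 0 :=
  Finset.sum_powerset_neg_one_pow_card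

open Classical in
noncomputable def lows (I : Finset α) : Finset (Finset α) := I.powerset.filter Low

lemma mem_lows {I J : Finset α} : J ∈ lows I ↔ J ⊆ I ∧ Low J := by simp [lows]

/-- inclusion-exclusion over a set of maximal elements -/
lemma swap_sum (d : Finset α → ℤ) (I M : Finset α) :
    ∑ S ∈ M.powerset, (-1 : ℤ) ^ S.card * ∑ J ∈ lows (I \ S), d J
      = ∑ J ∈ lows I, if M ⊆ J then d J else 0 := by
  have h1 : ∀ S ∈ M.powerset, (-1 : ℤ) ^ S.card * ∑ J ∈ lows (I \ S), d J
      = ∑ J ∈ lows I, if S ⊆ M \ J then (-1 : ℤ) ^ S.card * d J else 0 := by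
    intro S hS
    rw [Finset.mul_sum, ← Finset.sum_filter]
    refine Finset.sum_congr ?_ fun _ _ => rfl
    ext J
    simp only [mem_lows, mem_filter, subset_sdiff, mem_powerset.1 hS, true_and]
    constructor
    · rintro ⟨⟨h1, h2⟩, h3⟩; exact ⟨⟨h1, h3⟩, h2.symm⟩
    · rintro ⟨⟨h1, h2⟩, h3⟩; exact ⟨⟨h1, h3.symm⟩, h2⟩
  rw [Finset.sum_congr rfl h1, Finset.sum_comm]
  refine Finset.sum_congr rfl fun J _ => ?_
  rw [← Finset.sum_filter]
  have : M.powerset.filter (fun S => S ⊆ M \ J) = (M \ J).powerset := by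
    ext S
    simp only [mem_filter, mem_powerset]
    exact ⟨fun h => h.2, fun h => ⟨h.trans sdiff_subset, h⟩⟩
  rw [this, ← Finset.sum_mul, alt_sum]
  simp only [sdiff_eq_empty_iff_subset]
  split_ifs <;> simp

lemma split_pow (M : Finset α) (F : Finset α → ℤ) :
    ∑ S ∈ M.powerset, F S = F ∅ + ∑ S ∈ M.powerset.erase ∅, F S :=
  (Finset.add_sum_erase _ _ (empty_mem_powerset M)).symm

lemma card_sdiff_lt {I S : Finset α} (hS : S ∈ (mx I).powerset.erase ∅) : (I \ S).card < I.card := by
  obtain ⟨h1, h2⟩ := mem_erase.1 hS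
  refine card_lt_card (sdiff_ssubset ((mem_powerset.1 h2).trans (mx_sub I)) ?_)
  exact nonempty_iff_ne_empty.2 h1

/-- Moebius inversion on the lattice of lower sets -/
lemma moebius (e : Finset α → ℤ) (I : Finset α) (hI : Low I) :
    e I = ∑ J ∈ lows I, ∑ S ∈ (mx J).powerset, (-1 : ℤ) ^ S.card * e (J \ S) := by
  induction h : I.card using Nat.strong_induction_on generalizing I with
  | _ k ih =>
    set d : Finset α → ℤ := fun J => ∑ S ∈ (mx J).powerset, (-1 : ℤ) ^ S.card * e (J \ S) with hd
    have h1 := swap_sum d I (mx I)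
    have h2 : ∑ J ∈ lows I, (if mx I ⊆ J then d J else 0) = d I := by
      rw [Finset.sum_eq_single I]
      · rw [if_pos (mx_sub I)]
      · intro J hJ hne
        rw [if_neg]
        exact fun hh => hne ((mem_lows.1 hJ).2.eq_of_mx (mem_lows.1 hJ).1 hh)
      · intro hh; exact absurd (mem_lows.2 ⟨Subset.refl _, hI⟩) hh
    rw [h2, split_pow] at h1
    have h3 : d I = (-1 : ℤ) ^ (∅ : Finset α).card * e (I \ ∅)
        + ∑ S ∈ (mx I).powerset.erase ∅, (-1 : ℤ) ^ S.card * e (I \ S) := split_pow _ _
    have h4 : ∑ S ∈ (mx I).powerset.erase ∅, (-1 : ℤ) ^ S.card * e (I \ S)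
        = ∑ S ∈ (mx I).powerset.erase ∅, (-1 : ℤ) ^ S.card * ∑ J ∈ lows (I \ S), d J := by
      refine Finset.sum_congr rfl fun S hS => ?_
      rw [ih _ (h ▸ card_sdiff_lt hS) (I \ S)
        (hI.sdiff (mem_powerset.1 (mem_of_mem_erase hS))) rfl]
    simp only [card_empty, pow_zero, one_mul, sdiff_empty] at h1 h3
    linarith

open Classical in
/-- the Euler characteristic identity -/
theorem euler (Y : α → ℚ) (e : Finset α → ℤ) (e0 : e ∅ = 1)
    (erec : ∀ I, I ≠ ∅ → e I = if 0 ≤ ∑ a ∈ I, Y a then
      ∑ S ∈ (mx I).powerset.erase ∅, -(-1 : ℤ) ^ S.card * e (I \ S) else 0) :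
    e univ = if ∀ I : Finset α, Low I → 0 ≤ ∑ a ∈ I, Y a then 1 else 0 := by
  split_ifs with hall
  · have : ∀ I, Low I → e I = 1 := by
      intro I hI
      induction h : I.card using Nat.strong_induction_on generalizing I with
      | _ k ih =>
        by_cases h0 : I = ∅
        · rw [h0, e0]
        · rw [erec I h0, if_pos (hall I hI)]
          rw [Finset.sum_congr rfl (g := fun S => -(-1 : ℤ) ^ S.card) (fun S hS => by
            rw [ih _ (h ▸ card_sdiff_lt hS) (I \ S)
              (hI.sdiff (mem_powerset.1 (mem_of_mem_erase hS))) rfl, mul_one])]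
          have h1 := alt_sum (mx I)
          obtain ⟨a, ha⟩ := nonempty_iff_ne_empty.2 h0
          obtain ⟨b, hb, _⟩ := exists_mx ha
          rw [if_neg (ne_empty_of_mem hb), split_pow] at h1
          rw [Finset.sum_neg_distrib]
          simp only [card_empty, pow_zero] at h1
          linarith
    exact this univ (fun _ _ _ _ => mem_univ _)
  · push Not at hall
    obtain ⟨B, hB, hBY⟩ := hall
    obtain ⟨K, hK, hmin⟩ := (lows (univ : Finset α)).exists_min_image (fun I => ∑ a ∈ I, Y a)
      ⟨B, mem_lows.2 ⟨subset_univ _, hB⟩⟩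
    have hKlow := (mem_lows.1 hK).2
    have hKY : ∑ a ∈ K, Y a < 0 := (hmin B (mem_lows.2 ⟨subset_univ _, hB⟩)).trans_lt hBY
    have clo : ∀ J, Low J → ∑ a ∈ J ∪ K, Y a ≤ ∑ a ∈ J, Y a := by
      intro J hJ
      have h1 := Finset.sum_union_inter (s₁ := J) (s₂ := K) (f := Y)
      have h2 := hmin (J ∩ K) (mem_lows.2 ⟨subset_univ _, fun a ha b hb =>
        mem_inter.2 ⟨hJ a (mem_inter.1 ha).1 b hb, hKlow a (mem_inter.1 ha).2 b hb⟩⟩)
      linarith
    have : ∀ C, Low C → K ⊆ C → e C = 0 := by
      intro C hC hKC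
      induction h : C.card using Nat.strong_induction_on generalizing C with
      | _ k ih =>
        have hC0 : C ≠ ∅ := by
          rintro rfl
          rw [subset_empty.1 hKC] at hKY
          simp at hKY
        by_cases hg : 0 ≤ ∑ a ∈ C, Y a
        swap
        · rw [erec C hC0, if_neg hg]
        set d : Finset α → ℤ := fun J => ∑ S ∈ (mx J).powerset, (-1 : ℤ) ^ S.card * e (J \ S) with hd
        have h1 := swap_sum d C (mx C \ K)
        have hne : mx C \ K ≠ ∅ := by
          intro hh
          have := hKlow.eq_of_mx hKC (sdiff_eq_empty_iff_subset.1 hh)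
          rw [this] at hKY
          linarith
        have h2 : ∑ J ∈ lows C, (if mx C \ K ⊆ J then d J else 0) = 0 := by
          refine Finset.sum_eq_zero fun J hJ => ?_
          split_ifs with hh
          · have hJ0 : J ≠ ∅ := by
              rintro rfl
              exact hne (subset_empty.1 hh)
            obtain ⟨hJC, hJl⟩ := mem_lows.1 hJ
            have hU : J ∪ K = C := by
              refine Low.eq_of_mx (fun a ha b hb => ?_) (union_subset hJC hKC) (fun a ha => ?_)
              · rcases mem_union.1 ha with h3 | h3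
                · exact mem_union_left _ (hJl a h3 b hb)
                · exact mem_union_right _ (hKlow a h3 b hb)
              · by_cases h3 : a ∈ K
                · exact mem_union_right _ h3
                · exact mem_union_left _ (hh (mem_sdiff.2 ⟨ha, h3⟩))
            have hJg : 0 ≤ ∑ a ∈ J, Y a := by
              have := clo J hJl
              rw [hU] at this
              linarith
            have h4 := erec J hJ0
            rw [if_pos hJg] at h4
            have h5 : d J = (-1 : ℤ) ^ (∅ : Finset α).card * e (J \ ∅)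
              + ∑ S ∈ (mx J).powerset.erase ∅, (-1 : ℤ) ^ S.card * e (J \ S) := split_pow _ _
            simp only [card_empty, pow_zero, one_mul, sdiff_empty, neg_mul, Finset.sum_neg_distrib] at h4 h5
            linarith
          · rfl
        rw [h2, split_pow] at h1
        have h6 : ∑ S ∈ (mx C \ K).powerset.erase ∅, (-1 : ℤ) ^ S.card * ∑ J ∈ lows (C \ S), d J = 0 := by
          refine Finset.sum_eq_zero fun S hS => ?_
          obtain ⟨s1, s2⟩ := mem_erase.1 hS
          have s3 : S ⊆ mx C := (mem_powerset.1 s2).trans sdiff_subset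
          have s4 : K ⊆ C \ S := by
            intro a ha
            refine mem_sdiff.2 ⟨hKC ha, fun hh => ?_⟩
            exact (mem_sdiff.1 (mem_powerset.1 s2 hh)).2 ha
          rw [← moebius e (C \ S) (hC.sdiff s3),
            ih _ (h ▸ card_sdiff_lt (mem_erase.2 ⟨s1, mem_powerset.2 s3⟩)) (C \ S) (hC.sdiff s3) s4 rfl,
            mul_zero]
        rw [h6] at h1
        simp only [card_empty, pow_zero, one_mul, sdiff_empty, add_zero] at h1
        rw [moebius e C hC]
        exact h1
    exact this univ (fun _ _ _ _ => mem_univ _) (subset_univ _)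

end Pool.Agent.Work.MP_be9894_co.H2
end

-- merged part: Pool.Agent.Work.MP_be9894_co.H2Chain
section
set_option autoImplicit false
set_option linter.unusedSectionVars false

namespace Pool.Agent.Work.MP_be9894_co.H2

open Finset

variable {α : Type} [Fintype α] [PartialOrder α] [DecidableEq α]

open Classical in
noncomputable def maps (N : ℕ) (I : Finset α) : Finset (α → ℕ) :=
  (Fintype.piFinset fun a => if a ∈ I then range N else {0}).filter
    (fun f => ∀ a ∈ I, ∀ b ∈ I, a < b → f a < f b)

lemma mem_maps {N : ℕ} {I : Finset α} {f : α → ℕ} : f ∈ maps N I ↔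
    (∀ a ∈ I, f a < N) ∧ (∀ a, a ∉ I → f a = 0) ∧ ∀ a ∈ I, ∀ b ∈ I, a < b → f a < f b := by
  simp only [maps, mem_filter, Fintype.mem_piFinset]
  constructor
  · rintro ⟨h1, h2⟩
    refine ⟨fun a ha => ?_, fun a ha => ?_, h2⟩
    · have := h1 a; rw [if_pos ha] at this; exact mem_range.1 this
    · have := h1 a; rw [if_neg ha] at this; exact mem_singleton.1 this
  · rintro ⟨h1, h2, h3⟩
    refine ⟨fun a => ?_, h3⟩
    split_ifs with ha
    · exact mem_range.2 (h1 a ha)
    · exact mem_singleton.2 (h2 a ha)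

noncomputable def om (Y : α → ℚ) (I : Finset α) (f : α → ℕ) (i : ℕ) : ℤ :=
  if I.filter (fun a => f a = i) = ∅ then 0 else
    -(-1) ^ (I.filter (fun a => f a = i)).card *
      (if 0 ≤ ∑ a ∈ I.filter (fun a => f a ≤ i), Y a then 1 else 0)

noncomputable def cN (Y : α → ℚ) (N : ℕ) (I : Finset α) : ℤ :=
  ∑ f ∈ maps N I, ∏ i ∈ range N, om Y I f i

lemma cN_zero (Y : α → ℚ) (I : Finset α) : cN Y 0 I = if I = ∅ then 1 else 0 := by
  unfold cN
  simp only [range_zero, prod_empty, sum_const, nsmul_eq_mul, mul_one]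
  split_ifs with h
  · subst h
    have : maps 0 (∅ : Finset α) = {fun _ => 0} := by
      ext f
      simp only [mem_maps, mem_singleton, notMem_empty, IsEmpty.forall_iff, implies_true,
        not_false_eq_true, forall_const, true_and, and_true]
      exact ⟨fun h => funext h, fun h a => by rw [h]⟩
    rw [this]; simp
  · have : maps 0 I = ∅ := by
      obtain ⟨a, ha⟩ := nonempty_iff_ne_empty.2 h
      refine eq_empty_of_forall_notMem fun f hf => ?_
      exact absurd ((mem_maps.1 hf).1 a ha) (Nat.not_lt_zero _)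
    rw [this]; simp

lemma cN_succ (Y : α → ℚ) (N : ℕ) (I : Finset α) : cN Y (N + 1) I =
    if 0 ≤ ∑ a ∈ I, Y a then
      ∑ S ∈ (mx I).powerset.erase ∅, -(-1 : ℤ) ^ S.card * cN Y N (I \ S) else 0 := by
  have key : cN Y (N + 1) I = ∑ S ∈ (mx I).powerset,
      (if S = ∅ then 0 else -(-1 : ℤ) ^ S.card * (if 0 ≤ ∑ a ∈ I, Y a then 1 else 0))
        * cN Y N (I \ S) := by
    unfold cN
    rw [← Finset.sum_fiberwise_of_maps_to (s := maps (N + 1) I) (t := (mx I).powerset)
      (g := fun f => I.filter (fun a => f a = N))]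
    swap
    · intro f hf
      obtain ⟨h1, _, h3⟩ := mem_maps.1 hf
      refine mem_powerset.2 fun a ha => ?_
      obtain ⟨a1, a2⟩ := mem_filter.1 ha
      refine mem_mx.2 ⟨a1, fun b hb hab => ?_⟩
      have := h3 a a1 b hb hab
      have := h1 b hb
      omega
    refine Finset.sum_congr rfl fun S hS => ?_
    have hS' := mem_powerset.1 hS
    rw [Finset.mul_sum]
    symm
    refine Finset.sum_nbij' (fun g a => if a ∈ S then N else g a) (fun f a => if a ∈ S then 0 else f a)
      ?_ ?_ ?_ ?_ ?_
    · intro g hg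
      obtain ⟨h1, h2, h3⟩ := mem_maps.1 hg
      refine mem_filter.2 ⟨mem_maps.2 ⟨fun a ha => ?_, fun a ha => ?_, fun a ha b hb hab => ?_⟩, ?_⟩
      · split_ifs with h
        · omega
        · have := h1 a (mem_sdiff.2 ⟨ha, h⟩); omega
      · rw [if_neg (fun h => ha (mx_sub I (hS' h)))]
        exact h2 a (fun h => ha (mem_sdiff.1 h).1)
      · have haS : a ∉ S := fun h => (mem_mx.1 (hS' h)).2 b hb hab
        rw [if_neg haS]
        split_ifs with h
        · exact h1 a (mem_sdiff.2 ⟨ha, haS⟩)
        · exact h3 a (mem_sdiff.2 ⟨ha, haS⟩) b (mem_sdiff.2 ⟨hb, h⟩) hab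
      · ext a
        simp only [mem_filter]
        constructor
        · rintro ⟨ha, h⟩
          by_contra hh
          rw [if_neg hh] at h
          have := h1 a (mem_sdiff.2 ⟨ha, hh⟩); omega
        · intro h
          exact ⟨mx_sub I (hS' h), if_pos h⟩
    · intro f hf
      obtain ⟨hf1, hf2⟩ := mem_filter.1 hf
      obtain ⟨h1, h2, h3⟩ := mem_maps.1 hf1
      refine mem_maps.2 ⟨fun a ha => ?_, fun a ha => ?_, fun a ha b hb hab => ?_⟩
      · obtain ⟨a1, a2⟩ := mem_sdiff.1 ha
        rw [if_neg a2]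
        have := h1 a a1
        have : f a ≠ N := fun h => a2 (hf2 ▸ mem_filter.2 ⟨a1, h⟩)
        omega
      · split_ifs with h
        · rfl
        · exact h2 a (fun hh => ha (mem_sdiff.2 ⟨hh, h⟩))
      · obtain ⟨a1, a2⟩ := mem_sdiff.1 ha
        obtain ⟨b1, b2⟩ := mem_sdiff.1 hb
        rw [if_neg a2, if_neg b2]
        exact h3 a a1 b b1 hab
    · intro g hg
      obtain ⟨h1, h2, h3⟩ := mem_maps.1 hg
      funext a
      by_cases h : a ∈ S
      · simp only [if_pos h]
        exact (h2 a (fun hh => (mem_sdiff.1 hh).2 h)).symm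
      · simp only [if_neg h]
    · intro f hf
      obtain ⟨hf1, hf2⟩ := mem_filter.1 hf
      funext a
      by_cases h : a ∈ S
      · simp only [if_pos h]
        rw [← hf2] at h
        exact (mem_filter.1 h).2.symm
      · simp only [if_neg h]
    · intro g hg
      obtain ⟨h1, h2, h3⟩ := mem_maps.1 hg
      rw [Finset.prod_range_succ, mul_comm]
      congr 1
      · refine Finset.prod_congr rfl fun i hi => ?_
        have hi := mem_range.1 hi
        have e1 : I.filter (fun a => (if a ∈ S then N else g a) = i)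
            = (I \ S).filter (fun a => g a = i) := by
          ext a
          simp only [mem_filter, mem_sdiff]
          by_cases h : a ∈ S
          · simp only [if_true, h, not_true_eq_false, and_false, false_and, iff_false, not_and]
            omega
          · simp only [if_false, h, not_false_eq_true, and_true]
        have e2 : I.filter (fun a => (if a ∈ S then N else g a) ≤ i)
            = (I \ S).filter (fun a => g a ≤ i) := by
          ext a
          simp only [mem_filter, mem_sdiff]
          by_cases h : a ∈ S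
          · simp only [if_true, h, not_true_eq_false, and_false, false_and, iff_false, not_and]
            omega
          · simp only [if_false, h, not_false_eq_true, and_true]
        unfold om
        rw [e1, e2]
      · have e1 : I.filter (fun a => (if a ∈ S then N else g a) = N) = S := by
          ext a
          simp only [mem_filter]
          constructor
          · rintro ⟨ha, h⟩
            by_contra hh
            rw [if_neg hh] at h
            have := h1 a (mem_sdiff.2 ⟨ha, hh⟩); omega
          · intro h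
            exact ⟨mx_sub I (hS' h), if_pos h⟩
        have e2 : I.filter (fun a => (if a ∈ S then N else g a) ≤ N) = I := by
          refine filter_true_of_mem fun a ha => ?_
          split_ifs with h
          · exact le_rfl
          · exact (h1 a (mem_sdiff.2 ⟨ha, h⟩)).le
        unfold om
        rw [e1, e2]
  rw [key, split_pow]
  simp only [if_true, zero_mul, zero_add]
  split_ifs with hg
  · refine Finset.sum_congr rfl fun S hS => ?_
    rw [if_neg (mem_erase.1 hS).1, mul_one]
  · refine Finset.sum_eq_zero fun S _ => ?_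
    split_ifs <;> simp

lemma cN_big (Y : α → ℚ) (N : ℕ) (I : Finset α) (h : I.card < N) : cN Y N I = 0 := by
  induction N generalizing I with
  | zero => omega
  | succ N ih =>
    rw [cN_succ]
    split_ifs
    · refine Finset.sum_eq_zero fun S hS => ?_
      have := card_sdiff_lt hS
      rw [ih _ (by omega), mul_zero]
    · rfl

open Classical in
theorem euler_maps (Y : α → ℚ) (n : ℕ) (hn : Fintype.card α ≤ n) :
    ∑ N ∈ range (n + 1), cN Y N univ
      = if ∀ I : Finset α, Low I → 0 ≤ ∑ a ∈ I, Y a then 1 else 0 := by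
  refine euler Y (fun I => ∑ N ∈ range (n + 1), cN Y N I) ?_ ?_
  · rw [Finset.sum_range_succ', cN_zero, if_pos rfl, Finset.sum_eq_zero, zero_add]
    intro N _
    exact cN_big _ _ _ (by simp)
  · intro I hI
    rw [Finset.sum_range_succ', cN_zero, if_neg hI, add_zero]
    simp only [cN_succ]
    split_ifs with hg
    · rw [Finset.sum_comm]
      refine Finset.sum_congr rfl fun S hS => ?_
      rw [← Finset.mul_sum, Finset.sum_range_succ, cN_big Y n, add_zero]
      have := card_sdiff_lt hS
      have := card_le_univ I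
      omega
    · simp

end Pool.Agent.Work.MP_be9894_co.H2
end

-- merged part: Pool.Agent.Work.MP_be9894_co.H2Transfer
section
set_option autoImplicit false
set_option linter.unusedSectionVars false

namespace Pool.Agent.Work.MP_be9894_co.H2

open Finset

/-- equality of the strict order quasisymmetric functions, coefficientwise -/
def SameQ (α β : Type) [Fintype α] [PartialOrder α] [Fintype β] [PartialOrder β] : Prop :=
  ∀ m : ℕ →₀ ℕ,
      Set.ncard {f : α → ℕ | StrictMono f ∧
          ∀ i : ℕ, (Finset.univ.filter (fun a => f a = i)).card = m i} =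
      Set.ncard {g : β → ℕ | StrictMono g ∧
          ∀ i : ℕ, (Finset.univ.filter (fun b => g b = i)).card = m i}

def ct {α Λ : Type} [Fintype α] [DecidableEq Λ] (y : α → Λ) : Λ → ℕ :=
  fun l => (univ.filter (fun a => y a = l)).card

lemma exists_equiv_of_ct {α β Λ : Type} [Fintype α] [Fintype β] [DecidableEq Λ] {f : α → Λ}
    {g : β → Λ} (h : ct f = ct g) : ∃ e : α ≃ β, ∀ a, g (e a) = f a := by
  classical
  refine ⟨Equiv.ofFiberEquiv (f := f) (g := g) (fun i => Fintype.equivOfCardEq ?_), fun a =>
    Equiv.ofFiberEquiv_map _ a⟩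
  rw [Fintype.card_subtype, Fintype.card_subtype]
  exact congrFun h i

lemma ct_comp {α β Λ : Type} [Fintype α] [Fintype β] [DecidableEq Λ] (e : α ≃ β) (y : β → Λ) :
    ct (fun a => y (e a)) = ct y := by
  funext l
  unfold ct
  refine Finset.card_bij (fun a _ => e a) (fun a ha => by simpa using ha)
    (fun a _ b _ h => e.injective h) (fun b hb => ⟨e.symm b, by simpa using hb, by simp⟩)

lemma sum_eq_of_fibers {A B C R : Type} [DecidableEq C] [CommRing R] (s : Finset A) (t : Finset B)
    (ca : A → C) (cb : B → C) (F : A → R) (G : B → R)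
    (hc : ∀ c, (s.filter (fun a => ca a = c)).card = (t.filter (fun b => cb b = c)).card)
    (hF : ∀ a ∈ s, ∀ b ∈ t, ca a = cb b → F a = G b) : ∑ a ∈ s, F a = ∑ b ∈ t, G b := by
  classical
  set T := s.image ca ∪ t.image cb
  rw [← Finset.sum_fiberwise_of_maps_to (s := s) (t := T) (g := ca)
    (fun f hf => mem_union_left _ (mem_image_of_mem _ hf)),
    ← Finset.sum_fiberwise_of_maps_to (s := t) (t := T) (g := cb)
    (fun f hf => mem_union_right _ (mem_image_of_mem _ hf))]
  refine Finset.sum_congr rfl fun c _ => ?_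
  rcases (s.filter (fun a => ca a = c)).eq_empty_or_nonempty with h0 | ⟨a0, ha0⟩
  · have h1 := hc c
    rw [h0, card_empty] at h1
    rw [h0, card_eq_zero.1 h1.symm]; simp
  · have h1 : (t.filter (fun b => cb b = c)).Nonempty := by
      rw [← card_pos, ← hc c]; exact card_pos.2 ⟨a0, ha0⟩
    obtain ⟨b0, hb0⟩ := h1
    obtain ⟨a1, a2⟩ := mem_filter.1 ha0
    obtain ⟨b1, b2⟩ := mem_filter.1 hb0
    rw [Finset.sum_congr rfl (g := fun _ => G b0) (fun a ha =>
        hF a (mem_filter.1 ha).1 b0 b1 ((mem_filter.1 ha).2.trans b2.symm)),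
      Finset.sum_congr rfl (g := fun _ => F a0) (fun b hb =>
        (hF a0 a1 b (mem_filter.1 hb).1 (a2.trans (mem_filter.1 hb).2.symm)).symm),
      Finset.sum_const, Finset.sum_const, hc c, hF a0 a1 b0 b1 (a2.trans b2.symm)]

open Classical in
lemma fiber_card (α : Type) [Fintype α] [PartialOrder α] [DecidableEq α] (N : ℕ) (c : ℕ → ℕ)
    (m : ℕ →₀ ℕ) (hm : ∀ i, m i = c i) (hc : ∀ i, N ≤ i → c i = 0) :
    ((maps N (univ : Finset α)).filter (fun f => ct f = c)).card
      = Set.ncard {f : α → ℕ | StrictMono f ∧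
          ∀ i : ℕ, (Finset.univ.filter (fun a => f a = i)).card = m i} := by
  classical
  rw [← Set.ncard_coe_finset]
  congr 1
  ext f
  simp only [coe_filter, mem_maps, mem_univ, forall_const, not_true_eq_false, IsEmpty.forall_iff,
    implies_true, true_and, Set.mem_setOf_eq]
  constructor
  · rintro ⟨⟨_, h2⟩, h3⟩
    exact ⟨fun a b hab => h2 a b hab, fun i => by rw [hm, ← h3]; rfl⟩
  · rintro ⟨h1, h2⟩
    refine ⟨⟨fun a => ?_, fun a b hab => h1 hab⟩, funext fun i => by rw [← hm, ← h2]; rfl⟩
    by_contra hh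
    have := h2 (f a)
    rw [hm, hc _ (not_lt.1 hh), card_eq_zero, filter_eq_empty_iff] at this
    exact this (mem_univ a) rfl

open Classical in
lemma fiber_eq {α β : Type} [Fintype α] [PartialOrder α] [DecidableEq α] [Fintype β]
    [PartialOrder β] [DecidableEq β] (H : SameQ α β) (N : ℕ) (c : ℕ → ℕ) :
    ((maps N (univ : Finset α)).filter (fun f => ct f = c)).card
      = ((maps N (univ : Finset β)).filter (fun f => ct f = c)).card := by
  classical
  by_cases hc : ∀ i, N ≤ i → c i = 0
  · let m : ℕ →₀ ℕ := Finsupp.onFinset (range N) c (by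
      intro i hi
      by_contra hh
      exact hi (hc i (by simpa using hh)))
    rw [fiber_card α N c m (fun _ => rfl) hc, fiber_card β N c m (fun _ => rfl) hc, H m]
  · have key : ∀ (γ : Type) [Fintype γ] [PartialOrder γ] [DecidableEq γ],
        (maps N (univ : Finset γ)).filter (fun f => ct f = c) = ∅ := by
      intro γ _ _ _
      refine filter_eq_empty_iff.2 fun f hf h => hc fun i hi => ?_
      rw [← h]
      unfold ct
      rw [card_eq_zero, filter_eq_empty_iff]
      intro a _ ha
      have := (mem_maps.1 hf).1 a (mem_univ a)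
      omega
    rw [key α, key β]; rfl

open Classical in
noncomputable def Theta {R Λ : Type} [CommRing R] [Fintype Λ] [DecidableEq Λ] (α : Type) [Fintype α]
    [PartialOrder α] (w : (Λ → ℕ) → Λ → R) (adm : (Λ → ℕ) → Prop) (val : (Λ → ℕ) → Λ → ℚ) : R :=
  ∑ y : α → Λ, if adm (ct y) ∧ ∀ I : Finset α, Low I → 0 ≤ ∑ a ∈ I, val (ct y) (y a)
    then ∏ a, w (ct y) (y a) else 0

open Classical in
noncomputable def Psi {R Λ : Type} [CommRing R] [Fintype Λ] [DecidableEq Λ] (α : Type) [Fintype α]
    [PartialOrder α] (w : (Λ → ℕ) → Λ → R) (adm : (Λ → ℕ) → Prop) (val : (Λ → ℕ) → Λ → ℚ) (N : ℕ)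
    (f : α → ℕ) : R :=
  ∑ y : α → Λ, (if adm (ct y) then ∏ a, w (ct y) (y a) else 0) *
    ((∏ i ∈ range N, om (fun a => val (ct y) (y a)) univ f i : ℤ) : R)

open Classical in
lemma Theta_Psi {R Λ : Type} [CommRing R] [Fintype Λ] [DecidableEq Λ] (α : Type) [Fintype α]
    [PartialOrder α] (w : (Λ → ℕ) → Λ → R) (adm : (Λ → ℕ) → Prop) (val : (Λ → ℕ) → Λ → ℚ) (n : ℕ)
    (hn : Fintype.card α ≤ n) :
    Theta α w adm val = ∑ N ∈ range (n + 1), ∑ f ∈ maps N (univ : Finset α), Psi α w adm val N f := by
  unfold Theta Psi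
  rw [Finset.sum_congr rfl (fun N _ => Finset.sum_comm), Finset.sum_comm]
  refine Finset.sum_congr rfl fun y _ => ?_
  have := euler_maps (fun a => val (ct y) (y a)) n hn
  unfold cN at this
  simp only [← Finset.mul_sum, ← Int.cast_sum]
  rw [this]
  by_cases h1 : adm (ct y) <;>
    by_cases h2 : ∀ I : Finset α, Low I → 0 ≤ ∑ a ∈ I, val (ct y) (y a) <;> simp [h1, h2]

open Classical in
lemma Psi_eq {R Λ : Type} [CommRing R] [Fintype Λ] [DecidableEq Λ] {α β : Type} [Fintype α]
    [PartialOrder α] [Fintype β] [PartialOrder β] (w : (Λ → ℕ) → Λ → R) (adm : (Λ → ℕ) → Prop)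
    (val : (Λ → ℕ) → Λ → ℚ) (N : ℕ) (f : α → ℕ) (g : β → ℕ) (h : ct f = ct g) :
    Psi α w adm val N f = Psi β w adm val N g := by
  obtain ⟨e, he⟩ := exists_equiv_of_ct h
  unfold Psi
  symm
  refine Fintype.sum_equiv (Equiv.arrowCongr e.symm (Equiv.refl Λ)) _ _ fun y => ?_
  have hy : (Equiv.arrowCongr e.symm (Equiv.refl Λ)) y = fun a => y (e a) := by
    funext a; simp
  rw [hy, ct_comp e y, e.prod_comp (fun b => w (ct y) (y b))]
  congr 2
  refine Finset.prod_congr rfl fun i _ => ?_
  have e1 : (univ.filter (fun b => g b = i)).card = (univ.filter (fun a => f a = i)).card :=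
    (congrFun h i).symm
  have e2 : ∑ b ∈ univ.filter (fun b => g b ≤ i), val (ct y) (y b)
      = ∑ a ∈ univ.filter (fun a => f a ≤ i), val (ct y) (y (e a)) := by
    rw [Finset.sum_filter, Finset.sum_filter, ← e.sum_comp]
    simp only [he]
  unfold om
  rw [e2, e1]
  simp only [← card_eq_zero, e1]

theorem Theta_eq {R Λ : Type} [CommRing R] [Fintype Λ] [DecidableEq Λ] {α β : Type} [Fintype α]
    [PartialOrder α] [Fintype β] [PartialOrder β] (H : SameQ α β) (w : (Λ → ℕ) → Λ → R)
    (adm : (Λ → ℕ) → Prop) (val : (Λ → ℕ) → Λ → ℚ) : Theta α w adm val = Theta β w adm val := by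
  classical
  rw [Theta_Psi α w adm val (max (Fintype.card α) (Fintype.card β)) (le_max_left _ _),
    Theta_Psi β w adm val (max (Fintype.card α) (Fintype.card β)) (le_max_right _ _)]
  refine Finset.sum_congr rfl fun N _ => ?_
  exact sum_eq_of_fibers _ _ ct ct _ _ (fiber_eq H N)
    (fun f _ g _ h => Psi_eq w adm val N f g h)

/-- a strict map with values below `N` transfers, with the same fibre sizes -/
lemma exists_strict {α β : Type} [Fintype α] [PartialOrder α] [Fintype β] [PartialOrder β]
    (H : SameQ α β) (N : ℕ) (f : α → ℕ) (hf : StrictMono f) (hN : ∀ a, f a < N) :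
    ∃ g : β → ℕ, StrictMono g ∧ (∀ b, g b < N) ∧ ct f = ct g := by
  classical
  have h1 := fiber_eq H N (ct f)
  have h2 : ((maps N (univ : Finset α)).filter (fun f' => ct f' = ct f)).Nonempty :=
    ⟨f, mem_filter.2 ⟨mem_maps.2 ⟨fun a _ => hN a, fun a ha => absurd (mem_univ a) ha,
      fun a _ b _ h => hf h⟩, rfl⟩⟩
  rw [← card_pos, h1, card_pos] at h2
  obtain ⟨g, hg⟩ := h2
  obtain ⟨g1, g2⟩ := mem_filter.1 hg
  obtain ⟨a1, _, a3⟩ := mem_maps.1 g1
  exact ⟨g, fun a b h => a3 a (mem_univ _) b (mem_univ _) h, fun b => a1 b (mem_univ _), g2.symm⟩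

end Pool.Agent.Work.MP_be9894_co.H2
end
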