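import Mathlib
import Pool.Agent.Work.MP_be9894_co.H2Transfer

-- merged part: Pool.Agent.Work.MP_be9894_co.H2Poly
section
set_option autoImplicit false
set_option linter.unusedSectionVars false

namespace Pool.Agent.Work.MP_be9894_co.H2

open Finset MvPolynomial

/-- isomorphism types of rooted trees, cut at a given depth -/
def Code : ℕ → Type
  | 0 => Unit
  | h + 1 => Multiset (Code h)

def kids {h : ℕ} (c : Code (h + 1)) : Multiset (Code h) := c

section defs

variable {R : Type} [CommRing R]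

def gg (t : ℕ → R) : (h : ℕ) → Code h → ℕ → R
  | 0, _, _ => 0
  | h + 1, c, i => ∑ j ∈ range i,
      if j % 2 = h % 2 then t j * ((kids c).map fun z => gg t h z j).prod else 0

def GG (t U : ℕ → R) (N : ℕ) : (h : ℕ) → Code h → R
  | 0, _ => 0
  | h + 1, c => gg t (h + 1) c N + U (h % 2) * ((kids c).map (GG t U N h)).prod

def csz : (h : ℕ) → Code h → ℕ
  | 0, _ => 0
  | h + 1, c => 1 + ((kids c).map (csz h)).sum

lemma gg_succ (t : ℕ → R) (h : ℕ) (c : Code (h + 1)) (i : ℕ) : gg t (h + 1) c i = ∑ j ∈ range i,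
    if j % 2 = h % 2 then t j * ((kids c).map fun z => gg t h z j).prod else 0 := rfl

lemma GG_succ (t U : ℕ → R) (N h : ℕ) (c : Code (h + 1)) : GG t U N (h + 1) c =
    gg t (h + 1) c N + U (h % 2) * ((kids c).map (GG t U N h)).prod := rfl

lemma gg_map {S : Type} [CommRing S] (φ : R →+* S) (t : ℕ → R) (t' : ℕ → S)
    (ht : ∀ j, φ (t j) = t' j) (h : ℕ) (c : Code h) (i : ℕ) : φ (gg t h c i) = gg t' h c i := by
  induction h generalizing i with
  | zero => exact map_zero φ
  | succ h ih =>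
    rw [gg_succ, gg_succ, map_sum]
    refine Finset.sum_congr rfl fun j _ => ?_
    split_ifs
    · rw [map_mul, ht, map_multiset_prod, Multiset.map_map]
      congr 2
      exact Multiset.map_congr rfl fun z _ => ih z j
    · exact map_zero φ

lemma GG_map {S : Type} [CommRing S] (φ : R →+* S) (t U : ℕ → R) (t' U' : ℕ → S)
    (ht : ∀ j, φ (t j) = t' j) (hU : ∀ b, b < 2 → φ (U b) = U' b) (N h : ℕ) (c : Code h) :
    φ (GG t U N h c) = GG t' U' N h c := by
  induction h with
  | zero => exact map_zero φ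
  | succ h ih =>
    rw [GG_succ, GG_succ, map_add, map_mul, gg_map φ t t' ht, hU _ (Nat.mod_lt _ two_pos),
      map_multiset_prod, Multiset.map_map]
    congr 3
    exact Multiset.map_congr rfl fun z _ => ih z

lemma gg_cut (t : ℕ → R) (M h : ℕ) (c : Code h) (i : ℕ) :
    gg (fun j => if j < M then t j else 0) h c i = gg t h c (min i M) := by
  induction h generalizing i with
  | zero => rfl
  | succ h ih =>
    rw [gg_succ, gg_succ]
    symm
    refine Finset.sum_subset_zero_on_sdiff (range_subset_range.2 (min_le_left _ _)) ?_ ?_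
    · intro j hj
      simp only [mem_sdiff, mem_range] at hj
      rw [if_neg (show ¬ j < M by omega), zero_mul, ite_self]
    · intro j hj
      have hj' : j < M := by have := mem_range.1 hj; omega
      rw [if_pos hj']
      congr 3
      refine Multiset.map_congr rfl fun z _ => ?_
      rw [ih z j, min_eq_left hj'.le]

lemma GG_cut (t U : ℕ → R) (M N h : ℕ) (c : Code h) :
    GG (fun j => if j < M then t j else 0) U N h c = GG t U (min N M) h c := by
  induction h with
  | zero => rfl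
  | succ h ih =>
    rw [GG_succ, GG_succ, gg_cut]
    congr 3
    exact Multiset.map_congr rfl fun z _ => ih z

lemma GG_zero (t U : ℕ → R) (N h : ℕ) (hU : U ((h + 1) % 2) = 0) (c : Code h) :
    GG t U N h c = gg t h c N := by
  cases h with
  | zero => rfl
  | succ h => rw [GG_succ, show h % 2 = (h + 1 + 1) % 2 by omega, hU, zero_mul, add_zero]

lemma gg_at_zero (t : ℕ → R) (h : ℕ) (c : Code h) : gg t h c 0 = 0 := by
  cases h with
  | zero => rfl
  | succ h => rw [gg_succ]; simp

end defs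

abbrev PP := MvPolynomial ℕ ℚ

open Classical in
noncomputable def kill (S : ℕ → Prop) : PP →+* PP :=
  (aeval (fun j => if S j then (0 : PP) else X j) : PP →ₐ[ℚ] PP)

open Classical in
lemma kill_X (S : ℕ → Prop) (j : ℕ) : kill S (X j) = if S j then 0 else X j := by
  simp [kill]

lemma kill_C (S : ℕ → Prop) (a : ℚ) : kill S (C a) = C a := by
  simp [kill]

open Classical in
lemma kill_monomial (S : ℕ → Prop) (d : ℕ →₀ ℕ) (a : ℚ) :
    kill S (monomial d a) = if ∀ j, S j → d j = 0 then monomial d a else 0 := by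
  rw [monomial_eq, map_mul, kill_C, Finsupp.prod, map_prod]
  split_ifs with h
  · congr 1
    refine Finset.prod_congr rfl fun j hj => ?_
    rw [map_pow, kill_X, if_neg]
    exact fun hs => Finsupp.mem_support_iff.1 hj (h j hs)
  · push Not at h
    obtain ⟨j, h1, h2⟩ := h
    rw [Finset.prod_eq_zero (Finsupp.mem_support_iff.2 h2), mul_zero]
    rw [map_pow, kill_X, if_pos h1, zero_pow h2]

open Classical in
lemma kill_coeff (S : ℕ → Prop) (p : PP) (d : ℕ →₀ ℕ) :
    coeff d (kill S p) = if ∀ j, S j → d j = 0 then coeff d p else 0 := by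
  induction p using MvPolynomial.induction_on' with
  | monomial e a =>
    rw [kill_monomial]
    by_cases hde : e = d
    · subst hde
      split_ifs <;> simp
    · split_ifs <;> simp [hde]
  | add p q hp hq =>
    rw [map_add, coeff_add, coeff_add, hp, hq]
    split_ifs <;> simp

lemma kill_deg (S : ℕ → Prop) (p : PP) : (kill S p).totalDegree ≤ p.totalDegree := by
  refine totalDegree_le_of_support_subset fun d hd => ?_
  rw [mem_support_iff] at hd ⊢
  rw [kill_coeff] at hd
  split_ifs at hd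
  · exact hd
  · exact absurd rfl hd

lemma kill_fix_iff (b : ℕ) (p : PP) : kill (· = b) p = p ↔ degreeOf b p = 0 := by
  rw [← Nat.le_zero, degreeOf_le_iff]
  constructor
  · intro h d hd
    rw [← h, mem_support_iff, kill_coeff] at hd
    split_ifs at hd with h1
    · exact (h1 b rfl).le
    · exact absurd rfl hd
  · intro h
    ext d
    rw [kill_coeff]
    split_ifs with h1
    · rfl
    · by_contra h2
      refine h1 fun j hj => ?_
      rw [hj]
      exact Nat.le_zero.1 (h d (mem_support_iff.2 fun h3 => h2 h3.symm))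

lemma free_of_dvd (b : ℕ) {p q : PP} (h : p ∣ q) (hq : q ≠ 0) (hf : kill (· = b) q = q) :
    kill (· = b) p = p := by
  obtain ⟨r, rfl⟩ := h
  rw [kill_fix_iff] at hf ⊢
  rw [degreeOf_mul_eq (left_ne_zero_of_mul hq) (right_ne_zero_of_mul hq)] at hf
  omega

lemma kill_comm (S S' : ℕ → Prop) (p : PP) : kill S (kill S' p) = kill S' (kill S p) := by
  ext d
  simp only [kill_coeff]
  split_ifs <;> rfl

noncomputable def TT (j : ℕ) : PP := X (j + 2)

noncomputable def VV (b : ℕ) : PP := X b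

noncomputable def kap (M : ℕ) : PP →+* PP := kill (fun j => M + 2 ≤ j)

lemma kap_T (M j : ℕ) : kap M (TT j) = if j < M then TT j else 0 := by
  unfold kap TT
  rw [kill_X]
  split_ifs <;> first | rfl | omega

lemma kap_V (M b : ℕ) (hb : b < 2) : kap M (VV b) = VV b := by
  unfold kap VV
  rw [kill_X, if_neg (by omega)]

lemma kap_gg (M h : ℕ) (c : Code h) (i : ℕ) : kap M (gg TT h c i) = gg TT h c (min i M) := by
  rw [gg_map (kap M) TT _ (kap_T M), gg_cut]

lemma kap_GG (M N h : ℕ) (c : Code h) : kap M (GG TT VV N h c) = GG TT VV (min N M) h c := by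
  rw [GG_map (kap M) TT VV _ VV (kap_T M) (kap_V M), GG_cut]

lemma kap_kap (M M' : ℕ) (h : M ≤ M') (p : PP) : kap M (kap M' p) = kap M p := by
  ext d
  simp only [kap, kill_coeff]
  split_ifs with h1 h2
  · rfl
  · exact absurd (fun j hj => h1 j (by omega)) h2
  · rfl

lemma psi_T (b : ℕ) (hb : b < 2) (j : ℕ) : kill (· = b) (TT j) = TT j := by
  unfold TT
  rw [kill_X, if_neg (by omega)]

lemma psi_gg (b : ℕ) (hb : b < 2) (h : ℕ) (c : Code h) (i : ℕ) :
    kill (· = b) (gg TT h c i) = gg TT h c i := gg_map _ TT TT (psi_T b hb) h c i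

lemma psi_V (b : ℕ) : kill (· = b) (VV b) = 0 := by
  unfold VV
  rw [kill_X, if_pos rfl]

lemma gg_mono {h : ℕ} {c : Code h} {i N : ℕ} (hi : i ≤ N) (h0 : gg TT h c i ≠ 0) :
    gg TT h c N ≠ 0 := by
  intro h1
  have := kap_gg i h c N
  rw [h1, map_zero, min_eq_right hi] at this
  exact h0 this.symm

lemma fit_ex {h : ℕ} {c : Code (h + 1)} {N : ℕ} (h0 : gg TT (h + 1) c N ≠ 0) :
    ∃ j, j < N ∧ j % 2 = h % 2 ∧ ((kids c).map fun z => gg TT h z j).prod ≠ 0 := by
  rw [gg_succ] at h0
  obtain ⟨j, hj, h1⟩ := Finset.exists_ne_zero_of_sum_ne_zero h0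
  split_ifs at h1 with h2
  · exact ⟨j, mem_range.1 hj, h2, right_ne_zero_of_mul h1⟩
  · exact absurd rfl h1

lemma ne_of_prod {ι : Type} {s : Multiset ι} {f : ι → PP} (h : (s.map f).prod ≠ 0) {z : ι}
    (hz : z ∈ s) : f z ≠ 0 := fun h1 =>
  h (Multiset.prod_eq_zero (h1 ▸ Multiset.mem_map_of_mem f hz))

lemma prod_ne {ι : Type} {s : Multiset ι} {f : ι → PP} (h : ∀ z ∈ s, f z ≠ 0) :
    (s.map f).prod ≠ 0 := by
  rw [Ne, Multiset.prod_eq_zero_iff, Multiset.mem_map]
  rintro ⟨z, hz, h1⟩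
  exact h z hz h1

lemma fit_kids {h : ℕ} {c : Code (h + 1)} {N : ℕ} (h0 : gg TT (h + 1) c N ≠ 0) {z : Code h}
    (hz : z ∈ kids c) : gg TT h z N ≠ 0 := by
  obtain ⟨j, h1, _, h3⟩ := fit_ex h0
  exact gg_mono h1.le (ne_of_prod h3 hz)

lemma fit_of_kids {h : ℕ} {c : Code (h + 1)} {j : ℕ} (hj : j % 2 = h % 2)
    (h0 : ∀ z ∈ kids c, gg TT h z j ≠ 0) : gg TT (h + 1) c (j + 1) ≠ 0 := by
  intro h1
  have h2 := kap_gg j (h + 1) c (j + 1)
  rw [h1, map_zero, min_eq_right (Nat.le_succ j)] at h2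
  rw [gg_succ, Finset.sum_range_succ, ← gg_succ, ← h2, zero_add, if_pos hj] at h1
  exact mul_ne_zero (X_ne_zero _) (prod_ne h0) h1

lemma deg_gg (h : ℕ) (c : Code h) (i : ℕ) : (gg TT h c i).totalDegree ≤ csz h c := by
  induction h generalizing i with
  | zero => exact (totalDegree_zero (σ := ℕ) (R := ℚ)).le
  | succ h ih =>
    rw [gg_succ]
    refine (totalDegree_finsetSum _ _).trans (Finset.sup_le fun j _ => ?_)
    split_ifs
    · refine (totalDegree_mul _ _).trans (add_le_add (totalDegree_X _).le ?_)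
      refine (totalDegree_multiset_prod _).trans ?_
      rw [Multiset.map_map]
      exact Multiset.sum_map_le_sum_map _ _ fun z _ => ih z j
    · simp

lemma deg_GG_le (N h : ℕ) (c : Code h) : (GG TT VV N h c).totalDegree ≤ csz h c := by
  induction h with
  | zero => exact (totalDegree_zero (σ := ℕ) (R := ℚ)).le
  | succ h ih =>
    rw [GG_succ]
    refine (totalDegree_add _ _).trans (max_le (deg_gg _ _ _) ?_)
    refine (totalDegree_mul _ _).trans (add_le_add (totalDegree_X _).le ?_)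
    refine (totalDegree_multiset_prod _).trans ?_
    rw [Multiset.map_map]
    exact Multiset.sum_map_le_sum_map _ _ fun z _ => ih z

lemma deg_prod {ι : Type} (s : Multiset ι) (f : ι → PP) (h : ∀ z ∈ s, f z ≠ 0) :
    (s.map f).prod.totalDegree = (s.map fun z => (f z).totalDegree).sum := by
  induction s using Multiset.induction_on with
  | empty => simp
  | cons a s ih =>
    have h1 : ∀ z ∈ s, f z ≠ 0 := fun z hz => h z (Multiset.mem_cons_of_mem hz)
    rw [Multiset.map_cons, Multiset.map_cons, Multiset.prod_cons, Multiset.sum_cons,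
      totalDegree_mul_of_isDomain (h a (Multiset.mem_cons_self _ _)) (prod_ne h1), ih h1]

noncomputable def ev1 : PP →+* ℚ := eval (fun j => if j < 2 then 1 else 0)

lemma gg_null {R : Type} [CommRing R] (h : ℕ) (c : Code h) (i : ℕ) :
    gg (fun _ => (0 : R)) h c i = 0 := by
  cases h with
  | zero => rfl
  | succ h => rw [gg_succ]; simp

lemma ev1_GG {h : ℕ} {c : Code h} {M : ℕ} (h0 : gg TT h c M ≠ 0) (N : ℕ) :
    ev1 (GG TT VV N h c) = 1 := by
  rw [GG_map ev1 TT VV (fun _ => 0) (fun _ => 1) (fun j => by simp [ev1, TT])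
    (fun b hb => by unfold ev1 VV; rw [eval_X, if_pos hb])]
  induction h with
  | zero => exact absurd rfl h0
  | succ h ih =>
    rw [GG_succ, gg_null, zero_add, one_mul, Multiset.map_congr rfl (fun z hz => ih (fit_kids h0 hz))]
    simp

lemma GG_ne {h : ℕ} {c : Code h} {M : ℕ} (h0 : gg TT h c M ≠ 0) (N : ℕ) : GG TT VV N h c ≠ 0 := by
  intro h1
  have := ev1_GG h0 N
  rw [h1, map_zero] at this
  exact zero_ne_one this

lemma deg_GG {h : ℕ} {c : Code h} {M : ℕ} (h0 : gg TT h c M ≠ 0) (N : ℕ) :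
    (GG TT VV N h c).totalDegree = csz h c := by
  refine le_antisymm (deg_GG_le _ _ _) (le_trans ?_ (kill_deg (fun j => 0 + 2 ≤ j) _))
  have := kap_GG 0 N h c
  unfold kap at this
  rw [this, Nat.min_zero]
  clear this
  refine le_of_eq ?_
  induction h with
  | zero => exact absurd rfl h0
  | succ h ih =>
    have h1 : ∀ z ∈ kids c, GG TT VV 0 h z ≠ 0 := fun z hz => GG_ne (fit_kids h0 hz) 0
    rw [GG_succ, gg_at_zero, zero_add, VV, totalDegree_mul_of_isDomain (X_ne_zero _) (prod_ne h1),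
      deg_prod _ _ h1, totalDegree_X,
      ← Multiset.map_congr rfl (fun z hz => ih (fit_kids h0 hz))]
    rfl

theorem GG_irr (h : ℕ) (c : Code h) (N : ℕ) (h0 : gg TT h c N ≠ 0) :
    Irreducible (GG TT VV N h c) := by
  induction h generalizing N with
  | zero => exact absurd rfl h0
  | succ h ih =>
    classical
    have hex : ∃ j, j % 2 = h % 2 ∧ ((kids c).map fun z => gg TT h z j).prod ≠ 0 := by
      obtain ⟨j, _, h2⟩ := fit_ex h0
      exact ⟨j, h2⟩
    set j := Nat.find hex with hj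
    obtain ⟨j1, j2⟩ : j % 2 = h % 2 ∧ ((kids c).map fun z => gg TT h z j).prod ≠ 0 :=
      Nat.find_spec hex
    have jN : j < N := by
      obtain ⟨i, h1, h2⟩ := fit_ex h0
      exact lt_of_le_of_lt (Nat.find_min' hex h2) h1
    have g0 : gg TT (h + 1) c j = 0 := by
      by_contra h1
      obtain ⟨i, h2, h3⟩ := fit_ex h1
      exact Nat.find_min hex h2 h3
    have g1 : gg TT (h + 1) c (j + 1) ≠ 0 := fit_of_kids j1 fun z hz => ne_of_prod j2 hz
    have hb : h % 2 < 2 := Nat.mod_lt _ two_pos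
    have hP := GG_ne h0 N
    have k0 : kap j (GG TT VV N (h + 1) c) = VV (h % 2) * ((kids c).map (GG TT VV j h)).prod := by
      rw [kap_GG, min_eq_right jN.le, GG_succ, g0, zero_add]
    have k1 : kill (· = h % 2) (kap (j + 1) (GG TT VV N (h + 1) c)) = gg TT (h + 1) c (j + 1) := by
      rw [kap_GG, min_eq_right jN, GG_succ, map_add, map_mul, psi_V, zero_mul, add_zero,
        psi_gg _ hb]
    have key : ∀ p q : PP, GG TT VV N (h + 1) c = p * q → VV (h % 2) ∣ kap j p → IsUnit q := by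
      rintro p q e ⟨p', hp'⟩
      have e0 : ((kids c).map (GG TT VV j h)).prod = p' * kap j q := by
        refine mul_left_cancel₀ (X_ne_zero (h % 2)) ?_
        have := k0
        rw [e, map_mul, hp', mul_assoc] at this
        exact this.symm
      have n0 : ((kids c).map (GG TT VV j h)).prod ≠ 0 :=
        prod_ne fun z hz => GG_ne (ne_of_prod j2 hz) j
      have hq0 : kap j q ≠ 0 := right_ne_zero_of_mul (e0 ▸ n0)
      have hu : IsUnit (kap j q) := by
        by_contra hu
        obtain ⟨π, π1, π2⟩ := WfDvdMonoid.exists_irreducible_factor hu hq0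
        obtain ⟨a, ha, π3⟩ := π1.prime.exists_mem_multiset_dvd
          (π2.trans (e0 ▸ Dvd.intro_left p' rfl))
        obtain ⟨z, hz, rfl⟩ := Multiset.mem_map.1 ha
        have hz0 : gg TT h z j ≠ 0 := ne_of_prod j2 hz
        have d1 : GG TT VV j h z ∣ kap j q :=
          ((π1.associated_of_dvd (ih z j hz0) π3).symm.dvd).trans π2
        cases h with
        | zero => exact hz0 rfl
        | succ h =>
          have hb' : h % 2 < 2 := Nat.mod_lt _ two_pos
          have hne : h % 2 ≠ (h + 1) % 2 := by omega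
          have form : ∀ y : Code (h + 1), kill (· = (h + 1) % 2) (GG TT VV j (h + 1) y) =
              gg TT (h + 1) y j + VV (h % 2) * ((kids y).map fun x => gg TT h x j).prod := by
            intro y
            rw [GG_map (kill (· = (h + 1) % 2)) TT VV TT (fun b => kill (· = (h + 1) % 2) (VV b))
              (psi_T _ hb) (fun _ _ => rfl), GG_succ]
            congr 2
            · unfold VV
              rw [kill_X, if_neg hne]
            · congr 1
              exact Multiset.map_congr rfl fun x _ => GG_zero _ _ _ _ (psi_V _) x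
          have form2 : ∀ y : Code (h + 1), kill (· = h % 2)
              (kill (· = (h + 1) % 2) (GG TT VV j (h + 1) y)) = gg TT (h + 1) y j := by
            intro y
            rw [form, map_add, map_mul, psi_V, zero_mul, add_zero, psi_gg _ hb']
          have f1 : kill (· = h % 2) (kill (· = (h + 1) % 2) (kap (j + 1) q)) =
              kill (· = (h + 1) % 2) (kap (j + 1) q) := by
            refine free_of_dvd _ ?_ g1 (psi_gg _ hb' _ _ _)
            rw [← k1, e, map_mul, map_mul]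
            exact Dvd.intro_left _ rfl
          have f2 : kill (· = h % 2) (kill (· = (h + 1) % 2) (kap j q)) =
              kill (· = (h + 1) % 2) (kap j q) := by
            have := congrArg (kap j) f1
            rw [← kap_kap j (j + 1) (Nat.le_succ j) q]
            unfold kap at this ⊢
            rw [kill_comm (fun i => j + 2 ≤ i), kill_comm (fun i => j + 2 ≤ i)] at this
            exact this
          have f3 : kill (· = (h + 1) % 2) (kap j q) ≠ 0 := by
            have a1 := congrArg (kill (· = (h + 1) % 2)) e0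
            rw [map_mul, map_multiset_prod, Multiset.map_map] at a1
            refine right_ne_zero_of_mul (a1 ▸ prod_ne fun y hy a2 => ?_)
            have a3 := form2 y
            rw [show kill (· = (h + 1) % 2) (GG TT VV j (h + 1) y) = 0 from a2, map_zero] at a3
            exact ne_of_prod j2 hy a3.symm
          have f4 := free_of_dvd _ (map_dvd (kill (· = (h + 1) % 2)) d1) f3 f2
          rw [form2, form, left_eq_add] at f4
          exact mul_ne_zero (X_ne_zero _) (prod_ne fun x hx => fit_kids hz0 hx) f4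
      have hp0 : p ≠ 0 := left_ne_zero_of_mul (e ▸ hP)
      have hq1 : q ≠ 0 := right_ne_zero_of_mul (e ▸ hP)
      have d1 := deg_GG h0 N
      have d2 := deg_GG h0 (min N j)
      rw [← kap_GG, e, map_mul] at d2
      rw [e, totalDegree_mul_of_isDomain hp0 hq1] at d1
      have d3 := totalDegree_mul (kap j p) (kap j q)
      have d4 := (isUnit_iff_totalDegree_of_isReduced.1 hu).2
      have d5 : (kap j p).totalDegree ≤ p.totalDegree := kill_deg _ p
      have d6 : q.totalDegree = 0 := by omega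
      refine isUnit_iff_totalDegree_of_isReduced.2 ⟨IsUnit.mk0 _ fun h7 => hq1 ?_, d6⟩
      rw [totalDegree_eq_zero_iff_eq_C.1 d6, h7, C_0]
    refine ⟨fun hu => ?_, fun p q e => ?_⟩
    · have d1 := deg_GG h0 N
      rw [(isUnit_iff_totalDegree_of_isReduced.1 hu).2] at d1
      unfold csz at d1
      omega
    · have : VV (h % 2) ∣ kap j p * kap j q := by
        rw [← map_mul, ← e, k0]
        exact Dvd.intro _ rfl
      rcases (X_prime (i := h % 2) (R := ℚ)).dvd_or_dvd this with h1 | h1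
      · exact Or.inr (key p q e h1)
      · exact Or.inl (key q p (by rw [e, mul_comm]) h1)

theorem prod_inj (h N : ℕ) (s s' : Multiset (Code h)) (hs : ∀ z ∈ s, gg TT h z N ≠ 0)
    (hs' : ∀ z ∈ s', gg TT h z N ≠ 0)
    (e : (s.map (GG TT VV N h)).prod = (s'.map (GG TT VV N h)).prod) : s = s' := by
  induction h with
  | zero =>
    rw [Multiset.eq_zero_of_forall_notMem (fun z hz => hs z hz rfl),
      Multiset.eq_zero_of_forall_notMem (fun z hz => hs' z hz rfl)]
  | succ h ih =>
    have h1 := UniqueFactorizationMonoid.factors_unique (f := s.map (GG TT VV N (h + 1)))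
      (g := s'.map (GG TT VV N (h + 1)))
      (fun x hx => by
        obtain ⟨z, hz, rfl⟩ := Multiset.mem_map.1 hx
        exact GG_irr _ z N (hs z hz))
      (fun x hx => by
        obtain ⟨z, hz, rfl⟩ := Multiset.mem_map.1 hx
        exact GG_irr _ z N (hs' z hz)) (e ▸ Associated.refl _)
    rw [Multiset.rel_map] at h1
    rw [← Multiset.rel_eq]
    refine h1.mono fun z hz z' hz' ⟨u, hu⟩ => ?_
    obtain ⟨r, _, hr⟩ := isUnit_iff_eq_C_of_isReduced.1 u.isUnit
    have h2 := congrArg ev1 hu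
    rw [map_mul, ev1_GG (hs z hz), ev1_GG (hs' z' hz'), hr, one_mul] at h2
    have h3 : r = 1 := by simpa [ev1] using h2
    rw [hr, h3, C_1, mul_one] at hu
    have hb : h % 2 < 2 := Nat.mod_lt _ two_pos
    have h4 := congrArg (kill (· = h % 2)) hu
    rw [GG_succ, GG_succ, map_add, map_add, map_mul, map_mul, psi_V, zero_mul, zero_mul, add_zero,
      add_zero, psi_gg _ hb, psi_gg _ hb] at h4
    rw [GG_succ, GG_succ, h4, add_right_inj] at hu
    exact ih (kids z) (kids z') (fun x hx => fit_kids (hs z hz) hx)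
      (fun x hx => fit_kids (hs' z' hz') hx) (mul_left_cancel₀ (X_ne_zero _) hu)

end Pool.Agent.Work.MP_be9894_co.H2
end

-- merged part: Pool.Agent.Work.MP_be9894_co.H2Tree
section
set_option autoImplicit false
set_option linter.unusedSectionVars false

namespace Pool.Agent.Work.MP_be9894_co.H2

open Finset

/-- rooted description of a poset whose Hasse diagram is a tree -/
structure RT (β : Type) [PartialOrder β] where
  r : β
  p : β → β
  dep : β → ℕ
  pr : p r = r
  dr : dep r = 0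
  dp : ∀ v, v ≠ r → dep v = dep (p v) + 1
  adj : ∀ v, v ≠ r → v ⋖ p v ∨ p v ⋖ v
  all : ∀ a b, a ⋖ b → (a ≠ r ∧ p a = b) ∨ (b ≠ r ∧ p b = a)

lemma exists_RT (β : Type) [Fintype β] [PartialOrder β] (hT : (SimpleGraph.hasse β).IsTree) (r : β) :
    ∃ T : RT β, T.r = r ∧ ∀ v, T.dep v = (SimpleGraph.hasse β).dist v r := by
  classical
  set G := SimpleGraph.hasse β with hG
  have hc := hT.connected
  have ex : ∀ v, v ≠ r → ∃ u, G.Adj v u ∧ G.dist v r = G.dist u r + 1 := by
    intro v hv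
    obtain ⟨w, hw⟩ := hc.exists_walk_length_eq_dist v r
    cases w with
    | nil => exact absurd rfl hv
    | cons hadj w' =>
      rename_i u
      refine ⟨u, hadj, ?_⟩
      have h1 := SimpleGraph.dist_le w'
      have h2 : G.dist v r ≤ G.dist v u + G.dist u r := hc.dist_triangle
      rw [SimpleGraph.dist_eq_one_iff_adj.2 hadj] at h2
      simp only [SimpleGraph.Walk.length_cons] at hw
      omega
  choose! q hq1 hq2 using ex
  let p : β → β := fun v => if v = r then r else q v
  have hp : ∀ v, v ≠ r → p v = q v := fun v hv => if_neg hv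
  have hsurj : ∀ a b, G.Adj a b → (a ≠ r ∧ p a = b) ∨ (b ≠ r ∧ p b = a) := by
    have hmap : ∀ v ∈ univ.erase r, s(v, q v) ∈ G.edgeFinset := by
      intro v hv
      simpa using hq1 v (Finset.ne_of_mem_erase hv)
    have hinj : Set.InjOn (fun v => s(v, q v)) (univ.erase r : Finset β) := by
      intro u hu v hv huv
      have hu := Finset.ne_of_mem_erase (Finset.mem_coe.1 hu)
      have hv := Finset.ne_of_mem_erase (Finset.mem_coe.1 hv)
      rcases Sym2.eq_iff.1 huv with ⟨h1, _⟩ | ⟨h1, h2⟩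
      · exact h1
      · have a1 := hq2 u hu
        have a2 := hq2 v hv
        rw [h2] at a1; rw [← h1] at a2; omega
    have hcard : G.edgeFinset.card ≤ (univ.erase r).card := by
      have := hT.card_edgeFinset
      rw [Finset.card_erase_of_mem (mem_univ r), Finset.card_univ]; omega
    have hs := Finset.surjOn_of_injOn_of_card_le _ (fun v hv => hmap v hv) hinj hcard
    intro a b hab
    obtain ⟨v, hv, hv2⟩ := hs (show s(a, b) ∈ (G.edgeFinset : Set (Sym2 β)) by simpa using hab)
    have hv := Finset.ne_of_mem_erase (Finset.mem_coe.1 hv)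
    rcases Sym2.eq_iff.1 hv2 with ⟨h1, h2⟩ | ⟨h1, h2⟩
    · left; subst h1; exact ⟨hv, by rw [hp _ hv, h2]⟩
    · right; subst h1; exact ⟨hv, by rw [hp _ hv, h2]⟩
  refine ⟨⟨r, p, fun v => G.dist v r, if_pos rfl, by simp, fun v hv => ?_, fun v hv => ?_,
    fun a b hab => hsurj a b (Or.inl hab)⟩, rfl, fun _ => rfl⟩
  · rw [hp v hv]; exact hq2 v hv
  · rw [hp v hv]; exact hq1 v hv

lemma low_of_cov {α : Type} [Fintype α] [PartialOrder α] [DecidableEq α] (I : Finset α)
    (h : ∀ a b, b ⋖ a → a ∈ I → b ∈ I) : Low I := by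
  classical
  let _ : LocallyFiniteOrder α := Fintype.toLocallyFiniteOrder
  have : Monotone (fun x : α => x ∉ I) :=
    (monotone_iff_forall_covBy _).2 fun a b hab h1 h2 => h1 (h b a hab h2)
  intro a ha b hb
  by_contra h1
  exact this hb h1 ha

lemma iso_of_cov {α β : Type} [Fintype α] [PartialOrder α] [Fintype β] [PartialOrder β] (φ : α ≃ β)
    (H : ∀ a b, a ⋖ b ↔ φ a ⋖ φ b) : Nonempty (α ≃o β) := by
  classical
  let _ : LocallyFiniteOrder α := Fintype.toLocallyFiniteOrder
  let _ : LocallyFiniteOrder β := Fintype.toLocallyFiniteOrder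
  have h1 : StrictMono φ := (strictMono_iff_forall_covBy _).2 fun a b hab => ((H a b).1 hab).lt
  have h2 : StrictMono φ.symm := (strictMono_iff_forall_covBy _).2 fun a b hab =>
    ((H (φ.symm a) (φ.symm b)).2 (by simpa using hab)).lt
  exact ⟨φ.toOrderIso h1.monotone h2.monotone⟩

namespace RT

variable {β : Type} [PartialOrder β] (T : RT β)

lemma eq_r_of_dep {v : β} (h : T.dep v = 0) : v = T.r := by
  by_contra hv
  have := T.dp v hv
  omega

lemma dep_p (v : β) : T.dep (T.p v) = T.dep v - 1 := by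
  by_cases hv : v = T.r
  · rw [hv, T.pr, T.dr]
  · have := T.dp v hv; omega

lemma dep_iter (k : ℕ) (v : β) : T.dep (T.p^[k] v) = T.dep v - k := by
  induction k with
  | zero => rfl
  | succ k ih => rw [Function.iterate_succ_apply', dep_p, ih]; omega

/-- `anc v u`: `v` is an ancestor of `u` (or equal) -/
def anc (v u : β) : Prop := ∃ k, T.p^[k] u = v

lemma anc_refl (v : β) : T.anc v v := ⟨0, rfl⟩
lemma anc_trans {a b c : β} (h1 : T.anc a b) (h2 : T.anc b c) : T.anc a c := by
  obtain ⟨k, rfl⟩ := h1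
  obtain ⟨l, rfl⟩ := h2
  exact ⟨k + l, Function.iterate_add_apply _ _ _ _⟩
lemma anc_p (v : β) : T.anc (T.p v) v := ⟨1, rfl⟩
lemma anc_root (v : β) : T.anc T.r v :=
  ⟨T.dep v, T.eq_r_of_dep (by rw [dep_iter]; omega)⟩
lemma anc_dep {v u : β} (h : T.anc v u) : T.dep v ≤ T.dep u := by
  obtain ⟨k, rfl⟩ := h; rw [dep_iter]; omega
lemma anc_eq {v u : β} (h : T.anc v u) (hd : T.dep u ≤ T.dep v) : v = u := by
  obtain ⟨k, rfl⟩ := h
  rw [dep_iter] at hd
  rcases Nat.eq_zero_or_pos k with rfl | hk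
  · rfl
  · have h0 : T.dep u = 0 := by omega
    rw [T.eq_r_of_dep h0]
    exact Function.iterate_fixed T.pr k
lemma anc_total {a b u : β} (h1 : T.anc a u) (h2 : T.anc b u) : T.anc a b ∨ T.anc b a := by
  obtain ⟨k, rfl⟩ := h1
  obtain ⟨l, rfl⟩ := h2
  rcases le_total k l with h | h
  · right; obtain ⟨d, rfl⟩ := Nat.exists_eq_add_of_le h
    exact ⟨d, by rw [add_comm, Function.iterate_add_apply]⟩
  · left; obtain ⟨d, rfl⟩ := Nat.exists_eq_add_of_le h
    exact ⟨d, by rw [add_comm, Function.iterate_add_apply]⟩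
lemma anc_step {v u : β} (h : T.anc v u) (hne : v ≠ u) : T.anc v (T.p u) := by
  obtain ⟨k, rfl⟩ := h
  cases k with
  | zero => exact absurd rfl hne
  | succ k => exact ⟨k, rfl⟩
lemma not_anc_root {v : β} (hv : v ≠ T.r) : ¬ T.anc v T.r := fun h =>
  hv (T.anc_eq h (by rw [T.dr]; omega))

lemma ind_down (P : β → Prop) (h0 : P T.r) (h1 : ∀ x, x ≠ T.r → P (T.p x) → P x) (x : β) : P x := by
  induction h : T.dep x generalizing x with
  | zero => rw [T.eq_r_of_dep h]; exact h0
  | succ k ih =>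
    have hx : x ≠ T.r := fun e => by rw [e, T.dr] at h; omega
    exact h1 x hx (ih _ (by rw [T.dep_p]; omega))

variable [Fintype β] [DecidableEq β]

open Classical in
noncomputable def desc (v : β) : Finset β := univ.filter (T.anc v)

lemma mem_desc {v u : β} : u ∈ T.desc v ↔ T.anc v u := by simp [desc]

def ch (v : β) : Finset β := univ.filter (fun z => z ≠ T.r ∧ T.p z = v)

lemma mem_ch {v z : β} : z ∈ T.ch v ↔ z ≠ T.r ∧ T.p z = v := by simp [ch]

lemma dep_ch {v z : β} (h : z ∈ T.ch v) : T.dep z = T.dep v + 1 := by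
  obtain ⟨h1, h2⟩ := T.mem_ch.1 h
  rw [T.dp z h1, h2]

lemma desc_root : T.desc T.r = univ := eq_univ_of_forall fun u => T.mem_desc.2 (T.anc_root u)

lemma ind_up (P : β → Prop) (h1 : ∀ x, (∀ z ∈ T.ch x, P z) → P x) (x : β) : P x := by
  induction h : univ.sup T.dep - T.dep x using Nat.strong_induction_on generalizing x with
  | _ k ih =>
    refine h1 x fun z hz => ih _ ?_ z rfl
    have h2 := T.dep_ch hz
    have h3 : T.dep z ≤ univ.sup T.dep := Finset.le_sup (mem_univ z)
    omega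

lemma exists_ch {x u : β} (h : T.anc x u) (hne : x ≠ u) : ∃ z ∈ T.ch x, T.anc z u := by
  have h1 : T.dep x < T.dep u := by
    by_contra h2
    exact hne (T.anc_eq h (not_lt.1 h2))
  have h2 : T.dep (T.p^[T.dep u - T.dep x - 1] u) = T.dep x + 1 := by rw [dep_iter]; omega
  have h3 : T.anc (T.p^[T.dep u - T.dep x - 1] u) u := ⟨_, rfl⟩
  refine ⟨_, T.mem_ch.2 ⟨fun e => ?_, ?_⟩, h3⟩
  · rw [e, T.dr] at h2; omega
  · have h4 : T.dep (T.p (T.p^[T.dep u - T.dep x - 1] u)) = T.dep x := by rw [dep_p]; omega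
    rcases T.anc_total (T.anc_trans (T.anc_p _) h3) h with h5 | h5
    · exact T.anc_eq h5 h4.ge
    · exact (T.anc_eq h5 h4.le).symm

lemma sum_desc {M : Type} [AddCommMonoid M] (φ : β → M) (x : β) :
    ∑ u ∈ T.desc x, φ u = φ x + ∑ z ∈ T.ch x, ∑ u ∈ T.desc z, φ u := by
  rw [← Finset.add_sum_erase _ _ (T.mem_desc.2 (T.anc_refl x)), ← Finset.sum_biUnion]
  · congr 2
    ext u
    simp only [mem_erase, mem_biUnion, mem_desc]
    constructor
    · rintro ⟨h1, h2⟩
      exact T.exists_ch h2 h1.symm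
    · rintro ⟨z, hz, h⟩
      refine ⟨fun e => ?_, T.anc_trans ((T.mem_ch.1 hz).2 ▸ T.anc_p z) h⟩
      have h1 := T.anc_dep h
      have h2 := T.dep_ch hz
      rw [e] at h1; omega
  · intro z hz z' hz' hne
    refine Finset.disjoint_left.2 fun u h1 h2 => hne ?_
    have a1 := T.dep_ch (mem_coe.1 hz)
    have a2 := T.dep_ch (mem_coe.1 hz')
    rcases T.anc_total (T.mem_desc.1 h1) (T.mem_desc.1 h2) with h | h
    · exact T.anc_eq h (by omega)
    · exact (T.anc_eq h (by omega)).symm

theorem valid_iff (Y : β → ℚ) (h0 : ∑ a, Y a = 0) :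
    (∀ I : Finset β, Low I → 0 ≤ ∑ a ∈ I, Y a) ↔ ∀ z, z ≠ T.r →
      (z ⋖ T.p z → 0 ≤ ∑ a ∈ T.desc z, Y a) ∧ (T.p z ⋖ z → ∑ a ∈ T.desc z, Y a ≤ 0) := by
  constructor
  · intro H z hz
    refine ⟨fun h => H _ (low_of_cov _ fun a b hab ha => ?_), fun h => ?_⟩
    · rw [mem_desc] at ha ⊢
      rcases T.all b a hab with ⟨_, h2⟩ | ⟨_, h2⟩
      · exact T.anc_trans ha (h2 ▸ T.anc_p b)
      · by_cases e : z = a
        · rw [← e] at h2 hab
          rw [h2] at h
          exact absurd h.lt (lt_asymm hab.lt)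
        · exact h2 ▸ T.anc_step ha e
    · have h1 := H (T.desc z)ᶜ (low_of_cov _ fun a b hab ha => by
        rw [mem_compl, mem_desc] at ha ⊢
        intro hb
        rcases T.all b a hab with ⟨_, h2⟩ | ⟨_, h2⟩
        · by_cases e : z = b
          · rw [← e] at h2 hab
            rw [h2] at h
            exact absurd h.lt (lt_asymm hab.lt)
          · exact ha (h2 ▸ T.anc_step hb e)
        · exact ha (T.anc_trans hb (h2 ▸ T.anc_p a)))
      have h2 := Finset.sum_compl_add_sum (T.desc z) Y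
      linarith only [h0, h1, h2]
  · intro H I hI
    set φ : β → ℚ := fun a => if a ∈ I then 1 else 0 with hφ
    have key : ∀ x, 0 ≤ ∑ u ∈ T.desc x, Y u * (φ u - φ x) := by
      refine T.ind_up _ fun x ih => ?_
      rw [T.sum_desc, sub_self, mul_zero, zero_add]
      refine Finset.sum_nonneg fun z hz => ?_
      obtain ⟨z1, z2⟩ := T.mem_ch.1 hz
      have e : ∑ u ∈ T.desc z, Y u * (φ u - φ x) =
          ∑ u ∈ T.desc z, Y u * (φ u - φ z) + (∑ u ∈ T.desc z, Y u) * (φ z - φ x) := by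
        rw [Finset.sum_mul, ← Finset.sum_add_distrib]
        exact Finset.sum_congr rfl fun u _ => by ring
      rw [e]
      refine add_nonneg (ih z hz) ?_
      rcases T.adj z z1 with h | h
      · refine mul_nonneg ((H z z1).1 h) ?_
        rw [z2] at h
        simp only [hφ]
        split_ifs with a1 a2 a2
        · simp
        · simp
        · exact absurd (hI x a2 z h.le) a1
        · simp
      · refine mul_nonneg_of_nonpos_of_nonpos ((H z z1).2 h) ?_
        rw [z2] at h
        simp only [hφ]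
        split_ifs with a1 a2 a2
        · simp
        · exact absurd (hI z a1 x h.le) a2
        · simp
        · simp
    have h1 := key T.r
    rw [T.desc_root] at h1
    simp only [mul_sub, Finset.sum_sub_distrib, ← Finset.sum_mul, h0, zero_mul, sub_zero] at h1
    simp only [hφ, mul_ite, mul_one, mul_zero] at h1
    rwa [← Finset.sum_filter, Finset.filter_mem_eq_inter, univ_inter] at h1

/-- labellings supported on `W`, with the root labelled `N` -/
def lab (N : ℕ) (W : Finset β) : Finset (β → ℕ) :=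
  Fintype.piFinset fun y => if y = T.r then {N} else if y ∈ W then range (N + 1) else {0}

lemma mem_lab {N : ℕ} {W : Finset β} {f : β → ℕ} : f ∈ T.lab N W ↔
    f T.r = N ∧ (∀ y, y ≠ T.r → y ∈ W → f y ≤ N) ∧ ∀ y, y ≠ T.r → y ∉ W → f y = 0 := by
  simp only [lab, Fintype.mem_piFinset]
  constructor
  · intro h
    refine ⟨?_, fun y h1 h2 => ?_, fun y h1 h2 => ?_⟩
    · have := h T.r; rwa [if_pos rfl, mem_singleton] at this
    · have := h y; rw [if_neg h1, if_pos h2, mem_range] at this; omega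
    · have := h y; rwa [if_neg h1, if_neg h2, mem_singleton] at this
  · rintro ⟨h1, h2, h3⟩ y
    split_ifs with a1 a2
    · rw [a1, h1]; exact mem_singleton_self _
    · exact mem_range.2 (Nat.lt_succ_of_le (h2 y a1 a2))
    · exact mem_singleton.2 (h3 y a1 a2)

lemma sum_lab_insert {R : Type} [CommRing R] (N : ℕ) (W : Finset β) (x : β) (hx : x ∉ W)
    (hr : x ≠ T.r) (F : (β → ℕ) → R) : ∑ f ∈ T.lab N (insert x W), F f =
      ∑ f ∈ T.lab N W, ∑ j ∈ range (N + 1), F (Function.update f x j) := by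
  rw [← Finset.sum_product']
  symm
  refine Finset.sum_nbij' (fun q => Function.update q.1 x q.2) (fun g => (Function.update g x 0, g x))
    ?_ ?_ ?_ ?_ (fun _ _ => rfl)
  · rintro ⟨f, j⟩ hq
    obtain ⟨h1, h2⟩ := mem_product.1 hq
    obtain ⟨a1, a2, a3⟩ := T.mem_lab.1 h1
    refine T.mem_lab.2 ⟨?_, fun y b1 b2 => ?_, fun y b1 b2 => ?_⟩
    · rw [Function.update_of_ne hr.symm]; exact a1
    · by_cases e : y = x
      · rw [e, Function.update_self]; exact Nat.le_of_lt_succ (mem_range.1 h2)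
      · rw [Function.update_of_ne e]; exact a2 y b1 ((mem_insert.1 b2).resolve_left e)
    · rw [mem_insert, not_or] at b2
      rw [Function.update_of_ne b2.1]; exact a3 y b1 b2.2
  · intro g hg
    obtain ⟨a1, a2, a3⟩ := T.mem_lab.1 hg
    refine mem_product.2 ⟨T.mem_lab.2 ⟨?_, fun y b1 b2 => ?_, fun y b1 b2 => ?_⟩, ?_⟩
    · show Function.update g x 0 T.r = N
      rw [Function.update_of_ne hr.symm]; exact a1
    · show Function.update g x 0 y ≤ N
      rw [Function.update_of_ne (fun e : y = x => hx (e ▸ b2))]; exact a2 y b1 (mem_insert_of_mem b2)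
    · show Function.update g x 0 y = 0
      by_cases e : y = x
      · rw [e, Function.update_self]
      · rw [Function.update_of_ne e]; exact a3 y b1 (fun h => b2 ((mem_insert.1 h).resolve_left e))
    · exact mem_range.2 (Nat.lt_succ_of_le (a2 x hr (mem_insert_self _ _)))
  · rintro ⟨f, j⟩ hq
    obtain ⟨h1, _⟩ := mem_product.1 hq
    have a3 := (T.mem_lab.1 h1).2.2 x hr hx
    simp only [Function.update_idem, Function.update_self, Prod.mk.injEq, and_true]
    rw [← a3, Function.update_eq_self]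
  · intro g _
    simp

theorem sum_prod {R : Type} [CommRing R] (N : ℕ) (L : β → ℕ → ℕ → R) (Φ : β → ℕ → R)
    (hΦ : ∀ x, x ≠ T.r → ∀ i, i ≤ N →
      Φ x i = ∑ j ∈ range (N + 1), L x i j * ∏ z ∈ T.ch x, Φ z j) :
    ∑ f ∈ T.lab N (univ.erase T.r), ∏ y ∈ univ.erase T.r, L y (f (T.p y)) (f y) =
      ∏ z ∈ T.ch T.r, Φ z N := by
  have key : ∀ W : Finset β, T.r ∉ W → (∀ y ∈ W, T.p y = T.r ∨ T.p y ∈ W) →
      ∑ f ∈ T.lab N W, (∏ y ∈ W, L y (f (T.p y)) (f y)) *
        ∏ y ∈ univ.filter (fun y => y ≠ T.r ∧ y ∉ W ∧ (T.p y = T.r ∨ T.p y ∈ W)), Φ y (f (T.p y)) =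
      ∏ z ∈ T.ch T.r, Φ z N := by
    intro W
    induction h : W.card using Nat.strong_induction_on generalizing W with
    | _ k ih =>
      intro hr hW
      rcases W.eq_empty_or_nonempty with rfl | hne
      · have e1 : T.lab N ∅ = {fun y => if y = T.r then N else 0} := by
          ext f
          rw [mem_lab, mem_singleton]
          constructor
          · rintro ⟨h1, _, h3⟩
            funext y
            split_ifs with e
            · rw [e, h1]
            · exact h3 y e (notMem_empty y)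
          · rintro rfl
            exact ⟨if_pos rfl, fun y _ h2 => absurd h2 (notMem_empty y), fun y h1 _ => if_neg h1⟩
        rw [e1, Finset.sum_singleton, Finset.prod_empty, one_mul]
        refine Finset.prod_congr ?_ fun z hz => ?_
        · ext z; simp [mem_ch]
        · beta_reduce
          rw [if_pos (T.mem_ch.1 hz).2]
      · obtain ⟨x, hx, hmax⟩ := W.exists_max_image T.dep hne
        have xr : x ≠ T.r := fun e => hr (e ▸ hx)
        have np : ∀ y ∈ W, T.p y ≠ x := by
          intro y hy e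
          have h1 := T.dp y (fun e => hr (e ▸ hy))
          have h2 := hmax y hy
          rw [e] at h1; omega
        have hW' : ∀ y ∈ W.erase x, T.p y = T.r ∨ T.p y ∈ W.erase x := fun y hy =>
          (hW y (mem_of_mem_erase hy)).imp id fun h1 =>
            mem_erase.2 ⟨np y (mem_of_mem_erase hy), h1⟩
        rw [← ih _ (h ▸ card_erase_lt_of_mem hx) (W.erase x) rfl
          (fun h1 => hr (mem_of_mem_erase h1)) hW']
        conv_lhs => rw [← Finset.insert_erase hx]
        rw [T.sum_lab_insert N _ x (notMem_erase x W) xr]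
        refine Finset.sum_congr rfl fun f hf => ?_
        obtain ⟨f1, f2, _⟩ := T.mem_lab.1 hf
        have px : T.p x ≠ x := np x hx
        have hpx : T.p x = T.r ∨ T.p x ∈ W.erase x :=
          (hW x hx).imp id fun h1 => mem_erase.2 ⟨px, h1⟩
        have fpx : f (T.p x) ≤ N := by
          by_cases e : T.p x = T.r
          · rw [e, f1]
          · exact f2 _ e (hpx.resolve_left e)
        set B := univ.filter (fun y => y ≠ T.r ∧ y ∉ W.erase x ∧ (T.p y = T.r ∨ T.p y ∈ W.erase x))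
          with hB
        have xB : x ∈ B := mem_filter.2 ⟨mem_univ _, xr, notMem_erase x W, hpx⟩
        have nB : ∀ y ∈ B, T.p y ≠ x := by
          intro y hy e
          rcases (mem_filter.1 hy).2.2.2 with h1 | h1
          · exact xr (e ▸ h1)
          · exact notMem_erase x W (e ▸ h1)
        have eB : univ.filter (fun y => y ≠ T.r ∧ y ∉ insert x (W.erase x) ∧
            (T.p y = T.r ∨ T.p y ∈ insert x (W.erase x))) = B.erase x ∪ T.ch x := by
          ext y
          simp only [hB, mem_filter, mem_univ, true_and, mem_union, mem_insert, mem_ch, not_or,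
            mem_erase (s := univ.filter _)]
          constructor
          · rintro ⟨h1, ⟨h2, h3⟩, h4 | h4 | h4⟩
            · exact Or.inl ⟨h2, h1, h3, Or.inl h4⟩
            · exact Or.inr ⟨h1, h4⟩
            · exact Or.inl ⟨h2, h1, h3, Or.inr h4⟩
          · rintro (⟨h1, h2, h3, h4⟩ | ⟨h1, h2⟩)
            · exact ⟨h2, ⟨h1, h3⟩, h4.imp id Or.inr⟩
            · exact ⟨h1, ⟨fun e => px (by rwa [e] at h2),
                fun h3 => np y (mem_of_mem_erase h3) h2⟩, Or.inr (Or.inl h2)⟩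
        have dB : Disjoint (B.erase x) (T.ch x) := Finset.disjoint_left.2 fun y h1 h2 =>
          nB y (mem_of_mem_erase h1) (T.mem_ch.1 h2).2
        rw [← Finset.mul_prod_erase B _ xB, hΦ x xr _ fpx, Finset.sum_mul, Finset.mul_sum]
        refine Finset.sum_congr rfl fun j _ => ?_
        rw [eB, Finset.prod_union dB, Finset.prod_insert (notMem_erase x W),
          Function.update_self, Function.update_of_ne px]
        have e1 : ∏ y ∈ W.erase x, L y (Function.update f x j (T.p y)) (Function.update f x j y) =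
            ∏ y ∈ W.erase x, L y (f (T.p y)) (f y) := Finset.prod_congr rfl fun y hy => by
          rw [Function.update_of_ne (np y (mem_of_mem_erase hy)),
            Function.update_of_ne (ne_of_mem_erase hy)]
        have e2 : ∏ y ∈ B.erase x, Φ y (Function.update f x j (T.p y)) =
            ∏ y ∈ B.erase x, Φ y (f (T.p y)) := Finset.prod_congr rfl fun y hy => by
          rw [Function.update_of_ne (nB y (mem_of_mem_erase hy))]
        have e3 : ∏ y ∈ T.ch x, Φ y (Function.update f x j (T.p y)) =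
            ∏ y ∈ T.ch x, Φ y j := Finset.prod_congr rfl fun y hy => by
          rw [(T.mem_ch.1 hy).2, Function.update_self]
        rw [e1, e2, e3]
        ring
  have h1 := key (univ.erase T.r) (notMem_erase _ _) (fun y _ => by
    by_cases e : T.p y = T.r
    · exact Or.inl e
    · exact Or.inr (mem_erase.2 ⟨e, mem_univ _⟩))
  rw [← h1]
  refine Finset.sum_congr rfl fun f _ => ?_
  rw [Finset.filter_eq_empty_iff.2 (fun y _ h => h.2.1 (mem_erase.2 ⟨h.1, mem_univ _⟩)),
    Finset.prod_empty, mul_one]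

end RT

end Pool.Agent.Work.MP_be9894_co.H2
end

-- merged part: Pool.Agent.Work.MP_be9894_co.H2Iso
section
set_option autoImplicit false
set_option linter.unusedSectionVars false

namespace Pool.Agent.Work.MP_be9894_co.H2

open Finset

/-- no chain with three elements -/
def Ht2 (α : Type) [PartialOrder α] : Prop := ∀ a b c : α, a < b → ¬ b < c

/-- not maximal -/
def Up {α : Type} [PartialOrder α] (x : α) : Prop := ∃ y, x < y

lemma exists_match {α β γ : Type} [DecidableEq α] [DecidableEq β] (b0 : β) (f : α → γ) (g : β → γ)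
    (s : Finset α) (t : Finset β) (h : s.val.map f = t.val.map g) :
    ∃ σ : α → β, (∀ a ∈ s, σ a ∈ t ∧ g (σ a) = f a) ∧ ∀ a ∈ s, ∀ a' ∈ s, σ a = σ a' → a = a' := by
  induction s using Finset.induction_on generalizing t with
  | empty => exact ⟨fun _ => b0, by simp, by simp⟩
  | insert a s ha ih =>
    rw [Finset.insert_val_of_notMem ha, Multiset.map_cons] at h
    have h1 : f a ∈ t.val.map g := h ▸ Multiset.mem_cons_self _ _
    obtain ⟨b, hb, hb2⟩ := Multiset.mem_map.1 h1
    have h2 : t.val = b ::ₘ (t.erase b).val := by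
      rw [Finset.erase_val, Multiset.cons_erase hb]
    rw [h2, Multiset.map_cons, hb2, Multiset.cons_inj_right] at h
    obtain ⟨σ, s1, s2⟩ := ih _ h
    have up : ∀ x ∈ s, Function.update σ a b x = σ x := fun x hx =>
      Function.update_of_ne (fun e : x = a => ha (e ▸ hx)) _ _
    refine ⟨Function.update σ a b, fun x hx => ?_, fun x hx y hy e => ?_⟩
    · rcases mem_insert.1 hx with rfl | hx
      · rw [Function.update_self]; exact ⟨hb, hb2⟩
      · rw [up x hx]; exact ⟨mem_of_mem_erase (s1 x hx).1, (s1 x hx).2⟩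
    · rcases mem_insert.1 hx with rfl | hx' <;> rcases mem_insert.1 hy with rfl | hy'
      · rfl
      · rw [Function.update_self, up y hy'] at e
        exact absurd e.symm (ne_of_mem_erase (s1 y hy').1)
      · rw [Function.update_self, up x hx'] at e
        exact absurd e (ne_of_mem_erase (s1 x hx').1)
      · rw [up x hx', up y hy'] at e
        exact s2 x hx' y hy' e

namespace RT

variable {β : Type} [PartialOrder β] (T : RT β)

lemma up_iff (H : Ht2 β) {z : β} (hz : z ≠ T.r) : Up z ↔ z ⋖ T.p z := by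
  refine ⟨fun ⟨y, hy⟩ => (T.adj z hz).resolve_right fun h => H _ _ _ h.lt hy, fun h => ⟨_, h.lt⟩⟩

lemma not_up_iff (H : Ht2 β) {z : β} (hz : z ≠ T.r) : ¬ Up z ↔ T.p z ⋖ z := by
  refine ⟨fun h => (T.adj z hz).resolve_left fun h1 => h ⟨_, h1.lt⟩, fun h ⟨y, hy⟩ => H _ _ _ h.lt hy⟩

lemma up_p (H : Ht2 β) {z : β} (hz : z ≠ T.r) : Up z ↔ ¬ Up (T.p z) := by
  constructor
  · rintro h ⟨y, hy⟩
    exact H _ _ _ ((T.up_iff H hz).1 h).lt hy
  · intro h
    by_contra h1
    exact h ⟨_, ((T.not_up_iff H hz).1 h1).lt⟩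

lemma cov_iff (H : Ht2 β) (a b : β) :
    a ⋖ b ↔ Up a ∧ ((a ≠ T.r ∧ T.p a = b) ∨ (b ≠ T.r ∧ T.p b = a)) := by
  refine ⟨fun h => ⟨⟨b, h.lt⟩, T.all a b h⟩, ?_⟩
  rintro ⟨h1, ⟨h2, h3⟩ | ⟨h2, h3⟩⟩
  · exact h3 ▸ (T.up_iff H h2).1 h1
  · rw [← h3] at h1 ⊢
    exact (T.not_up_iff H h2).1 fun h4 => (T.up_p H h2).1 h4 h1

variable [Fintype β] [DecidableEq β]

def code : (h : ℕ) → β → Code h
  | 0, _ => ()
  | h + 1, x => (T.ch x).val.map (code h)

lemma kids_code (h : ℕ) (x : β) : kids (T.code (h + 1) x) = (T.ch x).val.map (T.code h) := rfl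

end RT

theorem iso_of_code {α β : Type} [Fintype α] [PartialOrder α] [DecidableEq α] [Fintype β]
    [PartialOrder β] [DecidableEq β] (T : RT α) (T' : RT β) (Hα : Ht2 α) (Hβ : Ht2 β)
    (hc : Fintype.card α = Fintype.card β) (N : ℕ) (hN : ∀ x, T.dep x ≤ N)
    (hr : Up T.r ↔ Up T'.r) (e0 : T.code (N + 1) T.r = T'.code (N + 1) T'.r) :
    Nonempty (α ≃o β) := by
  have ex : ∀ (x : α) (x' : β) (h : ℕ), ∃ σ : α → β, T.code (h + 1) x = T'.code (h + 1) x' →
      (∀ a ∈ T.ch x, σ a ∈ T'.ch x' ∧ T'.code h (σ a) = T.code h a) ∧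
        ∀ a ∈ T.ch x, ∀ a' ∈ T.ch x, σ a = σ a' → a = a' := by
    intro x x' h
    by_cases e : T.code (h + 1) x = T'.code (h + 1) x'
    · obtain ⟨σ, hσ⟩ := exists_match x' (T.code h) (T'.code h) (T.ch x) (T'.ch x') e
      exact ⟨σ, fun _ => hσ⟩
    · exact ⟨fun _ => x', fun h1 => absurd h1 e⟩
  choose σ hσ using ex
  let E : ℕ → α → β := fun k => Nat.rec (fun _ => T'.r)
    (fun k Ek x => σ (T.p x) (Ek (T.p x)) (N - k) x) k
  let e : α → β := fun x => E (T.dep x) x
  have er : e T.r = T'.r := by simp only [e, T.dr]; rfl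
  have es : ∀ x, x ≠ T.r → e x = σ (T.p x) (e (T.p x)) (N - T.dep (T.p x)) x := by
    intro x hx
    simp only [e]
    rw [T.dp x hx]
  have inv : ∀ x h, h + T.dep x = N + 1 → T.code h x = T'.code h (e x) := by
    refine T.ind_down _ (fun h hh => ?_) fun x hx ih h hh => ?_
    · rw [T.dr, add_zero] at hh
      subst hh
      rw [er, e0]
    · have h1 := T.dp x hx
      obtain rfl : h = N - T.dep (T.p x) := by omega
      rw [es x hx]
      exact (((hσ _ _ _ (ih _ (by omega))).1 x (T.mem_ch.2 ⟨hx, rfl⟩)).2).symm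
  have inv' : ∀ x, x ≠ T.r → T.code (N - T.dep (T.p x) + 1) (T.p x) =
      T'.code (N - T.dep (T.p x) + 1) (e (T.p x)) := fun x hx =>
    inv _ _ (by have := hN (T.p x); omega)
  have ech : ∀ x, x ≠ T.r → e x ≠ T'.r ∧ T'.p (e x) = e (T.p x) := by
    intro x hx
    rw [← T'.mem_ch, es x hx]
    exact ((hσ _ _ _ (inv' x hx)).1 x (T.mem_ch.2 ⟨hx, rfl⟩)).1
  have inj : ∀ x y, e x = e y → x = y := by
    refine T.ind_down _ (fun y h => ?_) fun x hx ih y h => ?_
    · by_contra hy
      exact (ech y (Ne.symm hy)).1 (h ▸ er)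
    · have hy : y ≠ T.r := fun hy => (ech x hx).1 (by rw [h, hy, er])
      have h1 : T.p x = T.p y := ih _ (by rw [← (ech x hx).2, ← (ech y hy).2, h])
      refine (hσ _ _ _ (inv' x hx)).2 x (T.mem_ch.2 ⟨hx, rfl⟩) y (T.mem_ch.2 ⟨hy, h1.symm⟩) ?_
      rw [← es x hx, h, es y hy, h1]
  have col : ∀ x, Up x ↔ Up (e x) := by
    refine T.ind_down _ (er ▸ hr) fun x hx ih => ?_
    rw [T.up_p Hα hx, T'.up_p Hβ (ech x hx).1, (ech x hx).2, ih]
  have par : ∀ a b, (a ≠ T.r ∧ T.p a = b) ↔ (e a ≠ T'.r ∧ T'.p (e a) = e b) := by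
    intro a b
    constructor
    · rintro ⟨h1, rfl⟩
      exact ech a h1
    · rintro ⟨h1, h2⟩
      have h3 : a ≠ T.r := fun h => h1 (h ▸ er)
      exact ⟨h3, inj _ _ ((ech a h3).2 ▸ h2)⟩
  refine iso_of_cov (Equiv.ofBijective e ((Fintype.bijective_iff_injective_and_card e).2
    ⟨fun x y h => inj x y h, hc⟩)) fun a b => ?_
  rw [Equiv.ofBijective_apply, Equiv.ofBijective_apply, T.cov_iff Hα, T'.cov_iff Hβ, col a, par, par]

end Pool.Agent.Work.MP_be9894_co.H2
end

-- merged part: Pool.Agent.Work.MP_be9894_co.H2Struct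
section
set_option autoImplicit false
set_option linter.unusedSectionVars false

namespace Pool.Agent.Work.MP_be9894_co.H2

open Finset

def blk (N l : ℕ) : ℚ := if N ≤ l then 1 else 0

def exc (N l : ℕ) : ℤ := if N ≤ l then (l : ℤ) - N - 1 else 0

def win (N n s l : ℕ) : ℚ :=
  if l < N then (if l % 2 = s then 1 else -1) * ((2 * n + 1 : ℚ) ^ l / (2 * n + 1) ^ (N + 1)) else 0

variable {α : Type} [Fintype α] [PartialOrder α] [DecidableEq α]

def YY (N n s : ℕ) (y : α → ℕ) (a : α) : ℚ :=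
  exc N (y a) + win N n s (y a) +
    blk N (y a) * ((1 - ∑ b, win N n s (y b)) / ∑ b, blk N (y b))

def Valid (N n s : ℕ) (y : α → ℕ) : Prop :=
  (1 ≤ ∑ b, blk N (y b) ∧ ∑ b, (exc N (y b) : ℚ) = -1) ∧
    ∀ I : Finset α, Low I → 0 ≤ ∑ a ∈ I, YY N n s y a

lemma sum_blk (N : ℕ) (y : α → ℕ) (L : Finset α) :
    ∑ b ∈ L, blk N (y b) = ((L.filter fun b => N ≤ y b).card : ℚ) := by
  simp only [blk, Finset.sum_boole]

lemma win_abs (N n s l : ℕ) : |win N n s l| ≤ 1 / (2 * n + 1) ^ 2 := by
  have hB : (1 : ℚ) ≤ 2 * n + 1 := by have : (0 : ℚ) ≤ n := Nat.cast_nonneg _; linarith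
  have hB0 : (0 : ℚ) < 2 * n + 1 := by linarith
  unfold win
  split_ifs with h1 h2
  all_goals first
    | (rw [abs_zero]; positivity)
    | (rw [abs_mul, abs_of_pos (show (0 : ℚ) < (2 * n + 1 : ℚ) ^ l / (2 * n + 1) ^ (N + 1) by positivity)]
       simp only [abs_neg, abs_one, one_mul]
       rw [div_le_div_iff₀ (by positivity) (by positivity), one_mul, ← pow_add]
       exact pow_le_pow_right₀ hB (by omega))

lemma sum_win_abs (N n s : ℕ) (hn : Fintype.card α ≤ n) (y : α → ℕ) (L : Finset α) :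
    |∑ b ∈ L, win N n s (y b)| ≤ n / (2 * n + 1) ^ 2 := by
  refine (Finset.abs_sum_le_sum_abs _ _).trans ?_
  refine (Finset.sum_le_card_nsmul _ _ _ fun b _ => win_abs N n s (y b)).trans ?_
  rw [nsmul_eq_mul, mul_one_div]
  have : (L.card : ℚ) ≤ n := by exact_mod_cast (card_le_univ L).trans hn
  gcongr

lemma sum_YY (N n s : ℕ) (y : α → ℕ) (L : Finset α) : ∑ a ∈ L, YY N n s y a =
    ((∑ a ∈ L, exc N (y a) : ℤ) : ℚ) + (∑ a ∈ L, win N n s (y a) +
      (∑ a ∈ L, blk N (y a)) * ((1 - ∑ b, win N n s (y b)) / ∑ b, blk N (y b))) := by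
  simp only [YY, Finset.sum_add_distrib, ← Finset.sum_mul, Int.cast_sum, add_assoc]

lemma sum_YY_univ {N n s : ℕ} {y : α → ℕ} (h1 : 1 ≤ ∑ b, blk N (y b))
    (h2 : ∑ b, (exc N (y b) : ℚ) = -1) : ∑ a, YY N n s y a = 0 := by
  rw [sum_YY, Int.cast_sum, h2, mul_div_cancel₀ _ (by linarith)]
  ring

lemma limb_block (N n s : ℕ) (hn : Fintype.card α ≤ n) (y : α → ℕ) (L : Finset α) (r a : α)
    (hr : r ∉ L) (hr2 : N ≤ y r) (ha : a ∈ L) (ha2 : N ≤ y a) :
    (0 ≤ ∑ a ∈ L, YY N n s y a ↔ 0 ≤ ∑ a ∈ L, exc N (y a)) ∧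
      (∑ a ∈ L, YY N n s y a ≤ 0 ↔ ∑ a ∈ L, exc N (y a) ≤ -1) := by
  rw [sum_YY, sum_blk, sum_blk]
  have a1 : 1 ≤ (L.filter fun b => N ≤ y b).card := card_pos.2 ⟨a, mem_filter.2 ⟨ha, ha2⟩⟩
  have a2 : (L.filter fun b => N ≤ y b).card + 1 ≤ (univ.filter fun b => N ≤ y b).card := by
    refine card_lt_card (Finset.ssubset_iff_subset_ne.2 ⟨filter_subset_filter _ (subset_univ _), ?_⟩)
    intro e
    exact hr (mem_filter.1 (e ▸ mem_filter.2 ⟨mem_univ r, hr2⟩ :
      r ∈ L.filter fun b => N ≤ y b)).1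
  have a3 : (univ.filter fun b => N ≤ y b).card ≤ n := (card_le_univ _).trans hn
  have w1 := abs_le.1 (sum_win_abs N n s hn y L)
  have w2 := abs_le.1 (sum_win_abs N n s hn y univ)
  set j : ℚ := ((L.filter fun b => N ≤ y b).card : ℚ) with hj
  set m : ℚ := ((univ.filter fun b => N ≤ y b).card : ℚ) with hm
  have b1 : 1 ≤ j := by rw [hj]; exact_mod_cast a1
  have b2 : j + 1 ≤ m := by rw [hj, hm]; exact_mod_cast a2
  have b3 : m ≤ n := by rw [hm]; exact_mod_cast a3
  set WL := ∑ a ∈ L, win N n s (y a)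
  set W := ∑ a, win N n s (y a)
  set η : ℚ := n / (2 * n + 1) ^ 2 with hη
  have hη0 : 0 ≤ η := by positivity
  have hη1 : 2 * n * η < 1 := by
    rw [hη, ← mul_div_assoc, div_lt_one (by positivity)]
    linarith only [b1, b2, b3, sq_nonneg ((2 : ℚ) * ↑n + (1 : ℚ))]
  have m0 : 0 < m := by linarith only [b1, b2]
  have c1 : m * WL ≤ n * η := by linarith only [w1, b3, mul_nonneg_of_nonpos_of_nonpos (Mathlib.Tactic.Linarith.sub_nonpos_of_le (Mathlib.Tactic.Linarith.natCast_nonneg ℚ n)) (Mathlib.Tactic.Linarith.sub_nonpos_of_le w1.right), mul_nonneg_of_nonpos_of_nonpos (Mathlib.Tactic.Linarith.sub_nonpos_of_le (Mathlib.Tactic.Linarith.natCast_nonneg ℚ #{b | N ≤ y b})) (Mathlib.Tactic.Linarith.sub_nonpos_of_le w1.right), mul_nonneg_of_nonpos_of_nonpos (Mathlib.Tactic.Linarith.sub_nonpos_of_le b3) (Mathlib.Tactic.Linarith.sub_nonpos_of_le w1.left)]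
  have c2 : -(n * η) ≤ m * WL := by linarith only [w1, b3, mul_nonneg_of_nonpos_of_nonpos (Mathlib.Tactic.Linarith.sub_nonpos_of_le (Mathlib.Tactic.Linarith.natCast_nonneg ℚ n)) (Mathlib.Tactic.Linarith.sub_nonpos_of_le w1.left), mul_nonneg_of_nonpos_of_nonpos (Mathlib.Tactic.Linarith.sub_nonpos_of_le (Mathlib.Tactic.Linarith.natCast_nonneg ℚ #{b | N ≤ y b})) (Mathlib.Tactic.Linarith.sub_nonpos_of_le w1.left), mul_nonneg_of_nonpos_of_nonpos (Mathlib.Tactic.Linarith.sub_nonpos_of_le b3) (Mathlib.Tactic.Linarith.sub_nonpos_of_le w1.right)]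
  have c3 : j * W ≤ n * η := by linarith only [w1, w2, b2, b3, mul_nonneg_of_nonpos_of_nonpos (Mathlib.Tactic.Linarith.sub_nonpos_of_le (Mathlib.Tactic.Linarith.natCast_nonneg ℚ #({b ∈ L | N ≤ y b}))) (Mathlib.Tactic.Linarith.sub_nonpos_of_le w2.right), mul_nonneg_of_nonpos_of_nonpos (Mathlib.Tactic.Linarith.sub_nonpos_of_le b2) (Mathlib.Tactic.Linarith.sub_nonpos_of_le w1.left), mul_nonneg_of_nonpos_of_nonpos (Mathlib.Tactic.Linarith.sub_nonpos_of_le b2) (Mathlib.Tactic.Linarith.sub_nonpos_of_le w1.right), mul_nonneg_of_nonpos_of_nonpos (Mathlib.Tactic.Linarith.sub_nonpos_of_le b3) (Mathlib.Tactic.Linarith.sub_nonpos_of_le w1.left), mul_nonneg_of_nonpos_of_nonpos (Mathlib.Tactic.Linarith.sub_nonpos_of_le b3) (Mathlib.Tactic.Linarith.sub_nonpos_of_le w1.right)]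
  have c4 : -(n * η) ≤ j * W := by linarith only [w1, w2, b2, b3, mul_nonneg_of_nonpos_of_nonpos (Mathlib.Tactic.Linarith.sub_nonpos_of_le (Mathlib.Tactic.Linarith.natCast_nonneg ℚ #({b ∈ L | N ≤ y b}))) (Mathlib.Tactic.Linarith.sub_nonpos_of_le w2.left), mul_nonneg_of_nonpos_of_nonpos (Mathlib.Tactic.Linarith.sub_nonpos_of_le b2) (Mathlib.Tactic.Linarith.sub_nonpos_of_le w1.left), mul_nonneg_of_nonpos_of_nonpos (Mathlib.Tactic.Linarith.sub_nonpos_of_le b2) (Mathlib.Tactic.Linarith.sub_nonpos_of_le w1.right), mul_nonneg_of_nonpos_of_nonpos (Mathlib.Tactic.Linarith.sub_nonpos_of_le b3) (Mathlib.Tactic.Linarith.sub_nonpos_of_le w1.left), mul_nonneg_of_nonpos_of_nonpos (Mathlib.Tactic.Linarith.sub_nonpos_of_le b3) (Mathlib.Tactic.Linarith.sub_nonpos_of_le w1.right)]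
  have e : WL + j * ((1 - W) / m) = (m * WL + j - j * W) / m := by field_simp; ring
  have d1 : 0 < WL + j * ((1 - W) / m) := by
    rw [e]; exact div_pos (by linarith only [b1, hη1, c2, c3]) m0
  have d2 : WL + j * ((1 - W) / m) < 1 := by
    rw [e, div_lt_one m0]; linarith only [b2, hη1, c1, c4]
  generalize ∑ a ∈ L, exc N (y a) = E
  constructor
  · constructor
    · intro h
      have : (-1 : ℚ) < E := by linarith only [d2, h]
      have : (-1 : ℤ) < E := by exact_mod_cast this
      omega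
    · intro h
      have : (0 : ℚ) ≤ E := by exact_mod_cast h
      linarith only [d1, this]
  · constructor
    · intro h
      have : (E : ℚ) < 0 := by linarith only [d1, h]
      have : E < 0 := by exact_mod_cast this
      omega
    · intro h
      have : (E : ℚ) ≤ -1 := by exact_mod_cast h
      linarith only [d2, this]

lemma limb_win (N n s : ℕ) (hn : Fintype.card α ≤ n) (y : α → ℕ) (L : Finset α) (a : α)
    (ha : a ∈ L) (ha2 : y a < N) (hm : ∀ b ∈ L, y b ≤ y a) :
    (y a % 2 = s → 0 < ∑ a ∈ L, YY N n s y a) ∧ (y a % 2 ≠ s → ∑ a ∈ L, YY N n s y a < 0) := by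
  have e1 : ∑ a ∈ L, YY N n s y a = ∑ a ∈ L, win N n s (y a) := by
    refine Finset.sum_congr rfl fun b hb => ?_
    have := hm b hb
    unfold YY exc blk
    rw [if_neg (by omega), if_neg (by omega)]
    simp
  rw [e1]
  have hn0 : (0 : ℚ) ≤ n := Nat.cast_nonneg _
  set B : ℚ := 2 * n + 1 with hB
  have hB1 : 1 ≤ B := by linarith
  set δ : ℚ := B ^ y a / B ^ (N + 1) with hδ
  have hδ0 : 0 < δ := by positivity
  set ε : ℚ := if y a % 2 = s then 1 else -1 with hε
  have k1 : ∀ b ∈ L.erase a, -(δ / B) ≤ ε * win N n s (y b) := by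
    intro b hb
    have h1 := hm b (mem_of_mem_erase hb)
    unfold win
    rw [if_pos (by omega), ← hB]
    have p0 : 0 < B ^ y b / B ^ (N + 1) := by positivity
    have p1 : 0 < δ / B := by positivity
    rcases h1.eq_or_lt with h2 | h2
    · rw [h2, ← hε, ← hδ, hε]
      split_ifs <;> linarith only [hδ0, p1]
    · have p2 : B ^ y b / B ^ (N + 1) ≤ δ / B := by
        rw [hδ, div_right_comm]
        refine div_le_div_of_nonneg_right ?_ (by positivity)
        rw [le_div_iff₀ (by positivity), ← pow_succ]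
        exact pow_le_pow_right₀ hB1 h2
      rw [hε]
      split_ifs <;> linarith only [p0, p1, p2]
  have k2 : ε * win N n s (y a) = δ := by
    unfold win
    rw [if_pos ha2, ← hB, ← hε, ← hδ, hε]
    split_ifs <;> ring
  have k3 : 0 < ε * ∑ b ∈ L, win N n s (y b) := by
    rw [Finset.mul_sum, ← Finset.add_sum_erase _ _ ha, k2]
    have h1 := Finset.card_nsmul_le_sum _ _ _ k1
    rw [nsmul_eq_mul] at h1
    have h2 : ((L.erase a).card : ℚ) ≤ n := by exact_mod_cast (card_le_univ _).trans hn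
    have h3 : n * (δ / B) < δ := by
      rw [← mul_div_assoc, div_lt_iff₀ (by linarith)]
      linarith only [hδ0, mul_nonneg_of_nonpos_of_nonpos (Mathlib.Tactic.Linarith.sub_nonpos_of_le (Mathlib.Tactic.Linarith.natCast_nonneg ℚ n)) (le_of_lt (Mathlib.Tactic.Linarith.sub_neg_of_lt hδ0))]
    have h4 : 0 ≤ δ / B := by positivity
    linarith only [h1, h3, h2, h4, mul_nonneg_of_nonpos_of_nonpos (Mathlib.Tactic.Linarith.sub_nonpos_of_le h2) (Mathlib.Tactic.Linarith.sub_nonpos_of_le h4)]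
  constructor
  · intro h
    rwa [hε, if_pos h, one_mul] at k3
  · intro h
    rw [hε, if_neg h] at k3
    linarith only [k3]

open Classical in
/-- number of neighbours in the block, counted at non-maximal vertices -/
noncomputable def tok (T : RT α) (N : ℕ) (y : α → ℕ) (x : α) : ℕ :=
  if Up x then ((T.ch x).filter fun z => N ≤ y z).card + (if x = T.r then 0 else 1) else 0

def Loc (T : RT α) (N s : ℕ) (y : α → ℕ) (x : α) : Prop :=
  (N ≤ y x → N ≤ y (T.p x)) ∧ (y x < N → (Up x ↔ y x % 2 = s) ∧ y x < y (T.p x))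

def Good (T : RT α) (N s : ℕ) (y : α → ℕ) : Prop :=
  (∀ x, x ≠ T.r → Loc T N s y x) ∧ ∀ x, N ≤ y x → y x = N + tok T N y x

lemma exc_ge (N l : ℕ) : -1 ≤ exc N l := by
  unfold exc; split_ifs <;> omega

lemma desc_le {T : RT α} {N s : ℕ} {y : α → ℕ} (h : ∀ x, x ≠ T.r → Loc T N s y x) :
    ∀ x, y x < N → ∀ u ∈ T.desc x, y u + T.dep u ≤ y x + T.dep x := by
  refine T.ind_up _ fun x ih hx u hu => ?_
  by_cases e : x = u
  · rw [e]
  · obtain ⟨z, hz, hzu⟩ := T.exists_ch (T.mem_desc.1 hu) e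
    obtain ⟨z1, z2⟩ := T.mem_ch.1 hz
    have h1 := h z z1
    unfold Loc at h1
    rw [z2] at h1
    have h2 : y z < N := by
      by_contra h3
      have := h1.1 (not_lt.1 h3)
      omega
    have h3 := ih z hz h2 u (T.mem_desc.2 hzu)
    have h4 := (h1.2 h2).2
    have h5 := T.dep_ch hz
    omega

lemma sum_kids (T : RT α) (N : ℕ) (y : α → ℕ) (x : α) (E : α → ℤ)
    (h : ∀ z ∈ T.ch x, E z = if N ≤ y z then -1 else 0) :
    ∑ z ∈ T.ch x, E z = -(((T.ch x).filter fun z => N ≤ y z).card : ℤ) := by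
  rw [Finset.sum_congr rfl h, ← Finset.sum_filter]
  simp

theorem valid_of_good (T : RT α) (H : Ht2 α) (N n s : ℕ) (hn : Fintype.card α ≤ n) (y : α → ℕ)
    (hr : N ≤ y T.r) (hG : Good T N s y) : Valid N n s y := by
  classical
  obtain ⟨g1, g2⟩ := hG
  have d1 : ∀ x, y x < N → ∀ u ∈ T.desc x, y u ≤ y x := fun x hx u hu => by
    have h1 := desc_le g1 x hx u hu
    have h2 := T.anc_dep (T.mem_desc.1 hu)
    omega
  have hE : ∀ x, ∑ u ∈ T.desc x, exc N (y u) =
      if N ≤ y x then (if Up x ∧ x ≠ T.r then 0 else -1) else 0 := by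
    refine T.ind_up _ fun x ih => ?_
    by_cases hx : N ≤ y x
    · rw [if_pos hx, T.sum_desc]
      have h1 := g2 x hx
      unfold tok at h1
      by_cases hu : Up x
      · rw [sum_kids T N y x _ (fun z hz => by
          obtain ⟨z1, z2⟩ := T.mem_ch.1 hz
          rw [ih z hz, if_neg (c := Up z ∧ z ≠ T.r) (fun h => (T.up_p H z1).1 h.1 (z2 ▸ hu))])]
        rw [if_pos hu] at h1
        unfold exc
        rw [if_pos hx]
        by_cases e : x = T.r
        · rw [if_pos e] at h1
          rw [if_neg (fun h => h.2 e)]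
          omega
        · rw [if_neg e] at h1
          rw [if_pos ⟨hu, e⟩]
          omega
      · rw [if_neg hu] at h1
        rw [Finset.sum_eq_zero (fun z hz => by
          obtain ⟨z1, z2⟩ := T.mem_ch.1 hz
          rw [ih z hz, if_pos (c := Up z ∧ z ≠ T.r) ⟨(T.up_p H z1).2 (z2 ▸ hu), z1⟩, ite_self]),
          if_neg (fun h => hu h.1)]
        unfold exc
        rw [if_pos hx]
        omega
    · rw [if_neg hx]
      refine Finset.sum_eq_zero fun u hu => ?_
      have := d1 x (not_le.1 hx) u hu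
      unfold exc
      rw [if_neg (by omega)]
  have a1 : 1 ≤ ∑ b, blk N (y b) := by
    rw [sum_blk]
    exact_mod_cast card_pos.2 ⟨T.r, mem_filter.2 ⟨mem_univ _, hr⟩⟩
  have a2 : ∑ b, (exc N (y b) : ℚ) = -1 := by
    have := hE T.r
    rw [T.desc_root, if_pos hr, if_neg (fun h => h.2 rfl)] at this
    exact_mod_cast this
  refine ⟨⟨a1, a2⟩, (T.valid_iff _ (sum_YY_univ a1 a2)).2 fun z hz => ?_⟩
  rw [← T.up_iff H hz, ← T.not_up_iff H hz]
  have hz' := T.mem_desc.2 (T.anc_refl z)
  by_cases hy : N ≤ y z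
  · have h1 := limb_block N n s hn y (T.desc z) T.r z
      (fun h => T.not_anc_root hz (T.mem_desc.1 h)) hr hz' hy
    rw [hE, if_pos hy] at h1
    exact ⟨fun h => h1.1.2 (by rw [if_pos ⟨h, hz⟩]), fun h => h1.2.2 (by rw [if_neg (fun h2 => h h2.1)])⟩
  · have h1 := limb_win N n s hn y (T.desc z) z hz' (not_le.1 hy) (d1 z (not_le.1 hy))
    have h2 := ((g1 z hz).2 (not_le.1 hy)).1
    exact ⟨fun h => (h1.1 (h2.1 h)).le, fun h => (h1.2 fun h3 => h (h2.2 h3)).le⟩

theorem good_of_valid (T : RT α) (H : Ht2 α) (N n s : ℕ) (hn : Fintype.card α ≤ n) (y : α → ℕ)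
    (hr : N ≤ y T.r) (hV : Valid N n s y) : Good T N s y := by
  classical
  obtain ⟨⟨a1, a2⟩, hV⟩ := hV
  have lim : ∀ z, z ≠ T.r → (Up z → 0 ≤ ∑ a ∈ T.desc z, YY N n s y a) ∧
      (¬ Up z → ∑ a ∈ T.desc z, YY N n s y a ≤ 0) := fun z hz => by
    rw [T.not_up_iff H hz, T.up_iff H hz]
    exact (T.valid_iff _ (sum_YY_univ a1 a2)).1 hV z hz
  set E : α → ℤ := fun x => ∑ u ∈ T.desc x, exc N (y u) with hE
  set has : α → Prop := fun x => ∃ u ∈ T.desc x, N ≤ y u with hhas
  have F3 : E T.r = -1 := by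
    simp only [hE]
    rw [T.desc_root]
    exact_mod_cast a2
  have F1 : ∀ z, z ≠ T.r → has z → (Up z → 0 ≤ E z) ∧ (¬ Up z → E z ≤ -1) := by
    rintro z hz ⟨u, hu, hu2⟩
    have h1 := limb_block N n s hn y (T.desc z) T.r u
      (fun h => T.not_anc_root hz (T.mem_desc.1 h)) hr hu hu2
    exact ⟨fun h => h1.1.1 ((lim z hz).1 h), fun h => h1.2.1 ((lim z hz).2 h)⟩
  have F2 : ∀ z, ¬ has z → E z = 0 := fun z hz => Finset.sum_eq_zero fun u hu => by
    unfold exc
    rw [if_neg fun h => hz ⟨u, hu, h⟩]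
  have hrec : ∀ x, E x = exc N (y x) + ∑ z ∈ T.ch x, E z := fun x => T.sum_desc _ x
  have F4 : ∀ x, has x → ¬ Up x → y x = N ∧ E x = -1 ∧ ∀ z ∈ T.ch x, E z = 0 := by
    intro x h1 h2
    have h3 : E x ≤ -1 := by
      by_cases e : x = T.r
      · rw [e, F3]
      · exact (F1 x e h1).2 h2
    have h4 : ∀ z ∈ T.ch x, 0 ≤ E z := fun z hz => by
      obtain ⟨z1, z2⟩ := T.mem_ch.1 hz
      by_cases h5 : has z
      · exact (F1 z z1 h5).1 ((T.up_p H z1).2 (z2 ▸ h2))
      · exact (F2 z h5).ge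
    have h5 := Finset.sum_nonneg h4
    have h6 := hrec x
    have h7 := exc_ge N (y x)
    have h8 : exc N (y x) = -1 := by omega
    refine ⟨?_, by omega, (Finset.sum_eq_zero_iff_of_nonneg h4).1 (by omega)⟩
    unfold exc at h8
    split_ifs at h8 <;> omega
  have hasp : ∀ x, has x → has (T.p x) := fun x ⟨u, hu, h⟩ =>
    ⟨u, T.mem_desc.2 (T.anc_trans (T.anc_p x) (T.mem_desc.1 hu)), h⟩
  have F5 : ∀ x, has x → Up x → E x = (if x = T.r then -1 else 0) ∧
      ∀ z ∈ T.ch x, E z = if has z then -1 else 0 := by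
    intro x h1 h2
    constructor
    · split_ifs with e
      · rw [e, F3]
      · exact (F4 _ (hasp x h1) ((T.up_p H e).1 h2)).2.2 x (T.mem_ch.2 ⟨e, rfl⟩)
    · intro z hz
      obtain ⟨z1, z2⟩ := T.mem_ch.1 hz
      split_ifs with h3
      · exact (F4 z h3 fun h4 => (T.up_p H z1).1 h4 (z2 ▸ h2)).2.1
      · exact F2 z h3
  have F6 : ∀ x, has x ↔ N ≤ y x := by
    refine fun x => ⟨fun h1 => ?_, fun h => ⟨x, T.mem_desc.2 (T.anc_refl x), h⟩⟩
    by_cases h2 : Up x
    swap
    · exact (F4 x h1 h2).1.ge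
    by_contra h3
    obtain ⟨h4, h5⟩ := F5 x h1 h2
    have h6 := hrec x
    rw [h4, if_neg (fun e : x = T.r => h3 (e ▸ hr)), exc, if_neg h3, zero_add] at h6
    obtain ⟨u, hu, hu2⟩ := h1
    obtain ⟨z, hz, hzu⟩ := T.exists_ch (T.mem_desc.1 hu) (fun e => h3 (e ▸ hu2))
    have h7 := (Finset.sum_eq_zero_iff_of_nonpos (fun z hz => by
      rw [h5 z hz]; split_ifs <;> omega)).1 h6.symm z hz
    rw [h5 z hz, if_pos ⟨u, T.mem_desc.2 hzu, hu2⟩] at h7
    omega
  have colm : ∀ z a, y z < N → a ∈ T.desc z → (∀ b ∈ T.desc z, y b ≤ y a) →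
      (Up z ↔ y a % 2 = s) := by
    intro z a hz ha hm
    have z1 : z ≠ T.r := fun e => by rw [e] at hz; omega
    have h1 : y a < N := by
      by_contra h2
      have := (F6 z).1 ⟨a, ha, not_lt.1 h2⟩
      omega
    have h2 := limb_win N n s hn y (T.desc z) a ha h1 hm
    constructor
    · intro h3
      by_contra h4
      exact absurd ((lim z z1).1 h3) (not_le.2 (h2.2 h4))
    · intro h3
      by_contra h4
      exact absurd ((lim z z1).2 h4) (not_le.2 (h2.1 h3))
  have F7 : ∀ x, y x < N → ∀ u ∈ T.desc x, y u ≤ y x := by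
    refine T.ind_up _ fun x ih hx => ?_
    obtain ⟨a, ha, hm⟩ := (T.desc x).exists_max_image y ⟨x, T.mem_desc.2 (T.anc_refl x)⟩
    by_cases e : x = a
    · rw [← e] at hm; exact hm
    · exfalso
      obtain ⟨z, hz, hza⟩ := T.exists_ch (T.mem_desc.1 ha) e
      obtain ⟨z1, z2⟩ := T.mem_ch.1 hz
      have hzx : z ∈ T.desc x := T.mem_desc.2 (z2 ▸ T.anc_p z)
      have h1 : y z < N := by
        by_contra h2
        have := (F6 x).1 ⟨z, hzx, not_lt.1 h2⟩
        omega
      have h2 := colm x a hx ha hm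
      have h3 := colm z z h1 (T.mem_desc.2 (T.anc_refl z)) (ih z hz h1)
      have h4 : y z = y a := le_antisymm (hm z hzx) (ih z hz h1 a (T.mem_desc.2 hza))
      have h5 := T.up_p H z1
      rw [z2, h2, h3, h4] at h5
      exact iff_not_self h5
  have col : ∀ x, y x < N → (Up x ↔ y x % 2 = s) := fun x hx =>
    colm x x hx (T.mem_desc.2 (T.anc_refl x)) (F7 x hx)
  refine ⟨fun x hx => ⟨fun h => (F6 _).1 (hasp x ((F6 x).2 h)), fun h => ⟨col x h, ?_⟩⟩,
    fun x hx => ?_⟩
  · by_cases h1 : y (T.p x) < N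
    · refine lt_of_le_of_ne (F7 _ h1 x (T.mem_desc.2 (T.anc_p x))) fun e => ?_
      have h5 := T.up_p H hx
      rw [col x h, col _ h1, e] at h5
      exact iff_not_self h5
    · omega
  · unfold tok
    split_ifs with h1 h2
    all_goals first
      | exact (F4 x ((F6 x).2 hx) h1).1
      | (obtain ⟨h4, h5⟩ := F5 x ((F6 x).2 hx) h1
         have h6 := hrec x
         rw [sum_kids T N y x E (fun z hz => by rw [h5 z hz]; simp only [F6]), h4, exc,
           if_pos hx] at h6
         split_ifs at h6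
         omega)

end Pool.Agent.Work.MP_be9894_co.H2
end

-- merged part: Pool.Agent.Work.MP_be9894_co.H2Form
section
set_option autoImplicit false
set_option linter.unusedSectionVars false

namespace Pool.Agent.Work.MP_be9894_co.H2

open Finset

def ww {R : Type} (N : ℕ) (t : ℕ → R) (u v v1 : R) (m : ℚ) (l : ℕ) : R :=
  if l < N then t l else if l = N then (if m = 1 then v1 else v) else u

def tot {K : ℕ} (c : Fin K → ℕ) (φ : ℕ → ℚ) : ℚ := ∑ l, (c l : ℚ) * φ l

lemma tot_ct {α : Type} [Fintype α] {K : ℕ} (y : α → Fin K) (φ : ℕ → ℚ) :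
    tot (ct y) φ = ∑ a, φ (y a) := by
  unfold tot ct
  rw [← Finset.sum_fiberwise (s := univ) (g := y) (f := fun a => φ (y a))]
  refine Finset.sum_congr rfl fun l _ => ?_
  rw [Finset.sum_congr rfl (g := fun _ => φ l) (fun a ha => by rw [(mem_filter.1 ha).2]),
    Finset.sum_const, nsmul_eq_mul]

noncomputable def Th {R : Type} [CommRing R] (α : Type) [Fintype α] [PartialOrder α] (N n s : ℕ)
    (t : ℕ → R) (u v v1 : R) : R :=
  Theta (Λ := Fin (N + n + 1)) α (fun c l => ww N t u v v1 (tot c (blk N)) l)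
    (fun c => 1 ≤ tot c (blk N) ∧ tot c (fun l => exc N l) = -1)
    (fun c l => exc N l + win N n s l + blk N l * ((1 - tot c (win N n s)) / tot c (blk N)))

variable {α : Type} [Fintype α] [PartialOrder α] [DecidableEq α] {R : Type} [CommRing R]

open Classical in
lemma Th_def (N n s : ℕ) (t : ℕ → R) (u v v1 : R) : Th α N n s t u v v1 =
    ∑ y : α → Fin (N + n + 1), if Valid N n s (fun a => (y a : ℕ)) then
      ∏ a, ww N t u v v1 (∑ b, blk N (y b)) (y a) else 0 := by
  unfold Th Theta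
  refine Finset.sum_congr (by congr; exact Subsingleton.elim _ _) fun y _ => ?_
  simp only [tot_ct]
  exact if_congr Iff.rfl rfl rfl

lemma tok_le (T : RT α) (N : ℕ) (y : α → ℕ) (x : α) : tok T N y x ≤ Fintype.card α := by
  have h1 : ((T.ch x).filter fun z => N ≤ y z).card < Fintype.card α := by
    refine card_lt_card (Finset.ssubset_iff_subset_ne.2 ⟨subset_univ _, fun e => ?_⟩)
    have := T.dep_ch (mem_filter.1 (e ▸ mem_univ x : x ∈ (T.ch x).filter fun z => N ≤ y z)).1
    omega
  unfold tok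
  split_ifs <;> omega

lemma tok_congr (T : RT α) (N : ℕ) {y y' : α → ℕ} (h : ∀ z, N ≤ y z ↔ N ≤ y' z) (x : α) :
    tok T N y x = tok T N y' x := by
  unfold tok
  simp only [h]

lemma blk_ne_one {N : ℕ} {y : α → ℕ} {a b : α} (hab : a ≠ b) (ha : N ≤ y a) (hb : N ≤ y b) :
    ∑ x, blk N (y x) ≠ 1 := by
  rw [sum_blk]
  have : 1 < (univ.filter fun x => N ≤ y x).card :=
    one_lt_card.2 ⟨a, mem_filter.2 ⟨mem_univ _, ha⟩, b, mem_filter.2 ⟨mem_univ _, hb⟩, hab⟩
  exact_mod_cast this.ne'

lemma up_par (T : RT α) (H : Ht2 α) {N s : ℕ} (hs : s < 2) (hN : ∀ x, T.dep x ≤ N)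
    (hc : Up T.r ↔ N % 2 = s) (x : α) : Up x ↔ (N - T.dep x) % 2 = s := by
  refine T.ind_down (fun x => Up x ↔ (N - T.dep x) % 2 = s) (by rw [T.dr]; exact hc)
    (fun x hx ih => ?_) x
  rw [T.up_p H hx, ih]
  have h1 := T.dp x hx
  have h2 := hN x
  omega

def LL (T : RT α) (N : ℕ) (t U : ℕ → R) (x : α) (i j : ℕ) : R :=
  if j = N then (if i = N then U ((N - T.dep x) % 2) else 0)
  else if j < i ∧ j % 2 = (N - T.dep x) % 2 then t j else 0

def Ph (T : RT α) (N : ℕ) (t U : ℕ → R) (h : ℕ) (x : α) (i : ℕ) : R :=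
  if i = N then GG t U N h (T.code h x) else gg t h (T.code h x) i

lemma sum_LL (T : RT α) (N : ℕ) (hN : ∀ x, T.dep x ≤ N) (t U : ℕ → R) :
    ∑ f ∈ T.lab N (univ.erase T.r), ∏ y ∈ univ.erase T.r, LL T N t U y (f (T.p y)) (f y) =
      (((T.ch T.r).val.map (T.code N)).map (GG t U N N)).prod := by
  rw [T.sum_prod N (LL T N t U) (fun x i => Ph T N t U (N + 1 - T.dep x) x i)]
  · rw [Multiset.map_map, Finset.prod_eq_multiset_prod]
    congr 1
    refine Multiset.map_congr rfl fun z hz => ?_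
    rw [T.dep_ch hz, T.dr, show N + 1 - (0 + 1) = N by omega, Ph, if_pos rfl]
    rfl
  · intro x _ i hi
    have hx := hN x
    have e1 : ∀ j, ∏ z ∈ T.ch x, Ph T N t U (N + 1 - T.dep z) z j =
        ∏ z ∈ T.ch x, Ph T N t U (N - T.dep x) z j := fun j =>
      Finset.prod_congr rfl fun z hz => by
        rw [T.dep_ch hz, show N + 1 - (T.dep x + 1) = N - T.dep x by omega]
    simp only [e1]
    rw [show N + 1 - T.dep x = N - T.dep x + 1 by omega, Finset.sum_range_succ]
    unfold LL
    generalize N - T.dep x = h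
    have e2 : ∀ j, j ≠ N → ∏ z ∈ T.ch x, Ph T N t U h z j =
        ((kids (T.code (h + 1) x)).map fun z => gg t h z j).prod := fun j hj => by
      rw [RT.kids_code, Multiset.map_map, Finset.prod_eq_multiset_prod]
      simp only [Ph, if_neg hj]
      rfl
    have e3 : ∏ z ∈ T.ch x, Ph T N t U h z N =
        ((kids (T.code (h + 1) x)).map (GG t U N h)).prod := by
      rw [RT.kids_code, Multiset.map_map, Finset.prod_eq_multiset_prod]
      simp only [Ph, if_true]
      rfl
    have e4 : ∑ j ∈ range N, (if j = N then (if i = N then U (h % 2) else 0)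
        else if j < i ∧ j % 2 = h % 2 then t j else 0) * ∏ z ∈ T.ch x, Ph T N t U h z j =
        gg t (h + 1) (T.code (h + 1) x) i := by
      rw [gg_succ]
      symm
      refine Finset.sum_subset_zero_on_sdiff (range_subset_range.2 hi) ?_ ?_
      · intro j hj
        simp only [mem_sdiff, mem_range] at hj
        rw [if_neg hj.1.ne, if_neg (fun h => hj.2 h.1), zero_mul]
      · intro j hj
        have hj' := mem_range.1 hj
        rw [if_neg (show j ≠ N by omega), e2 j (by omega)]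
        simp only [hj', true_and, ite_mul, zero_mul]
    rw [e4, e3, if_pos rfl, Ph]
    split_ifs with h1
    · rw [GG_succ, h1]
    · rw [zero_mul, add_zero]

theorem Th_formula (T : RT α) (H : Ht2 α) (N n s : ℕ) (hn : Fintype.card α ≤ n) (hs : s < 2)
    (hN : ∀ x, T.dep x ≤ N) (hc : Up T.r ↔ N % 2 = s)
    (hloc : ∀ y : α → ℕ, Valid N n s y → N ≤ y T.r) (t : ℕ → R) (u v v1 : R)
    (hw : v1 = (if N % 2 = s then u else v) ∨ (u = 0 ∧ v = 0)) :
    Th α N n s t u v v1 = v1 * (((T.ch T.r).val.map (T.code N)).map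
      (GG t (fun b => if b = s then u else v) N N)).prod := by
  classical
  set U : ℕ → R := fun b => if b = s then u else v with hU
  have par := up_par T H hs hN hc
  rw [Th_def, ← sum_LL T N hN, Finset.mul_sum, ← Finset.sum_filter,
    ← Finset.sum_filter_of_ne (s := T.lab N (univ.erase T.r))
      (p := fun f => ∀ x, x ≠ T.r → Loc T N s f x)]
  swap
  · intro f hf hne x hx
    have h1 : LL T N t U x (f (T.p x)) (f x) ≠ 0 := fun h =>
      hne (by rw [Finset.prod_eq_zero (mem_erase.2 ⟨hx, mem_univ x⟩) h, mul_zero])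
    have h2 := (T.mem_lab.1 hf).2.1 x hx (mem_erase.2 ⟨hx, mem_univ x⟩)
    have h3 := par x
    unfold LL at h1
    unfold Loc
    split_ifs at h1 with a1 a2 a3
    · exact ⟨fun _ => a2.ge, fun h => by omega⟩
    · exact absurd rfl h1
    · exact ⟨fun h => by omega, fun _ => ⟨by rw [h3, a3.2], a3.1⟩⟩
    · exact absurd rfl h1
  refine Finset.sum_nbij' (fun y a => min (y a : ℕ) N)
    (fun f a => ⟨if f a < N then f a else N + tok T N f a, by
      have := tok_le T N f a
      split_ifs <;> omega⟩) ?_ ?_ ?_ ?_ ?_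
  · intro y hy
    have hV := (mem_filter.1 hy).2
    have hr := hloc _ hV
    obtain ⟨g1, _⟩ := good_of_valid T H N n s hn _ hr hV
    refine mem_filter.2 ⟨T.mem_lab.2 ⟨min_eq_right hr, fun _ _ _ => min_le_right _ _,
      fun a h1 h2 => absurd (mem_erase.2 ⟨h1, mem_univ a⟩) h2⟩, fun x hx => ?_⟩
    obtain ⟨h1, h2⟩ := g1 x hx
    unfold Loc
    beta_reduce at h1 h2 ⊢
    refine ⟨fun h => ?_, fun h => ?_⟩
    · have := h1 (by omega)
      omega
    · have h3 : (y x : ℕ) < N := by omega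
      have := h2 h3
      rw [min_eq_left h3.le]
      exact ⟨this.1, by omega⟩
  · intro f hf
    obtain ⟨f1, f2⟩ := mem_filter.1 hf
    obtain ⟨a1, _, _⟩ := T.mem_lab.1 f1
    refine mem_filter.2 ⟨mem_univ _, valid_of_good T H N n s hn _ ?_ ⟨fun x hx => ?_, fun x hx => ?_⟩⟩
    · show N ≤ (if f T.r < N then f T.r else N + tok T N f T.r)
      rw [if_neg (by omega)]; omega
    · obtain ⟨h1, h2⟩ := f2 x hx
      refine ⟨fun h => ?_, fun h => ?_⟩
      · simp only at h ⊢
        split_ifs at h ⊢ <;> omega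
      · simp only at h ⊢
        have h3 : f x < N := by split_ifs at h <;> omega
        rw [if_pos h3]
        refine ⟨(h2 h3).1, ?_⟩
        have := (h2 h3).2
        split_ifs <;> omega
    · simp only at hx ⊢
      rw [tok_congr T N (y := fun a => if f a < N then f a else N + tok T N f a) (y' := f)
        (fun z => by beta_reduce; split_ifs <;> omega)]
      split_ifs at hx ⊢ <;> omega
  · intro y hy
    have hV := (mem_filter.1 hy).2
    obtain ⟨_, g2⟩ := good_of_valid T H N n s hn _ (hloc _ hV) hV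
    funext a
    apply Fin.ext
    simp only
    rw [tok_congr T N (y' := fun a => (y a : ℕ)) (fun z => by beta_reduce; omega)]
    have := g2 a
    beta_reduce at this
    split_ifs <;> omega
  · intro f hf
    obtain ⟨f1, _⟩ := mem_filter.1 hf
    obtain ⟨a1, a2, _⟩ := T.mem_lab.1 f1
    funext a
    have : f a ≤ N := by
      by_cases e : a = T.r
      · rw [e, a1]
      · exact a2 a e (mem_erase.2 ⟨e, mem_univ a⟩)
    simp only
    split_ifs <;> omega
  · intro y hy
    have hV := (mem_filter.1 hy).2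
    have hr := hloc _ hV
    obtain ⟨g1, g2⟩ := good_of_valid T H N n s hn _ hr hV
    simp only at hr g1 g2
    generalize hy' : (fun a => (y a : ℕ)) = y' at hr g1 g2
    have ey : ∀ a, (y a : ℕ) = y' a := fun a => congrFun hy' a
    simp only [ey]
    rw [ey] at hr
    simp only [ey] at g2
    have k1 : ∀ x, x ≠ T.r → N ≤ y' x → LL T N t U x (min (y' (T.p x)) N) (min (y' x) N) =
        if Up x then u else v := by
      intro x hx h
      have h1 := (g1 x hx).1 h
      rw [LL, if_pos (min_eq_right h), if_pos (min_eq_right h1), hU]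
      exact if_congr (par x).symm rfl rfl
    have k2 : ∀ x ∈ univ.erase T.r, ww N t u v v1 (∑ b, blk N (y' b)) (y' x) =
        LL T N t U x (min (y' (T.p x)) N) (min (y' x) N) := by
      intro x hx
      have hx := ne_of_mem_erase hx
      by_cases h : y' x < N
      · obtain ⟨h1, h2⟩ := (g1 x hx).2 h
        have h3 := par x
        rw [ww, if_pos h, LL, min_eq_left h.le, if_neg h.ne, if_pos ⟨by omega, by
          rw [h1] at h3; omega⟩]
      · rw [k1 x hx (not_lt.1 h), ww, if_neg h, if_neg (blk_ne_one hx (not_lt.1 h) hr)]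
        have h1 := g2 x (not_lt.1 h)
        unfold tok at h1
        rw [if_neg hx] at h1
        split_ifs at h1 ⊢ <;> first | rfl | omega
    rw [← Finset.mul_prod_erase _ _ (mem_univ T.r), Finset.prod_congr rfl k2]
    have h1 := g2 T.r hr
    unfold tok at h1
    rw [if_pos rfl, add_zero] at h1
    by_cases hb : ∃ x, x ≠ T.r ∧ N ≤ y' x
    · obtain ⟨x, hx, hx2⟩ := hb
      have e1 : ww N t u v v1 (∑ b, blk N (y' b)) (y' T.r) = if N % 2 = s then u else v := by
        rw [ww, if_neg (by omega), if_neg (blk_ne_one hx hx2 hr)]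
        by_cases h2 : Up T.r
        · obtain ⟨z, hz, hzx⟩ := T.exists_ch (T.anc_root x) hx.symm
          have h3 : N ≤ y' z := by
            by_contra h4
            have h5 := desc_le g1 z (not_le.1 h4) x (T.mem_desc.2 hzx)
            have h6 := T.anc_dep hzx
            omega
          have h4 : 0 < ((T.ch T.r).filter fun z => N ≤ y' z).card :=
            card_pos.2 ⟨z, mem_filter.2 ⟨hz, h3⟩⟩
          rw [if_pos h2] at h1
          rw [if_neg (by omega), if_pos (hc.1 h2)]
        · rw [if_neg h2] at h1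
          rw [if_pos (by omega), if_neg (fun h => h2 (hc.2 h))]
      rw [e1]
      rcases hw with hw | ⟨hu, hv⟩
      · rw [hw]
      · rw [Finset.prod_eq_zero (mem_erase.2 ⟨hx, mem_univ x⟩)
          (by rw [k1 x hx hx2, hu, hv, ite_self]), mul_zero, mul_zero]
    · push Not at hb
      have e1 : ((T.ch T.r).filter fun z => N ≤ y' z) = ∅ :=
        filter_eq_empty_iff.2 fun z hz => not_le.2 (hb z (T.mem_ch.1 hz).1)
      have e2 : (univ.filter fun z => N ≤ y' z) = {T.r} := by
        ext z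
        simp only [mem_filter, mem_univ, true_and, mem_singleton]
        exact ⟨fun h => by_contra fun h2 => absurd h (not_le.2 (hb z h2)), fun h => h ▸ hr⟩
      rw [e1, card_empty, ite_self] at h1
      rw [ww, if_neg (by omega), if_pos (by omega), if_pos (by rw [sum_blk, e2]; simp)]

end Pool.Agent.Work.MP_be9894_co.H2
end

-- merged part: Pool.Agent.Work.MP_be9894_co.H2Main
section
set_option autoImplicit false
set_option linter.unusedSectionVars false

namespace Pool.Agent.Work.MP_be9894_co.H2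

open Finset

variable {α : Type} [Fintype α] [PartialOrder α] [DecidableEq α]

noncomputable def dd (a b : α) : ℕ := (SimpleGraph.hasse α).dist a b

lemma RT.adj_cases (T : RT α) {a b : α} (h : a ⋖ b ∨ b ⋖ a) :
    (a ≠ T.r ∧ T.p a = b) ∨ (b ≠ T.r ∧ T.p b = a) :=
  h.elim (T.all a b) fun h => (T.all b a h).symm

lemma dd_anc (hT : (SimpleGraph.hasse α).IsTree) (T : RT α) (a : α) :
    ∀ u, T.anc a u → dd u a + T.dep a ≤ T.dep u := by
  refine T.ind_down _ (fun h => ?_) fun u hu ih h => ?_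
  · rw [T.anc_eq h (by rw [T.dr]; omega)]
    simp [dd]
  · by_cases e : a = u
    · rw [e]; simp [dd]
    · have h1 := ih (T.anc_step h e)
      have h2 : dd u a ≤ dd u (T.p u) + dd (T.p u) a := hT.connected.dist_triangle
      have h3 : dd u (T.p u) = 1 := SimpleGraph.dist_eq_one_iff_adj.2 (T.adj u hu)
      have h4 := T.dp u hu
      omega

lemma dd_out (hT : (SimpleGraph.hasse α).IsTree) (T : RT α) {c x : α} (hx : ¬ T.anc c x) :
    dd x (T.p c) + 1 ≤ dd x c := by
  obtain ⟨S, s1, s2⟩ := exists_RT α hT x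
  have cx : c ≠ S.r := fun e => hx (by rw [e, s1]; exact T.anc_refl x)
  have key : ∀ v, S.dep v < S.dep c → ¬ T.anc c v := by
    refine S.ind_down _ (fun _ => s1 ▸ hx) fun v hv ih h1 h2 => ?_
    have h3 := S.dp v hv
    refine ih (by omega) ?_
    rcases T.adj_cases (S.adj v hv) with ⟨_, h4⟩ | ⟨_, h4⟩
    · exact h4 ▸ T.anc_step h2 (fun e => by rw [e] at h1; omega)
    · exact T.anc_trans h2 (by conv_lhs => rw [← h4]
                               exact T.anc_p _)
  have h1 := S.dp c cx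
  rcases T.adj_cases (S.adj c cx) with ⟨_, h4⟩ | ⟨_, h4⟩
  · rw [s2, s2, ← h4] at h1
    unfold dd
    rw [SimpleGraph.dist_comm (u := x), SimpleGraph.dist_comm (u := x)]
    omega
  · exact absurd (by conv_lhs => rw [← h4]
                     exact T.anc_p _) (key (S.p c) (by omega))

lemma exists_block {N n s : ℕ} {y : α → ℕ} (hV : Valid N n s y) : ∃ r, N ≤ y r := by
  have h := hV.1.1
  rw [sum_blk] at h
  have h1 : 0 < (univ.filter fun b => N ≤ y b).card := by exact_mod_cast h
  obtain ⟨r, hr⟩ := card_pos.1 h1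
  exact ⟨r, (mem_filter.1 hr).2⟩

theorem localise (hT : (SimpleGraph.hasse α).IsTree) (H : Ht2 α) (N n s : ℕ)
    (hn : Fintype.card α ≤ n) (hs : s < 2) (c : α) (h1 : ∀ x, dd x c ≤ N)
    (h2 : ∀ z : α, ∃ x, N ≤ dd x z) (hc : Up c ↔ N % 2 = s) (y : α → ℕ) (hV : Valid N n s y) :
    N ≤ y c := by
  obtain ⟨r, hr⟩ := exists_block hV
  obtain ⟨T, rfl, _⟩ := exists_RT α hT r
  obtain ⟨g1, _⟩ := good_of_valid T H N n s hn y hr hV
  by_contra h3
  have h3 := not_le.1 h3
  have cr : c ≠ T.r := fun e => by rw [e] at h3; omega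
  have h4 := ((g1 c cr).2 h3).1
  rw [hc] at h4
  have h5 : y c + 2 ≤ N := by omega
  obtain ⟨x, hx⟩ := h2 (T.p c)
  by_cases h6 : T.anc c x
  · have a1 := desc_le g1 c h3 x (T.mem_desc.2 h6)
    have a2 := dd_anc hT T (T.p c) x (T.anc_trans (T.anc_p c) h6)
    have a3 := T.dp c cr
    omega
  · have a1 := dd_out hT T h6
    have a2 := h1 x
    omega

lemma fit_code (T : RT α) (N : ℕ) (hN : ∀ x, T.dep x ≤ N) :
    ∀ x h, h + T.dep x = N + 1 → gg TT h (T.code h x) h ≠ 0 := by
  refine T.ind_up _ fun x ih h hh => ?_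
  have := hN x
  obtain ⟨k, rfl⟩ : ∃ k, h = k + 1 := ⟨h - 1, by omega⟩
  refine fit_of_kids rfl fun z hz => ?_
  rw [RT.kids_code] at hz
  obtain ⟨w, hw, rfl⟩ := Multiset.mem_map.1 hz
  have := T.dep_ch hw
  exact ih w hw k (by omega)

lemma fit_root (T : RT α) (N : ℕ) (hN : ∀ x, T.dep x ≤ N) :
    ∀ z ∈ (T.ch T.r).val.map (T.code N), gg TT N z N ≠ 0 := by
  intro z hz
  obtain ⟨w, hw, rfl⟩ := Multiset.mem_map.1 hz
  exact fit_code T N hN w N (by rw [T.dep_ch hw, T.dr])

theorem single (hT : (SimpleGraph.hasse α).IsTree) (H : Ht2 α) (N n s : ℕ)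
    (hn : Fintype.card α ≤ n) (hs : s < 2) (h : Th α N n s TT 0 0 1 ≠ 0) :
    ∃ c : α, (∀ x, dd x c ≤ N) ∧ ((Up c ↔ N % 2 = s) ∨ ∀ x, x ≠ c → dd x c + 1 ≤ N) := by
  classical
  rw [Th_def] at h
  obtain ⟨y, _, hy⟩ := Finset.exists_ne_zero_of_sum_ne_zero h
  split_ifs at hy with hV
  swap
  · exact absurd rfl hy
  obtain ⟨r, hr⟩ := exists_block hV
  obtain ⟨T, rfl, hd⟩ := exists_RT α hT r
  obtain ⟨g1, _⟩ := good_of_valid T H N n s hn _ hr hV
  have k1 : ∀ x, x ≠ T.r → (y x : ℕ) < N := by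
    intro x hx
    by_contra h1
    refine Finset.prod_ne_zero_iff.1 hy x (mem_univ x) ?_
    rw [ww, if_neg h1, if_neg (blk_ne_one (y := fun a => (y a : ℕ)) hx (not_lt.1 h1) hr), ite_self]
  have k2 : ∀ e : ℕ, (∀ z ∈ T.ch T.r, (y z : ℕ) + 1 + e ≤ N) →
      ∀ x, x ≠ T.r → dd x T.r + e ≤ N := by
    intro e he x hx
    obtain ⟨z, hz, hzx⟩ := T.exists_ch (T.anc_root x) hx.symm
    have a1 := desc_le g1 z (k1 z (T.mem_ch.1 hz).1) x (T.mem_desc.2 hzx)
    have a2 := he z hz
    have a3 := T.dep_ch hz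
    have a4 : T.dep x = dd x T.r := hd x
    rw [T.dr] at a3
    beta_reduce at a1
    omega
  refine ⟨T.r, fun x => ?_, ?_⟩
  · by_cases e : x = T.r
    · rw [e]; simp [dd]
    · exact k2 0 (fun z hz => k1 z (T.mem_ch.1 hz).1) x e
  · by_cases hc : Up T.r ↔ N % 2 = s
    · exact Or.inl hc
    · refine Or.inr (k2 1 fun z hz => ?_)
      obtain ⟨z1, z2⟩ := T.mem_ch.1 hz
      have a1 := k1 z z1
      have a2 := ((g1 z z1).2 a1).1
      rw [T.up_p H z1, z2] at a2
      beta_reduce at a2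
      have a3 : (y z : ℕ) % 2 = s ↔ N % 2 = s := by tauto
      omega

lemma exists_centre (α : Type) [Fintype α] [PartialOrder α] [Nonempty α] :
    ∃ (c : α) (N : ℕ), (∀ x, dd x c ≤ N) ∧ ∀ z : α, ∃ x, N ≤ dd x z := by
  obtain ⟨c, _, hc⟩ := (univ : Finset α).exists_min_image (fun z => univ.sup fun x => dd x z)
    univ_nonempty
  refine ⟨c, univ.sup fun x => dd x c, fun x => Finset.le_sup (f := fun x => dd x c) (mem_univ x),
    fun z => ?_⟩
  obtain ⟨x, _, hx⟩ := Finset.exists_mem_eq_sup univ univ_nonempty (fun x => dd x z)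
  exact ⟨x, hx ▸ hc z (mem_univ z)⟩

lemma Th_centre (hT : (SimpleGraph.hasse α).IsTree) (H : Ht2 α) (N n s : ℕ)
    (hn : Fintype.card α ≤ n) (hs : s < 2) (c : α) (h1 : ∀ x, dd x c ≤ N)
    (h2 : ∀ z : α, ∃ x, N ≤ dd x z) (hc : Up c ↔ N % 2 = s) : Th α N n s TT 0 0 1 ≠ 0 := by
  obtain ⟨T, rfl, hd⟩ := exists_RT α hT c
  have hN : ∀ x, T.dep x ≤ N := fun x => (hd x).le.trans (h1 x)
  rw [Th_formula T H N n s hn hs hN hc (localise hT H N n s hn hs _ h1 h2 hc) TT 0 0 1
    (Or.inr ⟨rfl, rfl⟩), one_mul]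
  refine prod_ne fun z hz => ?_
  rw [GG_zero _ _ _ _ (ite_self _)]
  exact fit_root T N hN z hz

lemma Th_main (hT : (SimpleGraph.hasse α).IsTree) (H : Ht2 α) (N n s : ℕ)
    (hn : Fintype.card α ≤ n) (hs : s < 2) (T : RT α) (hd : ∀ x, T.dep x = dd x T.r)
    (h1 : ∀ x, dd x T.r ≤ N) (h2 : ∀ z : α, ∃ x, N ≤ dd x z) (hc : Up T.r ↔ N % 2 = s) :
    Th α N n s TT (VV s) (VV (1 - s)) (VV (N % 2)) =
      VV (N % 2) * (((T.ch T.r).val.map (T.code N)).map (GG TT VV N N)).prod := by
  have hN : ∀ x, T.dep x ≤ N := fun x => (hd x).le.trans (h1 x)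
  have hV : ∀ b, b < 2 → (if b = s then VV s else VV (1 - s)) = VV b := by
    intro b hb
    split_ifs with h
    · rw [h]
    · congr 1; omega
  rw [Th_formula T H N n s hn hs hN hc (localise hT H N n s hn hs _ h1 h2 hc) TT _ _ _
    (Or.inl (hV _ (Nat.mod_lt _ two_pos)).symm)]
  congr 2
  exact Multiset.map_congr rfl fun z _ => GG_map (RingHom.id _) _ _ _ _ (fun _ => rfl) hV N N z

lemma col_ex (c : α) (N : ℕ) : ∃ s, s < 2 ∧ (Up c ↔ N % 2 = s) := by
  by_cases h : Up c
  · exact ⟨N % 2, Nat.mod_lt _ two_pos, by simp [h]⟩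
  · exact ⟨1 - N % 2, by omega, by simp only [h, false_iff]; omega⟩

theorem main {α β : Type} [Fintype α] [PartialOrder α] [Fintype β] [PartialOrder β]
    (hα : (SimpleGraph.hasse α).IsTree) (hβ : (SimpleGraph.hasse β).IsTree) (Hα : Ht2 α)
    (Q : SameQ α β) : Nonempty (α ≃o β) := by
  classical
  have Q' : SameQ β α := fun m => (Q m).symm
  obtain ⟨g, g1, g2, g3⟩ := exists_strict Q 2 (fun a => if Up a then 0 else 1) (fun a b hab => by
    beta_reduce
    rw [if_pos ⟨b, hab⟩, if_neg fun ⟨c, hc⟩ => Hα a b c hab hc]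
    exact Nat.one_pos) (fun a => by split_ifs <;> omega)
  have Hβ : Ht2 β := fun a b c h1 h2 => by
    have a1 := g1 h1
    have a2 := g1 h2
    have a3 := g2 c
    omega
  obtain ⟨e, _⟩ := exists_equiv_of_ct g3
  have hcard : Fintype.card α = Fintype.card β := Fintype.card_congr e
  have TE : ∀ (N s : ℕ) (u v v1 : PP), Th α N (Fintype.card α) s TT u v v1 =
      Th β N (Fintype.card α) s TT u v v1 := fun N s u v v1 => Theta_eq Q _ _ _
  have := hα.connected.nonempty
  have := hβ.connected.nonempty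
  obtain ⟨c, N, c1, c2⟩ := exists_centre α
  obtain ⟨c', N', c1', c2'⟩ := exists_centre β
  obtain ⟨s, hs, hc⟩ := col_ex c N
  obtain ⟨s', hs', hc'⟩ := col_ex c' N'
  obtain ⟨x, x1, x2⟩ := single hβ Hβ N _ s hcard.ge hs
    (TE N s 0 0 1 ▸ Th_centre hα Hα N _ s le_rfl hs c c1 c2 hc)
  obtain ⟨x', x1', _⟩ := single hα Hα N' _ s' le_rfl hs'
    ((TE N' s' 0 0 1).symm ▸ Th_centre hβ Hβ N' _ s' hcard.ge hs' c' c1' c2' hc')
  have hN : N' = N := by
    obtain ⟨w, hw⟩ := c2 x'
    obtain ⟨w', hw'⟩ := c2' x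
    have a1 := x1 w'
    have a2 := x1' w
    omega
  subst hN
  have hx : Up x ↔ N' % 2 = s := by
    refine x2.elim id fun h => ?_
    obtain ⟨w, hw⟩ := c2' x
    have h0 : N' = 0 := by
      by_cases e : w = x
      · rw [e] at hw
        simpa [dd] using hw
      · have := h w e
        omega
    rw [← hc]
    have a1 : ¬ Up x := fun ⟨y, hy⟩ => by
      have := h y hy.ne'
      omega
    have a2 : ¬ Up c := fun ⟨y, hy⟩ => by
      have a3 := c1 y
      have a4 : 0 < dd y c := hα.connected.pos_dist_of_ne hy.ne'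
      omega
    simp [a1, a2]
  obtain ⟨T, rfl, hd⟩ := exists_RT α hα c
  obtain ⟨T', rfl, hd'⟩ := exists_RT β hβ x
  have e1 := TE N' s (VV s) (VV (1 - s)) (VV (N' % 2))
  rw [Th_main hα Hα N' _ s le_rfl hs T hd c1 c2 hc,
    Th_main hβ Hβ N' _ s hcard.ge hs T' hd' x1 c2' hx] at e1
  have hN : ∀ x, T.dep x ≤ N' := fun x => (hd x).le.trans (c1 x)
  have hN' : ∀ x, T'.dep x ≤ N' := fun x => (hd' x).le.trans (x1 x)
  exact iso_of_code T T' Hα Hβ hcard N' hN (hc.trans hx.symm)
    (prod_inj N' N' _ _ (fit_root T N' hN) (fit_root T' N' hN')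
      (mul_left_cancel₀ (MvPolynomial.X_ne_zero _) e1))

end Pool.Agent.Work.MP_be9894_co.H2
end
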