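import Pool.Agent.Work.MP_be9894_co.Order

-- merged part: Pool.Agent.Work.MP_be9894_co.Words
section
set_option autoImplicit false

namespace Pool.Agent.Work.MP_be9894_co

open Finset

lemma h_nonneg (K : ℕ) (w : List Bool) (i : ℕ) : 0 ≤ h K w i := by
  induction w generalizing i with
  | nil => simp [h, U]
  | cons b w ih =>
    simp only [h, U, one_mul]
    refine Finset.sum_nonneg fun j _ => ?_
    split_ifs
    · exact ih j
    · exact le_rfl

lemma h_cons (K : ℕ) (b : Bool) (w : List Bool) (i : ℕ) :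
    h K (b :: w) i = ∑ j ∈ range K, if ind b i j then h K w j else 0 := by
  simp only [h, U, one_mul]

lemma h_pos (K : ℕ) (w : List Bool) (i : ℕ) (h1 : w.length ≤ i) (h2 : i + w.length < K) :
    0 < h K w i := by
  induction w generalizing i with
  | nil => simp [h, U]
  | cons b w ih =>
    simp only [List.length_cons] at h1 h2
    rw [h_cons]
    refine Finset.sum_pos' (fun j _ => ?_) ?_
    · split_ifs
      · exact h_nonneg K w j
      · exact le_rfl
    · cases b
      · refine ⟨i - 1, Finset.mem_range.2 (by omega), ?_⟩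
        rw [if_pos (by simp; omega)]
        exact ih _ (by omega) (by omega)
      · refine ⟨i + 1, Finset.mem_range.2 (by omega), ?_⟩
        rw [if_pos (by simp)]
        exact ih _ (by omega) (by omega)

lemma sum_ite_step (K c : ℕ) (hc : c < K) (f : ℕ → ℚ) :
    (∑ j ∈ range K, if j < c + 1 then f j else 0) = (∑ j ∈ range K, if j < c then f j else 0) + f c ∧
    (∑ j ∈ range K, if c ≤ j then f j else 0) = (∑ j ∈ range K, if c + 1 ≤ j then f j else 0) + f c := by
  have : f c = ∑ j ∈ range K, if j = c then f j else 0 := by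
    rw [Finset.sum_ite_eq']; simp [hc]
  constructor <;> rw [this, ← Finset.sum_add_distrib] <;> refine Finset.sum_congr rfl fun j _ => ?_ <;>
    split_ifs <;> first | omega | simp

lemma h_true_step (K : ℕ) (w : List Bool) (i : ℕ) (hi : i + 1 < K) :
    h K (true :: w) i = h K (true :: w) (i + 1) + h K w (i + 1) := by
  simp only [h_cons, ind_true]
  exact (sum_ite_step K (i + 1) hi (h K w)).2

lemma h_false_step (K : ℕ) (w : List Bool) (i : ℕ) (hi : i < K) :
    h K (false :: w) (i + 1) = h K (false :: w) i + h K w i := by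
  simp only [h_cons, ind_false]
  exact (sum_ite_step K i hi (h K w)).1

lemma h_inj (K : ℕ) (l : ℚ) (hl : 0 < l) (u v : List Bool) (lo hi : ℕ) (hlen : u.length = v.length)
    (h1 : u.length ≤ lo) (h2 : hi + u.length < K) (h3 : lo + u.length ≤ hi)
    (H : ∀ i, lo ≤ i → i ≤ hi → h K u i = l * h K v i) : u = v := by
  induction u generalizing v lo hi with
  | nil => exact (List.length_eq_zero_iff.1 hlen.symm).symm
  | cons a u ih =>
    cases v with
    | nil => simp at hlen
    | cons b v =>
      simp only [List.length_cons] at hlen h1 h2 h3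
      have e1 := H lo le_rfl (by omega)
      have e2 := H (lo + 1) (by omega) (by omega)
      cases a <;> cases b
      · rw [ih v lo (hi - 1) (by omega) (by omega) (by omega) (by omega)]
        intro i hi1 hi2
        have a1 := H i hi1 (by omega)
        have a2 := H (i + 1) (by omega) (by omega)
        rw [h_false_step K u i (by omega), h_false_step K v i (by omega)] at a2
        linear_combination a2 - a1
      · exfalso
        rw [h_false_step K u lo (by omega)] at e2
        rw [h_true_step K v lo (by omega)] at e1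
        have p1 := h_pos K u lo (by omega) (by omega)
        have p2 := h_pos K v (lo + 1) (by omega) (by omega)
        nlinarith [mul_pos hl p2]
      · exfalso
        rw [h_false_step K v lo (by omega)] at e2
        rw [h_true_step K u lo (by omega)] at e1
        have p1 := h_pos K u (lo + 1) (by omega) (by omega)
        have p2 := h_pos K v lo (by omega) (by omega)
        nlinarith [mul_pos hl p2]
      · rw [ih v (lo + 1) hi (by omega) (by omega) (by omega) (by omega)]
        intro i hi1 hi2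
        obtain ⟨i, rfl⟩ : ∃ j, i = j + 1 := ⟨i - 1, by omega⟩
        have a1 := H i (by omega) (by omega)
        have a2 := H (i + 1) (by omega) (by omega)
        rw [h_true_step K u i (by omega), h_true_step K v i (by omega)] at a1
        linear_combination a1 - a2

def tot (K : ℕ) (w : List Bool) : ℚ := ∑ j ∈ range K, h K w j

lemma tot_pos (K : ℕ) (w : List Bool) (hK : 2 * w.length < K) : 0 < tot K w :=
  Finset.sum_pos' (fun j _ => h_nonneg K w j)
    ⟨w.length, Finset.mem_range.2 (by omega), h_pos K w _ le_rfl (by omega)⟩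

lemma G0t (K : ℕ) (w : List Bool) : G 0 K (true :: w) = tot K w := by simp [G, tot]
lemma G0f (K : ℕ) (w : List Bool) : G 0 K (false :: w) = 0 := by simp [G]
lemma GKt (K : ℕ) (w : List Bool) : G K K (true :: w) = 0 := by
  simp only [G, if_true]
  refine Finset.sum_eq_zero fun j hj => ?_
  rw [if_neg (by have := Finset.mem_range.1 hj; omega)]
lemma GKf (K : ℕ) (w : List Bool) : G K K (false :: w) = tot K w := by
  simp only [G, Bool.false_eq_true, if_false, tot]
  refine Finset.sum_congr rfl fun j hj => ?_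
  rw [if_pos (Finset.mem_range.1 hj)]
lemma Gt_step (K c : ℕ) (hc : c < K) (w : List Bool) :
    G c K (true :: w) = G (c + 1) K (true :: w) + h K w c := by
  simp only [G, if_true]; exact (sum_ite_step K c hc (h K w)).2
lemma Gf_step (K c : ℕ) (hc : c < K) (w : List Bool) :
    G (c + 1) K (false :: w) = G c K (false :: w) + h K w c := by
  simp only [G, Bool.false_eq_true, if_false]; exact (sum_ite_step K c hc (h K w)).1

lemma four_term (K : ℕ) (u v : List Bool) (hlen : u.length = v.length) (hK : 3 * u.length < K)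
    (a b a' b' : ℚ) (ha : 0 < a) (hb : 0 < b) (ha' : 0 < a') (hb' : 0 < b') (e f e' f' : Bool)
    (H : ∀ c ≤ K, a * G c K (e :: u) + b * G c K (f :: v) = a' * G c K (e' :: u) + b' * G c K (f' :: v)) :
    (e = e' ∧ f = f') ∨ (u = v ∧ f = !e ∧ e' = !e ∧ f' = e ∧ a = b' ∧ b = a') := by
  have pu := tot_pos K u (by omega)
  have pv := tot_pos K v (by omega)
  have H0 := H 0 (Nat.zero_le _)
  have HK := H K le_rfl
  have q1 := mul_pos ha pu
  have q2 := mul_pos hb pv
  have q3 := mul_pos ha' pu
  have q4 := mul_pos hb' pv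
  have fin : (∀ c < K, (a + a') * h K u c = (b + b') * h K v c) → u = v := by
    intro hh
    refine h_inj K ((b + b') / (a + a')) (by positivity) u v u.length (2 * u.length) hlen le_rfl
      (by omega) (by omega) fun i _ hi => ?_
    have := hh i (by omega)
    field_simp
    linear_combination this
  cases e <;> cases f <;> cases e' <;> cases f' <;>
    simp only [G0t, G0f, GKt, GKf, mul_zero, add_zero, zero_add] at H0 HK <;>
    first
      | (left; exact ⟨rfl, rfl⟩)
      | (exfalso; linarith)
      | skip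
  · right
    have huv : u = v := fin fun c hc => by
      have h1 := H c hc.le
      have h2 := H (c + 1) hc
      rw [Gf_step K c hc u, Gf_step K c hc v] at h2
      rw [Gt_step K c hc u, Gt_step K c hc v] at h1
      linear_combination h2 - h1
    subst huv
    exact ⟨rfl, rfl, rfl, rfl, mul_right_cancel₀ pu.ne' HK, mul_right_cancel₀ pu.ne' H0⟩
  · right
    have huv : u = v := fin fun c hc => by
      have h1 := H c hc.le
      have h2 := H (c + 1) hc
      rw [Gf_step K c hc u, Gf_step K c hc v] at h2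
      rw [Gt_step K c hc u, Gt_step K c hc v] at h1
      linear_combination h1 - h2
    subst huv
    exact ⟨rfl, rfl, rfl, rfl, mul_right_cancel₀ pu.ne' H0, mul_right_cancel₀ pu.ne' HK⟩

def Agree (r : ℕ) (w w' : List Bool) : Prop :=
  w.take r = w'.take r ∧ w.drop (w.length - r) = w'.drop (w.length - r)

def Sym (r : ℕ) (w : List Bool) : Prop := star (w.take r) = w.drop (w.length - r)

lemma count_split (w : List Bool) (i k : ℕ) : w.count true
    = (w.take i).count true + ((w.drop i).take k).count true + (w.drop (i + k)).count true := by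
  conv_lhs => rw [← List.take_append_drop i w, ← List.take_append_drop k (w.drop i)]
  simp only [List.count_append, List.drop_drop]; omega

lemma count_star (w : List Bool) : (star w).count true + w.count true = w.length := by
  induction w with
  | nil => rfl
  | cons b w ih => rw [star_cons]; cases b <;> simp <;> omega

lemma star_take_succ (w : List Bool) (r : ℕ) (hr : r < w.length) :
    star (w.take (r + 1)) = (!w[r]) :: star (w.take r) := by
  rw [List.take_succ_eq_append_getElem hr, star_append]; simp [star]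

lemma take_star (w : List Bool) (s : ℕ) (hs : s ≤ w.length) :
    (star w).take s = star (w.drop (w.length - s)) := by
  conv_lhs => rw [← List.take_append_drop (w.length - s) w, star_append]
  rw [List.take_left']; simp; omega

lemma drop_star (w : List Bool) (s : ℕ) (hs : s ≤ w.length) :
    (star w).drop (w.length - s) = star (w.take s) := by
  conv_lhs => rw [← List.take_append_drop s w, star_append]
  rw [List.drop_left']; simp

lemma Sym.pred {r : ℕ} {w : List Bool} (hr : r < w.length) (H : Sym (r + 1) w) : Sym r w := by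
  unfold Sym at *
  rw [star_take_succ w r hr, List.drop_eq_getElem_cons (by omega)] at H
  rw [show w.length - r = w.length - (r + 1) + 1 by omega]
  exact (List.cons.inj H).2

lemma step {w w' : List Bool} (hl : w.length = w'.length) (hc : w.count true = w'.count true)
    (H : Same w w') (r : ℕ) (hr : 2 * (r + 1) ≤ w.length) (hA : Agree r w w') :
    Agree (r + 1) w w' ∨
      (Sym r w ∧ ¬ Sym (r + 1) w ∧ Agree (r + 1) w (star w') ∧ 2 * w.count true = w.length) := by
  obtain ⟨k, hk⟩ : ∃ k, w.length = k + (r + 1) := ⟨w.length - (r + 1), by omega⟩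
  obtain ⟨A1, A2⟩ := hA
  have hk1 : w.length - r = k + 1 := by omega
  have hk0 : w.length - (r + 1) = k := by omega
  rw [hk1] at A2
  have hrw : r < w.length := by omega
  have hrw' : r < w'.length := by omega
  have hkw : k < w.length := by omega
  have hkw' : k < w'.length := by omega
  have s1 := star_take_succ w r hrw
  have s2 := star_take_succ w' r hrw'
  have d1 : w.drop k = w[k] :: w.drop (k + 1) := List.drop_eq_getElem_cons hkw
  have d2 : w'.drop k = w'[k] :: w'.drop (k + 1) := List.drop_eq_getElem_cons hkw'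
  rw [← A1] at s2
  rw [← A2] at d2
  have c1 := count_split w (r + 1) k
  have c2 := count_split w' (r + 1) k
  have c3 := count_split w 0 k
  have c4 := count_split w' 0 k
  have e1 : w.drop (r + 1 + k) = [] := List.drop_of_length_le (by omega)
  have e2 : w'.drop (r + 1 + k) = [] := List.drop_of_length_le (by omega)
  simp only [e1, e2, List.count_nil, add_zero, List.take_zero, List.drop_zero, zero_add] at c1 c2 c3 c4
  have l1 : ((w.drop (r + 1)).take k).length = k := by simp; omega
  have l2 : ((w'.drop (r + 1)).take k).length = k := by simp; omega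
  have l3 : (w.take k).length = k := by simp; omega
  have l4 : (w'.take k).length = k := by simp; omega
  have key := four_term (3 * r + 1) (star (w.take r)) (w.drop (k + 1)) (by simp; omega)
    (by simp) (psi k (((w.drop (r + 1)).take k).count true)) (psi k ((w.take k).count true))
    (psi k (((w'.drop (r + 1)).take k).count true)) (psi k ((w'.take k).count true))
    (psi_pos _ _) (psi_pos _ _) (psi_pos _ _) (psi_pos _ _) (!w[r]) w[k] (!w'[r]) w'[k] (by
      intro c hcK
      have hE := E_eq hl H c (3 * r + 1) hcK k (by omega)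
      unfold E at hE
      rw [← hl, show w.length - k + 1 = r + 1 + 1 by omega] at hE
      rw [Finset.sum_range_succ, Finset.sum_range_succ', Finset.sum_range_succ _ (r + 1),
        Finset.sum_range_succ'] at hE
      have mid : ∑ i ∈ range r, G c (3 * r + 1) (star (w.take (i + 1))) * phi ((w.drop (i + 1)).take k)
            * G c (3 * r + 1) (w.drop (i + 1 + k))
          = ∑ i ∈ range r, G c (3 * r + 1) (star (w'.take (i + 1))) * phi ((w'.drop (i + 1)).take k)
            * G c (3 * r + 1) (w'.drop (i + 1 + k)) := by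
        refine Finset.sum_congr rfl fun i hi => ?_
        have hi := Finset.mem_range.1 hi
        have t1 : w.take (i + 1) = w'.take (i + 1) := by
          have := congrArg (List.take (i + 1)) A1
          simpa [List.take_take, Nat.min_eq_left (show i + 1 ≤ r by omega)] using this
        have t2 : w.drop (i + 1 + k) = w'.drop (i + 1 + k) := by
          have := congrArg (List.drop i) A2
          simpa [List.drop_drop, show k + 1 + i = i + 1 + k by omega] using this
        have t3 : phi ((w.drop (i + 1)).take k) = phi ((w'.drop (i + 1)).take k) := by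
          have a1 := count_split w (i + 1) k
          have a2 := count_split w' (i + 1) k
          rw [t1, t2] at a1
          have m1 : ((w.drop (i + 1)).take k).length = k := by simp; omega
          have m2 : ((w'.drop (i + 1)).take k).length = k := by simp; omega
          rw [phi_eq, phi_eq, m1, m2, show ((w.drop (i + 1)).take k).count true
            = ((w'.drop (i + 1)).take k).count true by omega]
        rw [t1, t2, t3]
      rw [mid, e1, e2, s1, s2] at hE
      simp only [List.take_zero, List.drop_zero, zero_add, star_nil, d1, d2, phi_eq, l1, l2, l3, l4] at hE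
      have g0 : G c (3 * r + 1) [] = 1 := rfl
      rw [g0] at hE
      have hs : ((-1 : ℚ) ^ k) ≠ 0 := by positivity
      apply mul_left_cancel₀ hs
      linear_combination hE)
  rcases key with ⟨k1, k2⟩ | ⟨k1, k2, k3, k4, k5, k6⟩
  · left
    refine ⟨?_, ?_⟩
    · have : star (w.take (r + 1)) = star (w'.take (r + 1)) := by rw [s1, s2, k1]
      simpa using congrArg star this
    · rw [hk0, d1, d2, k2]
  · right
    refine ⟨by unfold Sym; rw [hk1, k1], ?_, ⟨?_, ?_⟩, ?_⟩
    · unfold Sym; rw [hk0, s1, d1, k2]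
      intro hh
      have := (List.cons.inj hh).1
      revert this; cases w[r] <;> simp
    · rw [take_star w' _ (by omega), ← hl, hk0, d2, k4, ← k1, ← s1, star_star]
    · rw [hl, drop_star w' _ (by omega), ← hl, hk0, d1, s2, k3, k2, k1]
    · have b1 := psi_inj (List.count_le_length.trans l1.le) (List.count_le_length.trans l4.le) k5
      have b2 := psi_inj (List.count_le_length.trans l3.le) (List.count_le_length.trans l2.le) k6
      have n1 := count_star (w.take (r + 1))
      have n2 := count_star (w'.take (r + 1))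
      rw [s1, k1] at n1
      rw [s2, k1, k3] at n2
      rw [d1, k2] at c3
      rw [d2, k4] at c4
      have m1 : (w.take (r + 1)).length = r + 1 := by simp; omega
      have m2 : (w'.take (r + 1)).length = r + 1 := by simp; omega
      rw [m1] at n1
      rw [m2] at n2
      revert n1 n2 c3 c4
      cases w[r] <;> simp <;> omega

lemma finish {w w' : List Bool} (hl : w.length = w'.length) (hc : w.count true = w'.count true)
    (r : ℕ) (hr : w.length ≤ 2 * r + 1) (hr2 : 2 * r ≤ w.length) (hA : Agree r w w') : w = w' := by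
  obtain ⟨A1, A2⟩ := hA
  by_cases h2 : w.length = 2 * r
  · rw [show w.length - r = r by omega] at A2
    rw [← List.take_append_drop r w, ← List.take_append_drop r w', A1, A2]
  · rw [show w.length - r = r + 1 by omega] at A2
    have d1 : w.drop r = w[r]'(by omega) :: w.drop (r + 1) := List.drop_eq_getElem_cons (by omega)
    have d2 : w'.drop r = w'[r]'(by omega) :: w'.drop (r + 1) := List.drop_eq_getElem_cons (by omega)
    have c1 : w.count true = (w.take r).count true + (w.drop r).count true := by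
      conv_lhs => rw [← List.take_append_drop r w]
      rw [List.count_append]
    have c2 : w'.count true = (w'.take r).count true + (w'.drop r).count true := by
      conv_lhs => rw [← List.take_append_drop r w']
      rw [List.count_append]
    rw [d1, A1, A2] at c1
    rw [d2] at c2
    have : w[r]'(by omega) = w'[r]'(by omega) := by
      revert c1 c2
      cases w[r]'(by omega) <;> cases w'[r]'(by omega) <;> simp <;> omega
    rw [← List.take_append_drop r w, ← List.take_append_drop r w', d1, d2, A1, A2, this]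

lemma Same.star_right {w w' : List Bool} (H : Same w w') : Same w (star w') := by
  intro N x; rw [Z_star]; exact H N x

lemma asym_case {w w' : List Bool} (hl : w.length = w'.length) (hc : w.count true = w'.count true)
    (H : Same w w') (d r : ℕ) (hd : w.length ≤ 2 * (r + d) + 1) (hr2 : 2 * r ≤ w.length)
    (hS : ¬ Sym r w) (hA : Agree r w w') : w = w' := by
  induction d generalizing r with
  | zero => exact finish hl hc r hd hr2 hA
  | succ d ih =>
    by_cases hr : 2 * (r + 1) ≤ w.length
    · rcases step hl hc H r hr hA with h1 | h1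
      · exact ih (r + 1) (by omega) hr (fun hh => hS (hh.pred (by omega))) h1
      · exact absurd h1.1 hS
    · exact finish hl hc r (by omega) hr2 hA

lemma gen_case {w w' : List Bool} (hl : w.length = w'.length) (hc : w.count true = w'.count true)
    (H : Same w w') (d r : ℕ) (hd : w.length ≤ 2 * (r + d) + 1) (hr2 : 2 * r ≤ w.length)
    (hA : Agree r w w') : w = w' ∨ w = star w' := by
  induction d generalizing r with
  | zero => exact Or.inl (finish hl hc r hd hr2 hA)
  | succ d ih =>
    by_cases hr : 2 * (r + 1) ≤ w.length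
    · rcases step hl hc H r hr hA with h1 | ⟨_, h2, h3, h4⟩
      · exact ih (r + 1) (by omega) hr h1
      · right
        have := count_star w'
        exact asym_case (by simpa using hl) (by omega) H.star_right d (r + 1) (by omega) hr h2 h3
    · exact Or.inl (finish hl hc r (by omega) hr2 hA)

theorem words_main {w w' : List Bool} (hl : w.length = w'.length) (H : Same w w') :
    w = w' ∨ w = star w' := by
  have hE := E_eq hl H 0 0 le_rfl w.length le_rfl
  unfold E at hE
  rw [← hl] at hE
  have t1 : w.take w.length = w := List.take_length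
  have t2 : w'.take w.length = w' := by rw [hl]; exact List.take_length
  have e1 : w.drop w.length = [] := List.drop_length
  have e2 : w'.drop w.length = [] := by rw [hl]; exact List.drop_length
  simp only [Nat.sub_self, zero_add, Finset.sum_range_one, List.take_zero, List.drop_zero, star_nil,
    t1, t2, e1, e2, G, one_mul, mul_one, phi_eq, ← hl] at hE
  have hs : ((-1 : ℚ) ^ w.length) ≠ 0 := by positivity
  have A0 : ∀ v : List Bool, w.length = v.length → Agree 0 w v := by
    intro v hv
    refine ⟨by simp, ?_⟩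
    rw [Nat.sub_zero, e1, hv, List.drop_length]
  rcases psi_inj List.count_le_length (List.count_le_length.trans hl.ge) (mul_left_cancel₀ hs hE) with
    h1 | h1
  · exact gen_case hl h1 H w.length 0 (by omega) (by omega) (A0 _ hl)
  · have := count_star w'
    have := gen_case (w' := star w') (by simpa using hl) (by omega) H.star_right w.length 0 (by omega)
      (by omega) (A0 _ (by simpa using hl))
    rw [star_star] at this
    exact this.symm

end Pool.Agent.Work.MP_be9894_co
end

-- merged part: Pool.Agent.Work.MP_be9894_co.Poset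
section
set_option autoImplicit false

namespace Pool.Agent.Work.MP_be9894_co

open Finset

open Classical in
/-- weighted sum over strict maps into a finite chain -/
noncomputable def ZP {R : Type} [CommRing R] (α : Type) [Fintype α] [PartialOrder α] (N : ℕ)
    (x : ℕ → R) : R :=
  ∑ f : α → Fin N, if StrictMono f then ∏ a, x (f a) else 0

/-- equality of the strict order quasisymmetric functions, coefficientwise -/
def SameQ (α β : Type) [Fintype α] [PartialOrder α] [Fintype β] [PartialOrder β] : Prop :=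
  ∀ m : ℕ →₀ ℕ,
      Set.ncard {f : α → ℕ | StrictMono f ∧
          ∀ i : ℕ, (Finset.univ.filter (fun a => f a = i)).card = m i} =
      Set.ncard {g : β → ℕ | StrictMono g ∧
          ∀ i : ℕ, (Finset.univ.filter (fun b => g b = i)).card = m i}

def cont {α : Type} [Fintype α] {N : ℕ} (f : α → Fin N) : Fin N → ℕ :=
  fun i => (univ.filter (fun a => f a = i)).card

open Classical in
lemma fiber_card (α : Type) [Fintype α] [PartialOrder α] (N : ℕ) (c : Fin N → ℕ) (m : ℕ →₀ ℕ)
    (hm : ∀ i, m i = if h : i < N then c ⟨i, h⟩ else 0) :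
    ((univ.filter (fun f : α → Fin N => StrictMono f)).filter (fun f => cont f = c)).card
      = Set.ncard {f : α → ℕ | StrictMono f ∧
          ∀ i : ℕ, (Finset.univ.filter (fun a => f a = i)).card = m i} := by
  have hinj : Function.Injective (fun (f : α → Fin N) (a : α) => (f a : ℕ)) := by
    intro f g hfg; funext a; exact Fin.ext (congrFun hfg a)
  rw [← Set.ncard_coe_finset, ← Set.ncard_image_of_injective _ hinj]
  congr 1
  ext g
  simp only [coe_filter, mem_filter, mem_univ, true_and, Set.mem_image, Set.mem_ofPred_eq]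
  constructor
  · rintro ⟨f, ⟨hf, rfl⟩, rfl⟩
    refine ⟨fun a b hab => hf hab, fun i => ?_⟩
    rw [hm]
    split_ifs with hi
    · unfold cont; congr 1; ext a; simp [Fin.ext_iff]
    · rw [Finset.card_eq_zero, Finset.filter_eq_empty_iff]
      intro a _ ha
      exact hi (ha ▸ (f a).2)
  · rintro ⟨hg, hc⟩
    have hlt : ∀ a, g a < N := by
      intro a
      by_contra hh
      have := hc (g a)
      rw [hm, dif_neg hh, Finset.card_eq_zero, Finset.filter_eq_empty_iff] at this
      exact this (mem_univ a) rfl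
    refine ⟨fun a => ⟨g a, hlt a⟩, ⟨fun a b hab => hg hab, ?_⟩, rfl⟩
    funext i
    have := hc i
    rw [hm, dif_pos i.2] at this
    rw [← this]; unfold cont; congr 1; ext a; simp [Fin.ext_iff]

lemma prod_cont {R : Type} [CommRing R] {α : Type} [Fintype α] {N : ℕ} (x : ℕ → R) (f : α → Fin N) :
    ∏ a, x (f a) = ∏ i : Fin N, x i ^ cont f i := by
  rw [← Finset.prod_fiberwise univ f (fun a => x (f a))]
  refine Finset.prod_congr rfl fun i _ => ?_
  rw [Finset.prod_congr rfl (g := fun _ => x i)]
  · simp [cont]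
  · intro a ha; rw [(Finset.mem_filter.1 ha).2]

open Classical in
lemma ZP_eq {R : Type} [CommRing R] {α β : Type} [Fintype α] [PartialOrder α] [Fintype β]
    [PartialOrder β] (H : SameQ α β) (N : ℕ) (x : ℕ → R) : ZP α N x = ZP β N x := by
  unfold ZP
  rw [← Finset.sum_filter, ← Finset.sum_filter]
  simp only [prod_cont]
  set A := univ.filter (fun f : α → Fin N => StrictMono f)
  set B := univ.filter (fun f : β → Fin N => StrictMono f)
  set T := A.image cont ∪ B.image cont
  rw [← Finset.sum_fiberwise_of_maps_to (s := A) (t := T) (g := cont)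
    (fun f hf => mem_union_left _ (mem_image_of_mem _ hf)),
    ← Finset.sum_fiberwise_of_maps_to (s := B) (t := T) (g := cont)
    (fun f hf => mem_union_right _ (mem_image_of_mem _ hf))]
  refine Finset.sum_congr rfl fun c _ => ?_
  rw [Finset.sum_congr (s₁ := A.filter (fun f => cont f = c)) rfl (g := fun _ => ∏ i : Fin N, x i ^ c i)
      (fun f hf => by rw [(Finset.mem_filter.1 hf).2]),
    Finset.sum_congr (s₁ := B.filter (fun f => cont f = c)) rfl (g := fun _ => ∏ i : Fin N, x i ^ c i)
      (fun f hf => by rw [(Finset.mem_filter.1 hf).2])]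
  let m : ℕ →₀ ℕ := Finsupp.onFinset (range N) (fun i => if h : i < N then c ⟨i, h⟩ else 0) (by
    intro i hi
    by_contra hh
    exact hi (dif_neg (by simpa using hh)))
  have hm : ∀ i, m i = if h : i < N then c ⟨i, h⟩ else 0 := fun i => rfl
  rw [Finset.sum_const, Finset.sum_const, fiber_card α N c m hm, fiber_card β N c m hm, H m]

lemma sum_words {R : Type} [CommRing R] (N : ℕ) (x : ℕ → R) (n : ℕ) (w : Fin n → Bool) (g : ℕ → R) :
    (∑ f : Fin (n + 1) → Fin N,
      if ∀ k : Fin n, ind (w k) (f k.castSucc) (f k.succ) then g (f 0) * ∏ a, x (f a) else 0)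
      = ∑ i ∈ range N, g i * (x i * U N x (List.ofFn w) i) := by
  induction n generalizing g with
  | zero =>
    rw [← Fin.sum_univ_eq_sum_range (fun i => g i * (x i * U N x (List.ofFn w) i))]
    rw [← (Equiv.funUnique (Fin 1) (Fin N)).symm.sum_comp]
    simp [U]
  | succ n ih =>
    rw [← (Fin.consEquiv (fun _ : Fin (n + 2) => Fin N)).sum_comp, Fintype.sum_prod_type,
      ← Fin.sum_univ_eq_sum_range (fun i => g i * (x i * U N x (List.ofFn w) i))]
    refine Finset.sum_congr rfl fun i _ => ?_
    have := ih (fun k => w k.succ) (fun j => if ind (w 0) i j then g i * x i else 0)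
    rw [List.ofFn_succ]
    simp only [U, Finset.mul_sum]
    rw [Finset.sum_congr rfl (g := fun j => (if ind (w 0) i j then g i * x i else 0)
      * (x j * U N x (List.ofFn fun k : Fin n => w k.succ) j)) (fun j _ => by split_ifs <;> ring), ← this]
    refine Finset.sum_congr rfl fun f _ => ?_
    simp only [Fin.consEquiv_apply, Fin.forall_fin_succ, Fin.prod_univ_succ, Fin.cons_zero,
      Fin.cons_succ, Fin.castSucc_zero, ← Fin.succ_castSucc]
    by_cases h1 : ind (w 0) i (f 0) <;> simp [h1, mul_assoc]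

/-- an enumeration of the vertices along the path -/
def Fence {α : Type} [PartialOrder α] {n : ℕ} (e : Fin (n + 1) ≃ α) : Prop :=
  ∀ i j, (e i ⋖ e j ∨ e j ⋖ e i) ↔ (i.val + 1 = j.val ∨ j.val + 1 = i.val)

open Classical in
noncomputable def wd {α : Type} [PartialOrder α] {n : ℕ} (e : Fin (n + 1) ≃ α) (k : Fin n) : Bool :=
  decide (e k.castSucc < e k.succ)

lemma Fence.cov {α : Type} [PartialOrder α] {n : ℕ} {e : Fin (n + 1) ≃ α} (H : Fence e) (i j : Fin (n + 1)) :
    e i ⋖ e j ↔ ∃ k : Fin n, (i = k.castSucc ∧ j = k.succ ∧ wd e k = true) ∨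
      (j = k.castSucc ∧ i = k.succ ∧ wd e k = false) := by
  constructor
  · intro hij
    rcases (H i j).1 (Or.inl hij) with h1 | h1
    · refine ⟨⟨i, by omega⟩, Or.inl ⟨rfl, Fin.ext h1.symm, ?_⟩⟩
      have : j = (⟨i, by omega⟩ : Fin n).succ := Fin.ext h1.symm
      simp only [wd, decide_eq_true_eq, ← this]
      exact hij.lt
    · refine ⟨⟨j, by omega⟩, Or.inr ⟨rfl, Fin.ext h1.symm, ?_⟩⟩
      have : i = (⟨j, by omega⟩ : Fin n).succ := Fin.ext h1.symm
      simp only [wd, decide_eq_false_iff_not, ← this]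
      exact fun hh => lt_asymm hh hij.lt
  · rintro ⟨k, ⟨rfl, rfl, hk⟩ | ⟨rfl, rfl, hk⟩⟩
    · simp only [wd, decide_eq_true_eq] at hk
      rcases (H k.castSucc k.succ).2 (Or.inl rfl) with h1 | h1
      · exact h1
      · exact absurd h1.lt (lt_asymm hk)
    · simp only [wd, decide_eq_false_iff_not] at hk
      rcases (H k.castSucc k.succ).2 (Or.inl rfl) with h1 | h1
      · exact absurd h1.lt hk
      · exact h1

lemma strictMono_iff_cov {α γ : Type} [Fintype α] [PartialOrder α] [Preorder γ] (f : α → γ) :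
    StrictMono f ↔ ∀ a b, a ⋖ b → f a < f b := by
  classical
  let _ : LocallyFiniteOrder α := Fintype.toLocallyFiniteOrder
  exact strictMono_iff_forall_covBy f

lemma Fence.ZP {R : Type} [CommRing R] {α : Type} [Fintype α] [PartialOrder α] {n : ℕ}
    {e : Fin (n + 1) ≃ α} (H : Fence e) (N : ℕ) (x : ℕ → R) :
    ZP α N x = Z N x (List.ofFn (wd e)) := by
  classical
  have := sum_words N x n (wd e) (fun _ => 1)
  simp only [one_mul] at this
  unfold Z
  rw [← this]
  unfold Pool.Agent.Work.MP_be9894_co.ZP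
  rw [← (Equiv.arrowCongr e (Equiv.refl (Fin N))).sum_comp]
  refine Finset.sum_congr rfl fun f _ => ?_
  have h1 : StrictMono ((Equiv.arrowCongr e (Equiv.refl (Fin N))) f)
      ↔ ∀ k : Fin n, ind (wd e k) (f k.castSucc) (f k.succ) := by
    rw [strictMono_iff_cov]
    constructor
    · intro hh k
      cases hk : wd e k
      · have := hh _ _ ((H.cov k.succ k.castSucc).2 ⟨k, Or.inr ⟨rfl, rfl, hk⟩⟩)
        simpa using this
      · have := hh _ _ ((H.cov k.castSucc k.succ).2 ⟨k, Or.inl ⟨rfl, rfl, hk⟩⟩)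
        simpa using this
    · intro hh a b hab
      obtain ⟨i, rfl⟩ := e.surjective a
      obtain ⟨j, rfl⟩ := e.surjective b
      obtain ⟨k, ⟨rfl, rfl, hk⟩ | ⟨rfl, rfl, hk⟩⟩ := (H.cov _ _).1 hab
      · have := hh k; rw [hk] at this; simpa using this
      · have := hh k; rw [hk] at this; simpa using this
  have h2 : ∏ a, x ((Equiv.arrowCongr e (Equiv.refl (Fin N))) f a) = ∏ a, x (f a) := by
    rw [← e.prod_comp]; simp
  rw [h2]
  simp only [h1]

lemma iso_of_cov {α β : Type} [Fintype α] [PartialOrder α] [Fintype β] [PartialOrder β] (φ : α ≃ β)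
    (H : ∀ a b, a ⋖ b ↔ φ a ⋖ φ b) : Nonempty (α ≃o β) := by
  have h1 : StrictMono φ := (strictMono_iff_cov _).2 fun a b hab => ((H a b).1 hab).lt
  have h2 : StrictMono φ.symm := (strictMono_iff_cov _).2 fun a b hab =>
    ((H (φ.symm a) (φ.symm b)).2 (by simpa using hab)).lt
  exact ⟨φ.toOrderIso h1.monotone h2.monotone⟩

lemma Fence.iso {α β : Type} [Fintype α] [PartialOrder α] [Fintype β] [PartialOrder β] {n : ℕ}
    {e : Fin (n + 1) ≃ α} {e' : Fin (n + 1) ≃ β} (H : Fence e) (H' : Fence e') (hw : wd e = wd e') :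
    Nonempty (α ≃o β) := by
  refine iso_of_cov (e.symm.trans e') fun a b => ?_
  obtain ⟨i, rfl⟩ := e.surjective a
  obtain ⟨j, rfl⟩ := e.surjective b
  simp only [Equiv.trans_apply, Equiv.symm_apply_apply, H.cov, H'.cov, hw]

lemma Fence.rev {α : Type} [PartialOrder α] {n : ℕ} {e : Fin (n + 1) ≃ α} (H : Fence e) :
    Fence (Fin.revPerm.trans e) ∧
      List.ofFn (wd (Fin.revPerm.trans e)) = star (List.ofFn (wd e)) := by
  constructor
  · intro i j
    simp only [Equiv.trans_apply, Fin.revPerm_apply, H i.rev j.rev, Fin.val_rev]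
    omega
  · apply List.ext_getElem (by simp)
    intro k h1 h2
    simp only [List.length_ofFn] at h1
    simp only [star, List.getElem_ofFn, List.getElem_reverse, List.getElem_map, List.length_map,
      List.length_ofFn]
    set k' : Fin n := ⟨n - 1 - k, by omega⟩ with hk'
    have a1 : Fin.rev (Fin.castSucc (⟨k, h1⟩ : Fin n)) = k'.succ := by
      apply Fin.ext; simp [hk']; omega
    have a2 : Fin.rev (Fin.succ (⟨k, h1⟩ : Fin n)) = k'.castSucc := by
      apply Fin.ext; simp [hk']; omega
    have a3 : wd (Fin.revPerm.trans e) ⟨k, h1⟩ = !(wd e k') := by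
      unfold wd
      rw [Equiv.trans_apply, Equiv.trans_apply, Fin.revPerm_apply, Fin.revPerm_apply, a1, a2]
      rcases (H k'.castSucc k'.succ).2 (Or.inl rfl) with h3 | h3
      · simp [h3.lt, lt_asymm h3.lt]
      · simp [h3.lt, lt_asymm h3.lt]
    exact a3

theorem fence_main {α β : Type} [Fintype α] [PartialOrder α] [Fintype β] [PartialOrder β] {n : ℕ}
    {e : Fin (n + 1) ≃ α} {e' : Fin (n + 1) ≃ β} (H : Fence e) (H' : Fence e') (Q : SameQ α β) :
    Nonempty (α ≃o β) := by
  have hS : Same (List.ofFn (wd e)) (List.ofFn (wd e')) := by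
    intro N x
    rw [← H.ZP, ← H'.ZP, ZP_eq Q]
  rcases words_main (by simp) hS with h1 | h1
  · exact H.iso H' (List.ofFn_injective h1)
  · rw [← H'.rev.2] at h1
    exact H.iso H'.rev.1 (List.ofFn_injective h1)

end Pool.Agent.Work.MP_be9894_co
end

-- merged part: Pool.Agent.Work.MP_be9894_co.Rooted
section
set_option autoImplicit false

namespace Pool.Agent.Work.MP_be9894_co

open Finset

/-- rooted description of a poset whose Hasse diagram is a tree -/
structure RT (β : Type) [PartialOrder β] where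
  r : β
  p : β → β
  dep : β → ℕ
  pr : p r = r
  dr : dep r = 0
  dp : ∀ v, v ≠ r → dep v = dep (p v) + 1
  adj : ∀ v, v ≠ r → v ⋖ p v ∨ p v ⋖ v
  all : ∀ a b, a ⋖ b → (a ≠ r ∧ p a = b) ∨ (b ≠ r ∧ p b = a)

lemma exists_RT (β : Type) [Fintype β] [PartialOrder β] (hT : (SimpleGraph.hasse β).IsTree) (r : β) :
    ∃ T : RT β, T.r = r := by
  classical
  set G := SimpleGraph.hasse β with hG
  have hc := hT.connected
  have ex : ∀ v, v ≠ r → ∃ u, G.Adj v u ∧ G.dist v r = G.dist u r + 1 := by
    intro v hv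
    obtain ⟨w, hw⟩ := hc.exists_walk_length_eq_dist v r
    cases w with
    | nil => exact absurd rfl hv
    | cons hadj w' =>
      rename_i u
      refine ⟨u, hadj, ?_⟩
      have h1 := SimpleGraph.dist_le w'
      have h2 : G.dist v r ≤ G.dist v u + G.dist u r := hc.dist_triangle
      rw [SimpleGraph.dist_eq_one_iff_adj.2 hadj] at h2
      simp only [SimpleGraph.Walk.length_cons] at hw
      omega
  choose! q hq1 hq2 using ex
  let p : β → β := fun v => if v = r then r else q v
  have hp : ∀ v, v ≠ r → p v = q v := fun v hv => if_neg hv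
  have hsurj : ∀ a b, G.Adj a b → (a ≠ r ∧ p a = b) ∨ (b ≠ r ∧ p b = a) := by
    have hmap : ∀ v ∈ univ.erase r, s(v, q v) ∈ G.edgeFinset := by
      intro v hv
      simpa using hq1 v (Finset.ne_of_mem_erase hv)
    have hinj : Set.InjOn (fun v => s(v, q v)) (univ.erase r : Finset β) := by
      intro u hu v hv huv
      have hu := Finset.ne_of_mem_erase (Finset.mem_coe.1 hu)
      have hv := Finset.ne_of_mem_erase (Finset.mem_coe.1 hv)
      rcases Sym2.eq_iff.1 huv with ⟨h1, _⟩ | ⟨h1, h2⟩
      · exact h1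
      · have a1 := hq2 u hu
        have a2 := hq2 v hv
        rw [h2] at a1; rw [← h1] at a2; omega
    have hcard : G.edgeFinset.card ≤ (univ.erase r).card := by
      have := hT.card_edgeFinset
      rw [Finset.card_erase_of_mem (mem_univ r), Finset.card_univ]; omega
    have hs := Finset.surjOn_of_injOn_of_card_le _ (fun v hv => hmap v hv) hinj hcard
    intro a b hab
    obtain ⟨v, hv, hv2⟩ := hs (show s(a, b) ∈ (G.edgeFinset : Set (Sym2 β)) by simpa using hab)
    have hv := Finset.ne_of_mem_erase (Finset.mem_coe.1 hv)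
    rcases Sym2.eq_iff.1 hv2 with ⟨h1, h2⟩ | ⟨h1, h2⟩
    · left; subst h1; exact ⟨hv, by rw [hp _ hv, h2]⟩
    · right; subst h1; exact ⟨hv, by rw [hp _ hv, h2]⟩
  refine ⟨⟨r, p, fun v => G.dist v r, if_pos rfl, by simp, fun v hv => ?_, fun v hv => ?_,
    fun a b hab => hsurj a b (Or.inl hab)⟩, rfl⟩
  · rw [hp v hv]; exact hq2 v hv
  · rw [hp v hv]; exact hq1 v hv

namespace RT

variable {β : Type} [PartialOrder β] (T : RT β)

lemma eq_r_of_dep {v : β} (h : T.dep v = 0) : v = T.r := by
  by_contra hv
  have := T.dp v hv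
  omega

lemma dep_p (v : β) : T.dep (T.p v) = T.dep v - 1 := by
  by_cases hv : v = T.r
  · rw [hv, T.pr, T.dr]
  · have := T.dp v hv; omega

lemma dep_iter (k : ℕ) (v : β) : T.dep (T.p^[k] v) = T.dep v - k := by
  induction k with
  | zero => rfl
  | succ k ih => rw [Function.iterate_succ_apply', dep_p, ih]; omega

/-- `anc v u`: `v` is an ancestor of `u` (or equal) -/
def anc (v u : β) : Prop := ∃ k, T.p^[k] u = v

lemma anc_refl (v : β) : T.anc v v := ⟨0, rfl⟩
lemma anc_trans {a b c : β} (h1 : T.anc a b) (h2 : T.anc b c) : T.anc a c := by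
  obtain ⟨k, rfl⟩ := h1
  obtain ⟨l, rfl⟩ := h2
  exact ⟨k + l, Function.iterate_add_apply _ _ _ _⟩
lemma anc_p (v : β) : T.anc (T.p v) v := ⟨1, rfl⟩
lemma anc_root (v : β) : T.anc T.r v :=
  ⟨T.dep v, T.eq_r_of_dep (by rw [dep_iter]; omega)⟩
lemma anc_dep {v u : β} (h : T.anc v u) : T.dep v ≤ T.dep u := by
  obtain ⟨k, rfl⟩ := h; rw [dep_iter]; omega
lemma anc_eq {v u : β} (h : T.anc v u) (hd : T.dep u ≤ T.dep v) : v = u := by
  obtain ⟨k, rfl⟩ := h
  rw [dep_iter] at hd
  rcases Nat.eq_zero_or_pos k with rfl | hk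
  · rfl
  · have h0 : T.dep u = 0 := by omega
    rw [T.eq_r_of_dep h0]
    exact Function.iterate_fixed T.pr k
lemma anc_antisymm {v u : β} (h : T.anc v u) (h' : T.anc u v) : v = u := T.anc_eq h (T.anc_dep h')
lemma anc_total {a b u : β} (h1 : T.anc a u) (h2 : T.anc b u) : T.anc a b ∨ T.anc b a := by
  obtain ⟨k, rfl⟩ := h1
  obtain ⟨l, rfl⟩ := h2
  rcases le_total k l with h | h
  · right; obtain ⟨d, rfl⟩ := Nat.exists_eq_add_of_le h
    exact ⟨d, by rw [add_comm, Function.iterate_add_apply]⟩
  · left; obtain ⟨d, rfl⟩ := Nat.exists_eq_add_of_le h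
    exact ⟨d, by rw [add_comm, Function.iterate_add_apply]⟩
lemma anc_step {v u : β} (h : T.anc v u) (hne : v ≠ u) : T.anc v (T.p u) := by
  obtain ⟨k, rfl⟩ := h
  cases k with
  | zero => exact absurd rfl hne
  | succ k => exact ⟨k, rfl⟩
lemma not_anc_root {v : β} (hv : v ≠ T.r) : ¬ T.anc v T.r := fun h =>
  hv (T.anc_eq h (by rw [T.dr]; omega))

variable [Fintype β]

open Classical in
noncomputable def desc (v : β) : Finset β := univ.filter (T.anc v)

lemma mem_desc {v u : β} : u ∈ T.desc v ↔ T.anc v u := by simp [desc]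

noncomputable def sz (v : β) : ℕ := (T.desc v).card

lemma sz_pos (v : β) : 1 ≤ T.sz v := Finset.card_pos.2 ⟨v, T.mem_desc.2 (T.anc_refl v)⟩

lemma sz_lt {v : β} (hv : v ≠ T.r) : T.sz v < Fintype.card β := by
  apply Finset.card_lt_card
  refine Finset.ssubset_iff_subset_ne.2 ⟨Finset.subset_univ _, fun h => ?_⟩
  exact T.not_anc_root hv (T.mem_desc.1 (h ▸ mem_univ _))

lemma sz_lt_of_anc {v u : β} (h : T.anc v u) (hne : v ≠ u) : T.sz u < T.sz v := by
  apply Finset.card_lt_card
  refine Finset.ssubset_iff_subset_ne.2 ⟨fun w hw => T.mem_desc.2 (T.anc_trans h (T.mem_desc.1 hw)),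
    fun he => hne ?_⟩
  exact T.anc_antisymm h (T.mem_desc.1 (he ▸ T.mem_desc.2 (T.anc_refl v)))

open Classical in
/-- at most `n + 1 - 2k` edges have both sides of size at least `k` -/
lemma good_card (k : ℕ) (hk : 1 ≤ k) (hkn : 2 * k ≤ Fintype.card β) :
    ((univ.erase T.r).filter (fun v => k ≤ T.sz v ∧ T.sz v + k ≤ Fintype.card β)).card + 2 * k
      ≤ Fintype.card β + 1 := by
  set n := Fintype.card β with hn
  set Gd := (univ.erase T.r).filter (fun v => k ≤ T.sz v ∧ T.sz v + k ≤ n) with hGd
  have memG : ∀ v, v ∈ Gd ↔ v ≠ T.r ∧ k ≤ T.sz v ∧ T.sz v + k ≤ n := by intro v; simp [hGd]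
  rcases Gd.eq_empty_or_nonempty with h0 | hne
  · rw [h0]; simp; omega
  -- minimal good vertices have bad proper descendants
  have minbad : ∀ S : Finset β, S ⊆ Gd → S.Nonempty → (∀ v ∈ S, ∀ u ∈ Gd, T.anc v u → u ∈ S) →
      ∃ v ∈ S, Disjoint ((T.desc v).erase v) Gd := by
    intro S hS hSne hcl
    obtain ⟨v, hv, hmin⟩ := S.exists_min_image T.sz hSne
    refine ⟨v, hv, Finset.disjoint_left.2 fun u hu huG => ?_⟩
    have h1 := T.mem_desc.1 (Finset.mem_of_mem_erase hu)
    have := T.sz_lt_of_anc h1 (Finset.ne_of_mem_erase hu).symm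
    have := hmin u (hcl v hv u huG h1)
    omega
  have fin : ∀ A B : Finset β, Disjoint A B → Disjoint A Gd → Disjoint B Gd → T.r ∉ A → T.r ∉ B →
      k ≤ A.card + 1 → k ≤ B.card + 1 → Gd.card + 2 * k ≤ n + 1 := by
    intro A B h1 h2 h3 h4 h5 h6 h7
    have hsub : (A ∪ B) ∪ Gd ⊆ univ.erase T.r := by
      intro u hu
      simp only [mem_union] at hu
      refine Finset.mem_erase.2 ⟨?_, mem_univ _⟩
      rintro rfl
      rcases hu with (hu | hu) | hu
      · exact h4 hu
      · exact h5 hu
      · exact ((memG _).1 hu).1 rfl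
    have := Finset.card_le_card hsub
    rw [Finset.card_union_of_disjoint (Finset.disjoint_union_left.2 ⟨h2, h3⟩),
      Finset.card_union_of_disjoint h1, Finset.card_erase_of_mem (mem_univ _), Finset.card_univ] at this
    omega
  have szA : ∀ v ∈ Gd, k ≤ ((T.desc v).erase v).card + 1 ∧ T.r ∉ (T.desc v).erase v := by
    intro v hv
    obtain ⟨h1, h2, _⟩ := (memG v).1 hv
    rw [Finset.card_erase_of_mem (T.mem_desc.2 (T.anc_refl v))]
    refine ⟨by unfold sz at h2; omega, fun h => ?_⟩
    exact T.not_anc_root h1 (T.mem_desc.1 (Finset.mem_of_mem_erase h))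
  obtain ⟨v1, hv1, hd1⟩ := minbad Gd (Finset.Subset.refl _) hne (fun _ _ u hu _ => hu)
  by_cases hall : ∀ v ∈ Gd, T.anc v v1
  · obtain ⟨u, hu, hmax⟩ := Gd.exists_max_image T.sz hne
    have hbelow : ∀ v ∈ Gd, T.anc u v := by
      intro v hv
      rcases T.anc_total (hall u hu) (hall v hv) with h | h
      · exact h
      · by_cases he : v = u
        · rw [he]; exact T.anc_refl _
        · have := T.sz_lt_of_anc h he
          have := hmax v hv
          omega
    obtain ⟨h1, h2, h3⟩ := (memG u).1 hu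
    refine fin ((T.desc v1).erase v1) ((T.desc u)ᶜ.erase T.r) ?_ hd1 ?_ (szA v1 hv1).2 (by simp)
      (szA v1 hv1).1 ?_
    · refine Finset.disjoint_left.2 fun w hw hw2 => ?_
      have := Finset.mem_compl.1 (Finset.mem_of_mem_erase hw2)
      exact this (T.mem_desc.2 (T.anc_trans (hall u hu) (T.mem_desc.1 (Finset.mem_of_mem_erase hw))))
    · refine Finset.disjoint_left.2 fun w hw hw2 => ?_
      exact Finset.mem_compl.1 (Finset.mem_of_mem_erase hw) (T.mem_desc.2 (hbelow w hw2))
    · rw [Finset.card_erase_of_mem (Finset.mem_compl.2 fun h => T.not_anc_root h1 (T.mem_desc.1 h)),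
        Finset.card_compl]
      unfold sz at h3; omega
  · push Not at hall
    obtain ⟨v, hv, hnv⟩ := hall
    obtain ⟨v3, hv3, hd3⟩ := minbad (Gd.filter (T.anc v)) (Finset.filter_subset _ _)
      ⟨v, Finset.mem_filter.2 ⟨hv, T.anc_refl v⟩⟩
      (fun a ha u hu hau => Finset.mem_filter.2 ⟨hu, T.anc_trans (Finset.mem_filter.1 ha).2 hau⟩)
    obtain ⟨hv3G, hv3a⟩ := Finset.mem_filter.1 hv3
    refine fin ((T.desc v1).erase v1) ((T.desc v3).erase v3) ?_ hd1 hd3 (szA v1 hv1).2 (szA v3 hv3G).2
      (szA v1 hv1).1 (szA v3 hv3G).1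
    refine Finset.disjoint_left.2 fun w hw hw2 => ?_
    rcases T.anc_total (T.mem_desc.1 (Finset.mem_of_mem_erase hw))
      (T.mem_desc.1 (Finset.mem_of_mem_erase hw2)) with h | h
    · by_cases he : v3 = v1
      · exact hnv (he ▸ hv3a)
      · exact Finset.disjoint_left.1 hd1 (Finset.mem_erase.2 ⟨he, T.mem_desc.2 h⟩) hv3G
    · exact hnv (T.anc_trans hv3a h)

/-- no siblings gives a path enumeration -/
lemma fence_of_chain (n : ℕ) (hn : Fintype.card β = n + 1)
    (H : ∀ u u', u ≠ T.r → u' ≠ T.r → T.p u = T.p u' → u = u') :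
    ∃ e : Fin (n + 1) ≃ β, Fence e := by
  classical
  have inj : ∀ k u u', T.dep u = k → T.dep u' = k → u = u' := by
    intro k
    induction k with
    | zero => intro u u' h1 h2; rw [T.eq_r_of_dep h1, T.eq_r_of_dep h2]
    | succ k ih =>
      intro u u' h1 h2
      have a1 : u ≠ T.r := fun h => by rw [h, T.dr] at h1; omega
      have a2 : u' ≠ T.r := fun h => by rw [h, T.dr] at h2; omega
      exact H u u' a1 a2 (ih _ _ (by rw [T.dep_p]; omega) (by rw [T.dep_p]; omega))
  have lt : ∀ u, T.dep u < n + 1 := by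
    intro u
    have hsub : range (T.dep u + 1) ⊆ univ.image T.dep := by
      intro j hj
      have hj := Finset.mem_range.1 hj
      exact Finset.mem_image.2 ⟨T.p^[T.dep u - j] u, mem_univ _, by rw [T.dep_iter]; omega⟩
    have := (Finset.card_le_card hsub).trans Finset.card_image_le
    rw [Finset.card_range, Finset.card_univ] at this
    omega
  let d : β → Fin (n + 1) := fun u => ⟨T.dep u, lt u⟩
  have hd : Function.Bijective d := by
    rw [Fintype.bijective_iff_injective_and_card]
    exact ⟨fun u u' h => inj _ u u' (congrArg Fin.val h) rfl, by simp [hn]⟩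
  refine ⟨(Equiv.ofBijective d hd).symm, fun i j => ?_⟩
  obtain ⟨u, rfl⟩ := hd.2 i
  obtain ⟨v, rfl⟩ := hd.2 j
  have e1 : ∀ w, (Equiv.ofBijective d hd).symm (d w) = w := fun w =>
    (Equiv.ofBijective d hd).symm_apply_apply w
  rw [e1, e1]
  show _ ↔ (T.dep u + 1 = T.dep v ∨ T.dep v + 1 = T.dep u)
  constructor
  · rintro (h | h) <;> rcases T.all _ _ h with ⟨h1, h2⟩ | ⟨h1, h2⟩ <;> have := T.dp _ h1 <;>
      rw [h2] at this <;> omega
  · have key : ∀ a b, T.dep a + 1 = T.dep b → (a ⋖ b ∨ b ⋖ a) := by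
      intro a b hab
      have hb : b ≠ T.r := fun h => by rw [h, T.dr] at hab; omega
      have : T.p b = a := inj _ _ _ (by rw [T.dep_p]; omega) rfl
      rw [← this]; exact (T.adj b hb).symm
    rintro (h | h)
    · exact key _ _ h
    · exact (key _ _ h).symm

open Classical in
/-- siblings force three edges with a side of size one, if the root is a leaf -/
lemma siblings (hr : ∀ u u', u ≠ T.r → u' ≠ T.r → T.p u = T.r → T.p u' = T.r → u = u')
    {u u' : β} (hu : u ≠ T.r) (hu' : u' ≠ T.r) (hp : T.p u = T.p u') (hne : u ≠ u') :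
    4 ≤ Fintype.card β ∧
    ((univ.erase T.r).filter (fun v => 2 ≤ T.sz v ∧ T.sz v + 2 ≤ Fintype.card β)).card + 4
      ≤ Fintype.card β := by
  set n := Fintype.card β with hn
  have hq : T.p u ≠ T.r := fun h => hne (hr u u' hu hu' h (hp ▸ h))
  have d1 := T.dp u hu
  have d2 := T.dp u' hu'
  have d3 := T.dp _ hq
  -- the child of the root
  set c := T.p^[T.dep u - 1] u with hc
  have dc : T.dep c = 1 := by rw [hc, T.dep_iter]; omega
  have cr : c ≠ T.r := fun h => by rw [h, T.dr] at dc; omega
  have pc : T.p c = T.r := T.eq_r_of_dep (by rw [T.dep_p]; omega)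
  have allc : ∀ w, w ≠ T.r → T.anc c w := by
    intro w hw
    have dw := T.dp w hw
    have a1 : T.dep (T.p^[T.dep w - 1] w) = 1 := by rw [T.dep_iter]; omega
    refine ⟨T.dep w - 1, hr _ _ (fun h => by rw [h, T.dr] at a1; omega) cr
      (T.eq_r_of_dep (by rw [T.dep_p]; omega)) pc⟩
  have szc : T.sz c + 1 = n := by
    have : T.desc c = univ.erase T.r := by
      ext w
      simp only [T.mem_desc, mem_erase, mem_univ, and_true]
      exact ⟨fun h hw => T.not_anc_root cr (hw ▸ h), allc w⟩
    unfold sz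
    rw [this, Finset.card_erase_of_mem (mem_univ _), Finset.card_univ]
    have : 0 < Fintype.card β := Fintype.card_pos_iff.2 ⟨c⟩
    omega
  have leaf : ∀ w, ∃ l, T.anc w l ∧ T.sz l = 1 := by
    intro w
    obtain ⟨l, hl, hmin⟩ := (T.desc w).exists_min_image T.sz ⟨w, T.mem_desc.2 (T.anc_refl w)⟩
    refine ⟨l, T.mem_desc.1 hl, ?_⟩
    unfold sz
    rw [Finset.card_eq_one]
    refine ⟨l, Finset.eq_singleton_iff_unique_mem.2 ⟨T.mem_desc.2 (T.anc_refl l), fun x hx => ?_⟩⟩
    by_contra hxl
    have := T.sz_lt_of_anc (T.mem_desc.1 hx) (Ne.symm hxl)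
    have := hmin x (T.mem_desc.2 (T.anc_trans (T.mem_desc.1 hl) (T.mem_desc.1 hx)))
    omega
  obtain ⟨l, hl, sl⟩ := leaf u
  obtain ⟨l', hl', sl'⟩ := leaf u'
  have ll : l ≠ l' := by
    rintro rfl
    rcases T.anc_total hl hl' with h | h
    · exact hne (T.anc_eq h (by rw [hp] at d1; omega))
    · exact hne (T.anc_eq h (by rw [hp] at d1; omega)).symm
  have dl := T.anc_dep hl
  have dl' := T.anc_dep hl'
  rw [← hp] at d2
  have lc : l ≠ c := fun h => by rw [h] at dl; omega
  have lc' : l' ≠ c := fun h => by rw [h] at dl'; omega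
  have lr : l ≠ T.r := fun h => by rw [h, T.dr] at dl; omega
  have lr' : l' ≠ T.r := fun h => by rw [h, T.dr] at dl'; omega
  set Gd := (univ.erase T.r).filter (fun v => 2 ≤ T.sz v ∧ T.sz v + 2 ≤ n) with hGd
  have hdis : Disjoint Gd {T.r, c, l, l'} := by
    refine Finset.disjoint_left.2 fun w hw hw2 => ?_
    simp only [hGd, mem_filter, mem_erase, mem_univ, and_true] at hw
    simp only [mem_insert, mem_singleton] at hw2
    rcases hw2 with rfl | rfl | rfl | rfl
    · exact hw.1 rfl
    · omega
    · omega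
    · omega
  have h4 : ({T.r, c, l, l'} : Finset β).card = 4 := by
    rw [Finset.card_insert_of_notMem (by simp [cr.symm, lr.symm, lr'.symm]),
      Finset.card_insert_of_notMem (by simp [lc.symm, lc'.symm]), Finset.card_pair ll]
  have := Finset.card_le_univ (Gd ∪ {T.r, c, l, l'})
  rw [Finset.card_union_of_disjoint hdis, h4] at this
  omega

end RT

end Pool.Agent.Work.MP_be9894_co
end

-- merged part: Pool.Agent.Work.MP_be9894_co.Roots
section
set_option autoImplicit false

namespace Pool.Agent.Work.MP_be9894_co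

open Finset Polynomial

section ops
variable {N : ℕ} {ω : ℂ} (hω : IsPrimitiveRoot ω N)
include hω

lemma op_poly (hN : 0 < N) (b : Bool) (Q : ℂ[X]) (m : ℕ) (h0 : Q.coeff 0 = 0) (hm : Q.natDegree ≤ m)
    (hm1 : 1 ≤ m) (hmN : m < N) :
    ∃ P : ℂ[X], P.natDegree ≤ m ∧ ‖P.coeff m‖ * ‖ω ^ m - 1‖ = ‖Q.coeff m‖ ∧
      ∀ i < N, (∑ j ∈ range N, if ind b i j then Q.eval (ω ^ j) else 0) = P.eval (ω ^ i) := by
  have hne : ∀ k, 1 ≤ k → k ≤ m → ω ^ k - 1 ≠ 0 := fun k h1 h2 =>
    sub_ne_zero.2 (hω.pow_ne_one_of_pos_of_lt (by omega) (by omega))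
  set P : ℂ[X] := ∑ k ∈ range (m + 1), C (Q.coeff k / (ω ^ k - 1)) * (X ^ k - 1) with hP
  have hdeg : P.natDegree ≤ m := by
    refine natDegree_sum_le_of_forall_le _ _ fun k hk => ?_
    have hk := Finset.mem_range.1 hk
    refine (natDegree_C_mul_le _ _).trans ((natDegree_sub_le _ _).trans ?_)
    simp; omega
  have hco : P.coeff m = Q.coeff m / (ω ^ m - 1) := by
    rw [hP, finsetSum_coeff, Finset.sum_eq_single m]
    · rw [coeff_C_mul, coeff_sub, coeff_X_pow, coeff_one, if_pos rfl, if_neg (by omega)]; simp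
    · intro k _ hk
      rw [coeff_C_mul, coeff_sub, coeff_X_pow, coeff_one, if_neg (Ne.symm hk), if_neg (by omega)]; simp
    · intro h; simp at h
  have hsum : ∀ i, ∑ j ∈ range i, Q.eval (ω ^ j) = P.eval (ω ^ i) := by
    intro i
    induction i with
    | zero => simp [hP, eval_finsetSum]
    | succ i ih =>
      rw [Finset.sum_range_succ, ih, eval_eq_sum_range' (Nat.lt_succ_of_le hm)]
      simp only [hP, eval_finsetSum, eval_mul, eval_C, eval_sub, eval_pow, eval_X, eval_one,
        ← Finset.sum_add_distrib]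
      refine Finset.sum_congr rfl fun k hk => ?_
      have hk := Finset.mem_range.1 hk
      rcases Nat.eq_zero_or_pos k with rfl | hk0
      · simp [h0]
      · have := hne k hk0 (by omega)
        field_simp
        ring
  have htot : ∑ j ∈ range N, Q.eval (ω ^ j) = 0 := by
    rw [hsum, hω.pow_eq_one]; simp [hP, eval_finsetSum]
  have hlow : ∀ i ≤ N, (∑ j ∈ range N, if j < i then Q.eval (ω ^ j) else 0) = P.eval (ω ^ i) := by
    intro i hi
    rw [← Finset.sum_filter, ← hsum]
    congr 1; ext j; simp; omega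
  have hn1 : ‖ω‖ = 1 := hω.norm'_eq_one hN.ne'
  cases b
  · refine ⟨P, hdeg, ?_, fun i hi => by simpa using hlow i hi.le⟩
    rw [hco, ← norm_mul, div_mul_cancel₀ _ (hne m hm1 le_rfl)]
  · refine ⟨-P - Q, ?_, ?_, fun i hi => ?_⟩
    · exact (natDegree_sub_le _ _).trans (by simp [hdeg, hm])
    · rw [← norm_mul, coeff_sub, coeff_neg, hco]
      have := hne m hm1 le_rfl
      rw [show (-(Q.coeff m / (ω ^ m - 1)) - Q.coeff m) * (ω ^ m - 1) = -(Q.coeff m * ω ^ m) by
        field_simp; ring]
      simp [hn1]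
    · have h1 := hlow (i + 1) hi
      rw [← hsum, Finset.sum_range_succ, hsum] at h1
      have h2 : (∑ j ∈ range N, if ind true i j then Q.eval (ω ^ j) else 0)
          + (∑ j ∈ range N, if j < i + 1 then Q.eval (ω ^ j) else 0) = 0 := by
        rw [← Finset.sum_add_distrib]
        refine Eq.trans (Finset.sum_congr rfl fun j _ => ?_) htot
        simp only [ind_true]
        split_ifs <;> first | omega | simp
      rw [eval_sub, eval_neg]
      linear_combination h2 - h1

lemma top_poly (Q : ℂ[X]) (h0 : Q.coeff 0 = 0) (hm : Q.natDegree ≤ N) :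
    ∑ j ∈ range N, Q.eval (ω ^ j) = N * Q.coeff N := by
  simp only [eval_eq_sum_range' (Nat.lt_succ_of_le hm)]
  rw [Finset.sum_comm, Finset.sum_range_succ, Finset.sum_eq_zero]
  · have : ∀ x : ℕ, (ω ^ x) ^ N = 1 := fun x => by
      rw [← pow_mul, mul_comm, pow_mul, hω.pow_eq_one, one_pow]
    simp [this]
  · intro k hk
    have hk := Finset.mem_range.1 hk
    rcases Nat.eq_zero_or_pos k with rfl | hk0
    · simp [h0]
    · rw [← Finset.mul_sum]
      have hne : ω ^ k - 1 ≠ 0 := sub_ne_zero.2 (hω.pow_ne_one_of_pos_of_lt (by omega) hk)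
      have := geom_sum_mul (ω ^ k) N
      rw [← pow_mul, mul_comm k N, pow_mul, hω.pow_eq_one, one_pow, sub_self] at this
      have h2 : ∑ j ∈ range N, (ω ^ j) ^ k = 0 := by
        rw [← (mul_eq_zero.1 this).resolve_right hne]
        refine Finset.sum_congr rfl fun j _ => ?_
        rw [← pow_mul, ← pow_mul, mul_comm]
      rw [h2, mul_zero]

lemma word_poly (hN : 0 < N) (w : List Bool) (hw : w.length < N) :
    ∃ P : ℂ[X], P.natDegree ≤ w.length ∧
      ‖P.coeff w.length‖ * ∏ k ∈ range w.length, ‖ω ^ (k + 1) - 1‖ = 1 ∧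
      ∀ i < N, U N (fun j => ω ^ j) w i = P.eval (ω ^ i) := by
  induction w with
  | nil => exact ⟨1, by simp, by simp, fun i _ => by simp [U]⟩
  | cons b w ih =>
    simp only [List.length_cons] at hw ⊢
    obtain ⟨P, h1, h2, h3⟩ := ih (by omega)
    obtain ⟨P', a1, a2, a3⟩ := op_poly hω hN b (X * P) (w.length + 1) (by simp)
      (natDegree_mul_le.trans (by simp; omega)) (by omega) hw
    refine ⟨P', a1, ?_, fun i hi => ?_⟩
    · rw [coeff_X_mul] at a2
      rw [Finset.prod_range_succ, mul_comm (∏ k ∈ range w.length, _), ← mul_assoc, a2, h2]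
    · rw [← a3 i hi]
      simp only [U]
      refine Finset.sum_congr rfl fun j hj => ?_
      rw [h3 j (Finset.mem_range.1 hj)]; simp

lemma word_norm (w : List Bool) (hw : w.length + 1 = N) :
    ‖Z N (fun j => ω ^ j) w‖ * ∏ k ∈ range w.length, ‖ω ^ (k + 1) - 1‖ = N := by
  obtain ⟨P, h1, h2, h3⟩ := word_poly hω (by omega) w (by omega)
  have := top_poly hω (X * P) (by simp) (natDegree_mul_le.trans (by simp; omega))
  have e : Z N (fun j => ω ^ j) w = ∑ j ∈ range N, (X * P).eval (ω ^ j) := by
    unfold Z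
    refine Finset.sum_congr rfl fun j hj => ?_
    rw [h3 j (Finset.mem_range.1 hj)]; simp
  rw [e, this, norm_mul]
  have c : (X * P).coeff N = P.coeff w.length := by rw [← hw, coeff_X_mul]
  rw [c, mul_assoc, h2]; simp

end ops

lemma sum_update {β : Type} [Fintype β] [DecidableEq β] (N : ℕ) (F : (β → Fin N) → ℂ) (l : β) :
    (N : ℂ) * ∑ f, F f = ∑ f : β → Fin N, ∑ j : Fin N, F (Function.update f l j) := by
  have : (N : ℂ) * ∑ f, F f = ∑ x : (β → Fin N) × Fin N, F x.1 := by
    rw [Fintype.sum_prod_type]; simp [Finset.mul_sum]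
  rw [this, ← Fintype.sum_prod_type']
  let e : (β → Fin N) × Fin N → (β → Fin N) × Fin N := fun x => (Function.update x.1 l x.2, x.1 l)
  have he : Function.Involutive e := by
    rintro ⟨f, j⟩; simp [e]
  exact (Equiv.sum_comp he.toPerm (fun x : (β → Fin N) × Fin N => F x.1)).symm

namespace RT

variable {β : Type} [PartialOrder β] [Fintype β] (T : RT β)

open Classical in
noncomputable def con (v : β) (i j : ℕ) : ℂ := if ind (decide (T.p v < v)) i j then 1 else 0

open Classical in
lemma ZP_con (N : ℕ) (x : ℕ → ℂ) : ZP β N x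
    = ∑ f : β → Fin N, (∏ v, x (f v)) * ∏ v ∈ univ.erase T.r, T.con v (f (T.p v)) (f v) := by
  unfold ZP
  refine Finset.sum_congr rfl fun f _ => ?_
  have h1 : StrictMono f ↔ ∀ v ∈ univ.erase T.r, ind (decide (T.p v < v)) (f (T.p v)) (f v) := by
    rw [strictMono_iff_cov]
    constructor
    · intro H v hv
      rcases T.adj v (Finset.ne_of_mem_erase hv) with h | h
      · have := H _ _ h
        simpa [lt_asymm h.lt] using this
      · have := H _ _ h
        simpa [h.lt] using this
    · intro H a b hab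
      rcases T.all a b hab with ⟨h1, h2⟩ | ⟨h1, h2⟩
      · have := H a (Finset.mem_erase.2 ⟨h1, mem_univ _⟩)
        rw [h2] at this
        simpa [lt_asymm hab.lt] using this
      · have := H b (Finset.mem_erase.2 ⟨h1, mem_univ _⟩)
        rw [h2] at this
        simpa [hab.lt] using this
  unfold con
  rw [Finset.prod_ite_zero]
  simp only [h1, Finset.prod_const_one]
  split_ifs <;> simp

open Classical in
def Inv (ω : ℂ) (W : Finset β) : Prop :=
  T.r ∈ W ∧ (∀ v ∈ W, T.p v ∈ W) ∧ ∃ (π : β → β) (P : β → ℂ[X]),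
    (∀ u, π u ∈ W) ∧ (∀ u, ∀ v ∈ W, T.anc v u ↔ T.anc v (π u)) ∧
    (∀ v ∈ W, (P v).coeff 0 = 0 ∧ (P v).natDegree ≤ (univ.filter (fun u => π u = v)).card) ∧
    (∏ v ∈ W, ‖(P v).coeff (univ.filter (fun u => π u = v)).card‖) * ∏ v ∈ Wᶜ, ‖ω ^ T.sz v - 1‖ = 1 ∧
    (Fintype.card β : ℂ) ^ Wᶜ.card * ZP β (Fintype.card β) (fun j => ω ^ j)
      = ∑ f : β → Fin (Fintype.card β), (∏ v ∈ W, (P v).eval (ω ^ (f v : ℕ)))
        * ∏ v ∈ W.erase T.r, T.con v (f (T.p v)) (f v)

open Classical in
lemma inv_univ (ω : ℂ) : T.Inv ω univ := by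
  have c : ∀ v : β, (univ.filter (fun u => id u = v)).card = 1 := fun v =>
    Finset.card_eq_one.2 ⟨v, by ext; simp⟩
  refine ⟨mem_univ _, fun _ _ => mem_univ _, id, fun _ => X, fun _ => mem_univ _, fun _ _ _ => Iff.rfl,
    fun v _ => ?_, ?_, ?_⟩
  · rw [c]; simp
  · simp only [c]; simp
  · simp [ZP_con T]

open Classical in
lemma inv_step {ω : ℂ} (hω : IsPrimitiveRoot ω (Fintype.card β)) (W : Finset β) (hW : T.Inv ω W)
    (hne : (W.erase T.r).Nonempty) : ∃ l ∈ W, T.Inv ω (W.erase l) := by
  set N := Fintype.card β with hN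
  obtain ⟨hr, hp, π, P, h1, h2, h3, h4, h5⟩ := hW
  obtain ⟨l, hl, hmax⟩ := (W.erase T.r).exists_max_image T.dep hne
  obtain ⟨hlr, hlW⟩ := Finset.mem_erase.1 hl
  have dl := T.dp l hlr
  have hleaf : ∀ v ∈ W, T.anc l v → v = l := by
    intro v hv ha
    by_cases hvr : v = T.r
    · exact absurd (hvr ▸ ha) (T.not_anc_root hlr)
    · exact (T.anc_eq ha (hmax v (Finset.mem_erase.2 ⟨hvr, hv⟩))).symm
  have hpl : T.p l ≠ l := fun h => by rw [h] at dl; omega
  have hpne : ∀ v ∈ W, v ≠ l → T.p v ≠ l := by
    intro v hv hvl h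
    exact hvl (hleaf v hv (h ▸ T.anc_p v))
  have hszl : (univ.filter (fun u => π u = l)) = T.desc l := by
    ext u
    simp only [mem_filter, mem_univ, true_and, T.mem_desc, h2 u l hlW]
    exact ⟨fun h => h ▸ T.anc_refl _, hleaf _ (h1 u)⟩
  have hN0 : 0 < N := Fintype.card_pos_iff.2 ⟨l⟩
  obtain ⟨Q, q1, q2, q3⟩ := op_poly hω hN0 (decide (T.p l < l)) (P l) (T.sz l) (h3 l hlW).1
    (by have := (h3 l hlW).2; rwa [hszl] at this) (T.sz_pos l) (T.sz_lt hlr)
  let π' : β → β := fun u => if π u = l then T.p l else π u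
  let P' : β → ℂ[X] := Function.update P (T.p l) (P (T.p l) * Q)
  have hplW : T.p l ∈ W.erase l := Finset.mem_erase.2 ⟨hpl, hp l hlW⟩
  have c1 : (univ.filter (fun u => π' u = T.p l)).card
      = (univ.filter (fun u => π u = T.p l)).card + T.sz l := by
    unfold sz
    rw [← hszl, ← Finset.card_union_of_disjoint]
    · congr 1; ext u
      simp only [π', mem_filter, mem_univ, true_and, mem_union]
      split_ifs with h <;> simp [h]
    · refine Finset.disjoint_left.2 fun u hu hu2 => ?_
      simp only [mem_filter, mem_univ, true_and] at hu hu2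
      exact hpl (hu.symm.trans hu2)
  have c2 : ∀ v, v ≠ l → v ≠ T.p l →
      (univ.filter (fun u => π' u = v)) = (univ.filter (fun u => π u = v)) := by
    intro v hv1 hv2
    ext u
    simp only [π', mem_filter, mem_univ, true_and]
    split_ifs with h
    · rw [h]; exact ⟨fun h => absurd h.symm hv2, fun h => absurd h.symm hv1⟩
    · rfl
  have hcompl : (W.erase l)ᶜ = insert l Wᶜ := by
    ext u; simp only [mem_compl, mem_erase, mem_insert]; tauto
  have hlc : l ∉ Wᶜ := by simpa using hlW
  refine ⟨l, hlW, Finset.mem_erase.2 ⟨hlr.symm, hr⟩, fun v hv => ?_, π', P', fun u => ?_,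
    fun u v hv => ?_, fun v hv => ?_, ?_, ?_⟩
  · obtain ⟨a, b⟩ := Finset.mem_erase.1 hv
    exact Finset.mem_erase.2 ⟨hpne v b a, hp v b⟩
  · simp only [π']
    split_ifs with h
    · exact hplW
    · exact Finset.mem_erase.2 ⟨h, h1 u⟩
  · obtain ⟨a, b⟩ := Finset.mem_erase.1 hv
    rw [h2 u v b]
    simp only [π']
    split_ifs with h
    · rw [h]; exact ⟨fun hh => T.anc_step hh a, fun hh => T.anc_trans hh (T.anc_p l)⟩
    · rfl
  · obtain ⟨a, b⟩ := Finset.mem_erase.1 hv
    by_cases hv2 : v = T.p l
    · subst hv2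
      simp only [P', Function.update_self, c1]
      exact ⟨by simp [(h3 _ b).1], natDegree_mul_le.trans (add_le_add (h3 _ b).2 q1)⟩
    · simp only [P', Function.update_of_ne hv2, c2 v a hv2]
      exact h3 v b
  · rw [hcompl, Finset.prod_insert hlc, ← Finset.mul_prod_erase _ _ hplW]
    rw [← Finset.mul_prod_erase _ _ hlW, ← Finset.mul_prod_erase _ _ hplW, hszl] at h4
    rw [Finset.prod_congr rfl (g := fun v => ‖(P v).coeff (univ.filter (fun u => π u = v)).card‖)]
    · simp only [P', Function.update_self, c1]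
      rw [coeff_mul_add_eq_of_natDegree_le (h3 _ (hp l hlW)).2 q1, norm_mul, ← h4]
      unfold sz at q2 ⊢
      rw [← q2]; ring
    · intro v hv
      obtain ⟨a, b⟩ := Finset.mem_erase.1 hv
      simp only [P', Function.update_of_ne a, c2 v (Finset.ne_of_mem_erase b) a]
  · rw [hcompl, Finset.card_insert_of_notMem hlc, pow_succ', mul_assoc, h5, sum_update N _ l]
    refine Finset.sum_congr rfl fun f _ => ?_
    have hl2 : l ∈ W.erase T.r := hl
    have e1 : ∀ j : Fin N, (∏ v ∈ W, (P v).eval (ω ^ ((Function.update f l j v : Fin N) : ℕ)))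
        * ∏ v ∈ W.erase T.r, T.con v (Function.update f l j (T.p v) : Fin N) (Function.update f l j v : Fin N)
        = ((∏ v ∈ W.erase l, (P v).eval (ω ^ (f v : ℕ)))
          * ∏ v ∈ (W.erase l).erase T.r, T.con v (f (T.p v)) (f v))
          * (if ind (decide (T.p l < l)) (f (T.p l)) j then (P l).eval (ω ^ (j : ℕ)) else 0) := by
      intro j
      rw [← Finset.mul_prod_erase _ _ hlW, ← Finset.mul_prod_erase _ _ hl2, Finset.erase_right_comm]
      rw [Finset.prod_congr rfl (g := fun v => (P v).eval (ω ^ (f v : ℕ)))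
        (fun v hv => by rw [Function.update_of_ne (Finset.ne_of_mem_erase hv)])]
      rw [Finset.prod_congr (s₁ := (W.erase l).erase T.r) rfl (g := fun v => T.con v (f (T.p v)) (f v))
        (fun v hv => by
          obtain ⟨a, b⟩ := Finset.mem_erase.1 (Finset.mem_of_mem_erase hv)
          rw [Function.update_of_ne a, Function.update_of_ne (hpne v b a)])]
      rw [Function.update_self, Function.update_of_ne hpl]
      unfold con
      split_ifs <;> ring
    simp only [e1]
    rw [← Finset.mul_sum, Fin.sum_univ_eq_sum_range (fun j => if ind (decide (T.p l < l)) (f (T.p l)) j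
      then (P l).eval (ω ^ j) else 0), q3 _ (f (T.p l)).2]
    rw [← Finset.mul_prod_erase _ (fun v => (P' v).eval (ω ^ (f v : ℕ))) hplW,
      ← Finset.mul_prod_erase _ (fun v => (P v).eval (ω ^ (f v : ℕ))) hplW]
    rw [Finset.prod_congr (s₁ := (W.erase l).erase (T.p l)) rfl
      (f := fun v => (P' v).eval (ω ^ (f v : ℕ))) (g := fun v => (P v).eval (ω ^ (f v : ℕ)))
      (fun v hv => by simp only [P', Function.update_of_ne (Finset.ne_of_mem_erase hv)])]
    simp only [P', Function.update_self, eval_mul]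
    ring

open Classical in
lemma inv_root {ω : ℂ} (hω : IsPrimitiveRoot ω (Fintype.card β)) : T.Inv ω {T.r} := by
  have : ∀ k, ∀ W : Finset β, W.card = k + 1 → T.Inv ω W → T.Inv ω {T.r} := by
    intro k
    induction k with
    | zero =>
      intro W hW hI
      obtain ⟨a, rfl⟩ := Finset.card_eq_one.1 hW
      have := Finset.mem_singleton.1 hI.1
      rwa [← this] at hI
    | succ k ih =>
      intro W hW hI
      obtain ⟨l, hl, hI'⟩ := T.inv_step hω W hI (by
        rw [← Finset.card_pos, Finset.card_erase_of_mem hI.1]; omega)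
      exact ih _ (by rw [Finset.card_erase_of_mem hl]; omega) hI'
  have h0 : 0 < Fintype.card β := Fintype.card_pos_iff.2 ⟨T.r⟩
  exact this (Fintype.card β - 1) univ (by rw [Finset.card_univ]; omega) (T.inv_univ ω)

open Classical in
theorem tree_norm {ω : ℂ} (hω : IsPrimitiveRoot ω (Fintype.card β)) :
    ‖ZP β (Fintype.card β) (fun j => ω ^ j)‖ * ∏ v ∈ univ.erase T.r, ‖ω ^ T.sz v - 1‖
      = Fintype.card β := by
  obtain ⟨_, _, π, P, h1, _, h3, h4, h5⟩ := T.inv_root hω
  set N := Fintype.card β with hN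
  have h0 : 0 < N := Fintype.card_pos_iff.2 ⟨T.r⟩
  have c : (univ.filter (fun u => π u = T.r)).card = N := by
    rw [Finset.filter_true_of_mem (fun u _ => Finset.mem_singleton.1 (h1 u)), Finset.card_univ]
  have hc : ({T.r} : Finset β)ᶜ = univ.erase T.r := by ext; simp
  obtain ⟨a1, a2⟩ := h3 T.r (Finset.mem_singleton_self _)
  rw [c] at a2
  rw [Finset.prod_singleton, c, hc] at h4
  simp only [Finset.prod_singleton, Finset.erase_singleton, Finset.prod_empty, mul_one] at h5
  have h6 := congrArg (fun z => (N : ℂ) * z) h5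
  rw [sum_update N _ T.r] at h6
  simp only [Function.update_self] at h6
  rw [Fin.sum_univ_eq_sum_range (fun j => (P T.r).eval (ω ^ j)), top_poly hω _ a1 a2, hc,
    Finset.card_erase_of_mem (mem_univ _), Finset.card_univ, ← mul_assoc, ← pow_succ',
    Finset.sum_const, Finset.card_univ, Fintype.card_fun, Fintype.card_fin, ← hN,
    show N - 1 + 1 = N by omega, nsmul_eq_mul] at h6
  push_cast at h6
  have hne : (N : ℂ) ^ N ≠ 0 := pow_ne_zero _ (by exact_mod_cast h0.ne')
  rw [mul_left_cancel₀ hne h6, norm_mul, mul_assoc, h4]; simp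

end RT

end Pool.Agent.Work.MP_be9894_co
end

-- merged part: Pool.Agent.Work.MP_be9894_co.Main
section
set_option autoImplicit false

namespace Pool.Agent.Work.MP_be9894_co

open Finset

lemma tele (g : ℕ → ℝ) (N : ℕ) (hs : ∀ k ≤ N, g (N - k) = g k) (h : ℕ) (h1 : 1 ≤ h) (h2 : h < N) :
    g h = g 1 + ∑ k ∈ Icc 2 (N / 2), if k ≤ h ∧ h + k ≤ N then g k - g (k - 1) else 0 := by
  have key : ∀ m, 1 ≤ m → g m = g 1 + ∑ k ∈ Icc 2 m, (g k - g (k - 1)) := by
    intro m hm
    induction m, hm using Nat.le_induction with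
    | base => simp
    | succ m hm ih =>
      rw [Finset.sum_Icc_succ_top (by omega), ← add_assoc, ← ih]; simp
  rw [← Finset.sum_filter]
  have : (Icc 2 (N / 2)).filter (fun k => k ≤ h ∧ h + k ≤ N) = Icc 2 (min h (N - h)) := by
    ext k; simp only [mem_filter, mem_Icc, le_min_iff]; omega
  rw [this, ← key _ (by omega)]
  rcases le_total h (N - h) with hh | hh
  · rw [min_eq_left hh]
  · rw [min_eq_right hh, hs h h2.le]

lemma sum_g {ι : Type} (g : ℕ → ℝ) (N : ℕ) (hs : ∀ k ≤ N, g (N - k) = g k) (S : Finset ι) (z : ι → ℕ)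
    (hz : ∀ v ∈ S, 1 ≤ z v ∧ z v < N) :
    ∑ v ∈ S, g (z v) = S.card * g 1 + ∑ k ∈ Icc 2 (N / 2),
      ((S.filter (fun v => k ≤ z v ∧ z v + k ≤ N)).card : ℝ) * (g k - g (k - 1)) := by
  rw [Finset.sum_congr rfl (fun v hv => tele g N hs (z v) (hz v hv).1 (hz v hv).2),
    Finset.sum_add_distrib, Finset.sum_comm]
  congr 1
  · simp
  · refine Finset.sum_congr rfl fun k _ => ?_
    rw [← Finset.sum_filter, Finset.sum_const, nsmul_eq_mul]

noncomputable def om (N : ℕ) : ℂ := Complex.exp (2 * Real.pi * Complex.I / N)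

lemma om_norm (N k : ℕ) (hN : 0 < N) (hk : k ≤ N) :
    ‖om N ^ k - 1‖ = 2 * Real.sin (Real.pi * k / N) := by
  have h1 : om N ^ k = Complex.exp (Complex.I * ((2 * Real.pi * k / N : ℝ) : ℂ)) := by
    unfold om
    rw [← Complex.exp_nat_mul]; congr 1; push_cast; ring
  rw [h1, Complex.norm_exp_I_mul_ofReal_sub_one,
    show (2 * Real.pi * k / N : ℝ) / 2 = Real.pi * k / N by ring, Real.norm_of_nonneg]
  have hN' : (0 : ℝ) < N := by exact_mod_cast hN
  have : 0 ≤ Real.sin (Real.pi * k / N) := by
    apply Real.sin_nonneg_of_nonneg_of_le_pi (by positivity)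
    rw [div_le_iff₀ hN']
    have : (k : ℝ) ≤ N := by exact_mod_cast hk
    nlinarith [Real.pi_pos]
  positivity

lemma om_symm (N k : ℕ) (hN : 0 < N) (hk : k ≤ N) : ‖om N ^ (N - k) - 1‖ = ‖om N ^ k - 1‖ := by
  rw [om_norm N _ hN (by omega), om_norm N _ hN hk, ← Real.sin_pi_sub]
  have hN' : (N : ℝ) ≠ 0 := by positivity
  congr 2
  push_cast [hk]; field_simp; ring

lemma om_lt (N k : ℕ) (hk : 1 ≤ k) (hkN : 2 * k ≤ N) : ‖om N ^ (k - 1) - 1‖ < ‖om N ^ k - 1‖ := by
  have hN : 0 < N := by omega
  rw [om_norm N _ hN (by omega), om_norm N _ hN (by omega)]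
  have hN' : (0 : ℝ) < N := by exact_mod_cast hN
  have a1 : (2 : ℝ) * k ≤ N := by exact_mod_cast hkN
  have a2 : (1 : ℝ) ≤ k := by exact_mod_cast hk
  have p := Real.pi_pos
  have : Real.sin (Real.pi * ((k - 1 : ℕ) : ℝ) / N) < Real.sin (Real.pi * k / N) := by
    apply Real.sin_lt_sin_of_lt_of_le_pi_div_two
    · have : 0 ≤ Real.pi * ((k - 1 : ℕ) : ℝ) / N := by positivity
      linarith
    · rw [div_le_iff₀ hN']; nlinarith
    · push_cast [hk]
      apply div_lt_div_of_pos_right _ hN'
      nlinarith
  linarith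

open Classical in
lemma no_siblings {β : Type} [PartialOrder β] [Fintype β] (T : RT β) (n : ℕ)
    (hn : Fintype.card β = n + 1)
    (hr : ∀ u u', u ≠ T.r → u' ≠ T.r → T.p u = T.r → T.p u' = T.r → u = u')
    (H : ∏ v ∈ univ.erase T.r, ‖om (n + 1) ^ T.sz v - 1‖ = ∏ k ∈ range n, ‖om (n + 1) ^ (k + 1) - 1‖) :
    ∀ u u', u ≠ T.r → u' ≠ T.r → T.p u = T.p u' → u = u' := by
  intro u u' hu hu' hp
  by_contra hne
  obtain ⟨h4, hg⟩ := T.siblings hr hu hu' hp hne
  have hω : IsPrimitiveRoot (om (n + 1)) (n + 1) := by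
    have := Complex.isPrimitiveRoot_exp (n + 1) (by omega)
    unfold om; exact this
  have pos : ∀ k, 1 ≤ k → k < n + 1 → 0 < ‖om (n + 1) ^ k - 1‖ := fun k h1 h2 =>
    norm_pos_iff.2 (sub_ne_zero.2 (hω.pow_ne_one_of_pos_of_lt (by omega) h2))
  have hz : ∀ v ∈ univ.erase T.r, 1 ≤ T.sz v ∧ T.sz v < n + 1 := fun v hv =>
    ⟨T.sz_pos v, hn ▸ T.sz_lt (Finset.ne_of_mem_erase hv)⟩
  have hz' : ∀ k ∈ range n, 1 ≤ k + 1 ∧ k + 1 < n + 1 := fun k hk =>
    ⟨by omega, by have := Finset.mem_range.1 hk; omega⟩
  set g : ℕ → ℝ := fun k => Real.log ‖om (n + 1) ^ k - 1‖ with hg'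
  have hs : ∀ k ≤ n + 1, g (n + 1 - k) = g k := fun k hk => by
    simp only [hg', om_symm (n + 1) k (by omega) hk]
  have H2 := congrArg Real.log H
  rw [Real.log_prod (fun v hv => (pos _ (hz v hv).1 (hz v hv).2).ne'),
    Real.log_prod (fun k hk => (pos _ (hz' k hk).1 (hz' k hk).2).ne')] at H2
  have e1 := sum_g g (n + 1) hs (univ.erase T.r) T.sz hz
  have e2 := sum_g g (n + 1) hs (range n) (fun k => k + 1) hz'
  rw [Finset.card_erase_of_mem (mem_univ _), Finset.card_univ, hn, Nat.add_sub_cancel] at e1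
  rw [Finset.card_range] at e2
  have cnt : ∀ k, 2 ≤ k → 2 * k ≤ n + 1 →
      ((range n).filter (fun v => k ≤ v + 1 ∧ v + 1 + k ≤ n + 1)).card + 2 * k = n + 2 := by
    intro k h1 h2
    have : (range n).filter (fun v => k ≤ v + 1 ∧ v + 1 + k ≤ n + 1) = Icc (k - 1) (n - k) := by
      ext v; simp only [mem_filter, mem_range, mem_Icc]; omega
    rw [this, Nat.card_Icc]; omega
  have dpos : ∀ k, 2 ≤ k → 2 * k ≤ n + 1 → 0 < g k - g (k - 1) := by
    intro k h1 h2
    have := Real.log_lt_log (pos (k - 1) (by omega) (by omega)) (om_lt (n + 1) k (by omega) h2)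
    simp only [hg']; linarith
  have lt : ∑ k ∈ Icc 2 ((n + 1) / 2), (((univ.erase T.r).filter
        (fun v => k ≤ T.sz v ∧ T.sz v + k ≤ n + 1)).card : ℝ) * (g k - g (k - 1))
      < ∑ k ∈ Icc 2 ((n + 1) / 2), (((range n).filter
        (fun v => k ≤ v + 1 ∧ v + 1 + k ≤ n + 1)).card : ℝ) * (g k - g (k - 1)) := by
    apply Finset.sum_lt_sum
    · intro k hk
      obtain ⟨k1, k2⟩ := Finset.mem_Icc.1 hk
      apply mul_le_mul_of_nonneg_right _ (dpos k k1 (by omega)).le
      have a := T.good_card k (by omega) (by omega)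
      have b := cnt k k1 (by omega)
      rw [hn] at a
      exact_mod_cast (by omega)
    · refine ⟨2, Finset.mem_Icc.2 ⟨le_rfl, by omega⟩, ?_⟩
      apply mul_lt_mul_of_pos_right _ (dpos 2 le_rfl (by omega))
      have b := cnt 2 le_rfl (by omega)
      rw [hn] at hg
      exact_mod_cast (by omega)
  simp only [hg'] at e1 e2 lt
  linarith

lemma ZP_const (α : Type) [Fintype α] [PartialOrder α] (N : ℕ) (y : ℚ) :
    ZP α N (fun _ => y) = y ^ Fintype.card α * ZP α N (fun _ => (1 : ℚ)) := by
  unfold ZP
  rw [Finset.mul_sum]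
  refine Finset.sum_congr rfl fun f _ => ?_
  split_ifs <;> simp

theorem main {α β : Type} [Fintype α] [PartialOrder α] [Fintype β] [PartialOrder β] (n : ℕ)
    (φ : SimpleGraph.hasse α ≃g SimpleGraph.pathGraph (n + 1)) (hT : (SimpleGraph.hasse β).IsTree)
    (Q : SameQ α β) : Nonempty (α ≃o β) := by
  classical
  have He : Fence φ.symm.toEquiv := by
    intro i j
    rw [← SimpleGraph.pathGraph_adj, ← φ.symm.map_adj_iff]; rfl
  have ca : Fintype.card α = n + 1 := by
    rw [Fintype.card_congr φ.toEquiv, Fintype.card_fin]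
  have cb : Fintype.card β = n + 1 := by
    have h1 := ZP_eq Q (2 * n + 1) (fun _ => (1 : ℚ))
    have h2 := ZP_eq Q (2 * n + 1) (fun _ => (2 : ℚ))
    rw [ZP_const α, ZP_const β, ← h1] at h2
    have h3 : 0 < ZP α (2 * n + 1) (fun _ => (1 : ℚ)) := by
      rw [He.ZP]
      have := tot_pos (2 * n + 1) (List.ofFn (wd φ.symm.toEquiv)) (by simp)
      simpa [tot, h, Z] using this
    have h4 := mul_right_cancel₀ h3.ne' h2
    have h5 : Fintype.card α = Fintype.card β :=
      pow_right_injective₀ (by norm_num : (0 : ℚ) < 2) (by norm_num) h4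
    omega
  have : ∃ r : β, ∀ u u', (SimpleGraph.hasse β).Adj r u → (SimpleGraph.hasse β).Adj r u' → u = u' := by
    rcases subsingleton_or_nontrivial β with hs | hs
    · obtain ⟨r⟩ := hT.connected.nonempty
      exact ⟨r, fun u u' _ _ => Subsingleton.elim _ _⟩
    · obtain ⟨r, hr⟩ := hT.exists_vert_degree_one_of_nontrivial
      obtain ⟨w, _, hw⟩ := SimpleGraph.degree_eq_one_iff_existsUnique_adj.1 hr
      exact ⟨r, fun u u' h1 h2 => (hw u h1).trans (hw u' h2).symm⟩
  obtain ⟨r, hr⟩ := this
  obtain ⟨T, rfl⟩ := exists_RT β hT r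
  have hω : IsPrimitiveRoot (om (n + 1)) (n + 1) := by
    have := Complex.isPrimitiveRoot_exp (n + 1) (by omega)
    unfold om; exact this
  have t1 := T.tree_norm (ω := om (n + 1)) (cb ▸ hω)
  have t2 := word_norm hω (List.ofFn (wd φ.symm.toEquiv)) (by simp)
  rw [← He.ZP, ZP_eq Q, List.length_ofFn] at t2
  rw [cb] at t1
  have hne : ‖ZP β (n + 1) (fun j => om (n + 1) ^ j)‖ ≠ 0 := by
    intro h0
    rw [h0, zero_mul] at t2
    have : (0 : ℝ) < ((n + 1 : ℕ) : ℝ) := by positivity
    linarith
  have H := mul_left_cancel₀ hne (t1.trans t2.symm)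
  obtain ⟨e', He'⟩ := T.fence_of_chain n cb (no_siblings T n cb (fun u u' a b c d => hr u u'
    (c ▸ (T.adj u a).symm) (d ▸ (T.adj u' b).symm)) H)
  exact fence_main He He' Q

end Pool.Agent.Work.MP_be9894_co
end
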