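import Mathlib

-- merged part: Pool.Agent.Work.MP_be9894_co.Word
section
set_option autoImplicit false

namespace Pool.Agent.Work.MP_be9894_co

open Finset Polynomial

/-- edge relation: `true` means the first position is smaller -/
def ind (b : Bool) (i j : ℕ) : Prop := if b then i < j else j < i

instance (b : Bool) (i j : ℕ) : Decidable (ind b i j) := by unfold ind; infer_instance

@[simp] lemma ind_true (i j : ℕ) : ind true i j ↔ i < j := by simp [ind]
@[simp] lemma ind_false (i j : ℕ) : ind false i j ↔ j < i := by simp [ind]
lemma ind_not (b : Bool) (i j : ℕ) : ind (!b) i j ↔ ind b j i := by cases b <;> simp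

section gen
variable {R : Type} [CommRing R]

/-- transfer recursion along a word -/
def U (N : ℕ) (x : ℕ → R) : List Bool → ℕ → R
  | [], _ => 1
  | b :: w, i => ∑ j ∈ range N, if ind b i j then x j * U N x w j else 0

def Z (N : ℕ) (x : ℕ → R) (w : List Bool) : R := ∑ i ∈ range N, x i * U N x w i

def star (w : List Bool) : List Bool := (w.map not).reverse

@[simp] lemma star_nil : star [] = [] := rfl
lemma star_cons (b : Bool) (w : List Bool) : star (b :: w) = star w ++ [!b] := by simp [star]
lemma star_append (u v : List Bool) : star (u ++ v) = star v ++ star u := by simp [star]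
@[simp] lemma star_star (w : List Bool) : star (star w) = w := by
  simp [star, List.map_reverse, Function.comp_def]
@[simp] lemma length_star (w : List Bool) : (star w).length = w.length := by simp [star]

lemma pair_step (N : ℕ) (x : ℕ → R) (b : Bool) (w p : List Bool) :
    ∑ i ∈ range N, x i * U N x (b :: w) i * U N x p i
      = ∑ j ∈ range N, x j * U N x w j * U N x ((!b) :: p) j := by
  simp only [U, Finset.mul_sum, Finset.sum_mul]
  rw [Finset.sum_comm]
  refine Finset.sum_congr rfl fun j _ => Finset.sum_congr rfl fun i _ => ?_
  simp only [ind_not]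
  split_ifs <;> ring

lemma pair_star (N : ℕ) (x : ℕ → R) (w p : List Bool) :
    ∑ i ∈ range N, x i * U N x w i * U N x p i = Z N x (star w ++ p) := by
  induction w generalizing p with
  | nil => simp [U, Z]
  | cons b w ih => rw [pair_step, ih, star_cons]; simp

lemma Z_star (N : ℕ) (x : ℕ → R) (w : List Bool) : Z N x (star w) = Z N x w := by
  have := pair_star N x w []
  simp only [U, mul_one, List.append_nil] at this
  rw [← this]; rfl

/-- pairing of a coefficient polynomial with a sequence -/
noncomputable def pr (f : ℕ → R) : R[X] →ₗ[R] R := Polynomial.lsum fun k => LinearMap.id.smulRight (f k)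

lemma pr_monomial (f : ℕ → R) (k : ℕ) (a : R) : pr f (monomial k a) = a * f k := by
  simp [pr, Polynomial.lsum_apply, Polynomial.sum_monomial_index]

lemma pr_C (f : ℕ → R) (a : R) : pr f (C a) = a * f 0 := by
  rw [← monomial_zero_left, pr_monomial]

lemma pr_C_mul (f : ℕ → R) (a : R) (m : R[X]) : pr f (C a * m) = a * pr f m := by
  rw [← smul_eq_C_mul, map_smul, smul_eq_mul]

lemma pr_X_mul (f : ℕ → R) (m : R[X]) : pr f (X * m) = pr (fun k => f (k + 1)) m := by
  induction m using Polynomial.induction_on' with
  | add p q hp hq => simp [mul_add, hp, hq]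
  | monomial k a => rw [X_mul_monomial, pr_monomial, pr_monomial]

lemma pr_add_fun (f g : ℕ → R) (m : R[X]) : pr (fun k => f k + g k) m = pr f m + pr g m := by
  induction m using Polynomial.induction_on' with
  | add p q hp hq => simp only [map_add, hp, hq]; ring
  | monomial k a => simp only [pr_monomial]; ring

lemma pr_zero_fun (m : R[X]) : pr (fun _ => (0 : R)) m = 0 := by
  induction m using Polynomial.induction_on' with
  | add p q hp hq => simp only [map_add, hp, hq]; ring
  | monomial k a => simp only [pr_monomial]; ring

lemma pr_map {S : Type} [CommRing S] (φ : R →+* S) (f : ℕ → R) (m : R[X]) :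
    φ (pr f m) = pr (fun k => φ (f k)) (m.map φ) := by
  induction m using Polynomial.induction_on' with
  | add p q hp hq => simp only [map_add, Polynomial.map_add, hp, hq]
  | monomial k a => simp only [pr_monomial, Polynomial.map_monomial, map_mul]

/-- formal state: values at the outside positions and binomial coefficients of the middle part -/
noncomputable def St (c K : ℕ) (y : R) (β : ℕ → R) : List Bool → (ℕ → R) × R[X]
  | [] => (fun _ => 1, 1)
  | b :: w =>
    let s := St c K y β w
    let T := y * pr β s.2
    (fun i => (∑ j ∈ range K, if ind b i j then s.1 j else 0) +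
        (if (if b then i < c else c ≤ i) then T else 0),
      if b then C ((∑ j ∈ range K, if c ≤ j then s.1 j else 0) + T) - C y * ((X + 1) * s.2)
      else C (∑ j ∈ range K, if j < c then s.1 j else 0) + C y * (X * s.2))

noncomputable def ZF (c K : ℕ) (y : R) (β : ℕ → R) (w : List Bool) : R :=
  ∑ i ∈ range K, (St c K y β w).1 i + y * pr β (St c K y β w).2

lemma St_map {S : Type} [CommRing S] (φ : R →+* S) (c K : ℕ) (y : R) (β : ℕ → R) (w : List Bool) :
    St c K (φ y) (fun k => φ (β k)) w
      = (fun i => φ ((St c K y β w).1 i), (St c K y β w).2.map φ) := by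
  induction w with
  | nil => simp [St]
  | cons b w ih =>
    simp only [St, ih]
    refine Prod.ext ?_ ?_
    · funext i
      simp only [map_add, map_sum, apply_ite φ, map_zero, map_mul, pr_map]
    · have h1 : φ (∑ j ∈ range K, if j < c then (St c K y β w).1 j else 0)
          = ∑ j ∈ range K, if j < c then φ ((St c K y β w).1 j) else 0 := by
        simp only [map_sum, apply_ite φ, map_zero]
      have h2 : φ ((∑ j ∈ range K, if c ≤ j then (St c K y β w).1 j else 0) + y * pr β (St c K y β w).2)
          = (∑ j ∈ range K, if c ≤ j then φ ((St c K y β w).1 j) else 0)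
            + φ y * pr (fun k => φ (β k)) ((St c K y β w).2.map φ) := by
        simp only [map_add, map_sum, apply_ite φ, map_zero, map_mul, pr_map]
      cases b
      · simp only [Bool.false_eq_true, if_false, Polynomial.map_add, Polynomial.map_mul, map_C, map_X, h1]
      · simp only [if_true, Polynomial.map_sub, Polynomial.map_add, Polynomial.map_mul, map_C, map_X,
          Polynomial.map_one, h2]

lemma ZF_map {S : Type} [CommRing S] (φ : R →+* S) (c K : ℕ) (y : R) (β : ℕ → R) (w : List Bool) :
    ZF c K (φ y) (fun k => φ (β k)) w = φ (ZF c K y β w) := by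
  simp only [ZF, St_map, map_add, map_sum, map_mul, pr_map]

end gen

section correct

def emb (c t i : ℕ) : ℕ := if i < c then i else i + t

def wt (c t : ℕ) (y : ℚ) (i : ℕ) : ℚ := if c ≤ i ∧ i < c + t then y else 1

lemma sum_split (c K t : ℕ) (hc : c ≤ K) (F : ℕ → ℚ) :
    ∑ j ∈ range (K + t), F j = ∑ i ∈ range K, F (emb c t i) + ∑ j ∈ range t, F (c + j) := by
  obtain ⟨d, rfl⟩ := Nat.exists_eq_add_of_le hc
  have h1 : ∑ i ∈ range (c + d), F (emb c t i)
      = ∑ i ∈ range c, F i + ∑ i ∈ range d, F (c + t + i) := by
    rw [Finset.sum_range_add]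
    congr 1
    · refine Finset.sum_congr rfl fun i hi => ?_
      simp [emb, Finset.mem_range.1 hi]
    · refine Finset.sum_congr rfl fun i _ => ?_
      have : ¬ (c + i < c) := by omega
      simp only [emb, this, if_false]; congr 1; omega
  rw [h1, show c + d + t = c + t + d by omega, Finset.sum_range_add, Finset.sum_range_add]
  ring

lemma sum_pr_choose (m : ℚ[X]) (j : ℕ) :
    ∑ i ∈ range j, pr (fun k => (i.choose k : ℚ)) m = pr (fun k => (j.choose (k + 1) : ℚ)) m := by
  induction j with
  | zero => simp [pr_zero_fun]
  | succ j ih =>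
    rw [Finset.sum_range_succ, ih, ← pr_add_fun]
    congr 2; funext k
    rw [Nat.choose_succ_succ']; push_cast; ring

lemma St_correct (c K t : ℕ) (hc : c ≤ K) (y : ℚ) (w : List Bool) :
    (∀ i, U (K + t) (wt c t y) w (emb c t i)
        = (St c K y (fun k => (t.choose (k + 1) : ℚ)) w).1 i) ∧
    (∀ j < t, U (K + t) (wt c t y) w (c + j)
        = pr (fun k => (j.choose k : ℚ)) (St c K y (fun k => (t.choose (k + 1) : ℚ)) w).2) := by
  induction w with
  | nil =>
    refine ⟨fun i => by simp [U, St], fun j _ => ?_⟩
    simp only [U, St]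
    rw [← C_1, pr_C]; simp
  | cons b w ih =>
    obtain ⟨ih1, ih2⟩ := ih
    set s := St c K y (fun k => (t.choose (k + 1) : ℚ)) w with hs
    have hw1 : ∀ i, wt c t y (emb c t i) = 1 := by
      intro i; unfold wt emb; split_ifs <;> first | rfl | omega
    have hw2 : ∀ j < t, wt c t y (c + j) = y := by
      intro j hj; unfold wt; rw [if_pos (by omega)]
    have hT : ∑ j ∈ range t, y * pr (fun k => (j.choose k : ℚ)) s.2
        = y * pr (fun k => (t.choose (k + 1) : ℚ)) s.2 := by
      rw [← Finset.mul_sum, sum_pr_choose]
    constructor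
    · intro i
      simp only [U, St, ← hs]
      rw [sum_split c K t hc]
      congr 1
      · refine Finset.sum_congr rfl fun j _ => ?_
        have : ind b (emb c t i) (emb c t j) ↔ ind b i j := by
          cases b <;> simp only [ind_true, ind_false, emb] <;> split_ifs <;> omega
        simp only [this, hw1, ih1, one_mul]
      · have : ∀ j ∈ range t, (if ind b (emb c t i) (c + j) then
            wt c t y (c + j) * U (K + t) (wt c t y) w (c + j) else 0)
            = if (if b then i < c else c ≤ i) then y * pr (fun k => (j.choose k : ℚ)) s.2 else 0 := by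
          intro j hj
          have hj := Finset.mem_range.1 hj
          have : ind b (emb c t i) (c + j) ↔ (if b then i < c else c ≤ i) := by
            cases b <;> simp only [ind_true, ind_false, emb] <;> split_ifs <;> simp_all <;> omega
          simp only [this, hw2 j hj, ih2 j hj]
        rw [Finset.sum_congr rfl this]
        split_ifs <;> simp [hT]
    · intro j hj
      simp only [U, St, ← hs]
      rw [sum_split c K t hc]
      cases b
      · simp only [ind_false, Bool.false_eq_true, if_false, map_add, pr_C, pr_C_mul, pr_X_mul,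
          Nat.choose_zero_right, Nat.cast_one, mul_one]
        congr 1
        · refine Finset.sum_congr rfl fun i _ => ?_
          have : emb c t i < c + j ↔ i < c := by unfold emb; split_ifs <;> omega
          simp only [this, hw1, ih1, one_mul]
        · rw [← sum_pr_choose, Finset.mul_sum]
          rw [← Finset.sum_filter]
          have : (range t).filter (fun i => c + i < c + j) = range j := by
            ext i; simp; omega
          rw [this]
          refine Finset.sum_congr rfl fun i hi => ?_
          have hi := Finset.mem_range.1 hi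
          rw [hw2 i (by omega), ih2 i (by omega)]
      · simp only [ind_true, if_true, map_sub, pr_C, pr_C_mul, add_mul, one_mul, map_add, pr_X_mul,
          Nat.choose_zero_right, Nat.cast_one, mul_one]
        have h1 : (∑ i ∈ range K, if c + j < emb c t i then
            wt c t y (emb c t i) * U (K + t) (wt c t y) w (emb c t i) else 0)
            = ∑ i ∈ range K, if c ≤ i then s.1 i else 0 := by
          refine Finset.sum_congr rfl fun i _ => ?_
          have : c + j < emb c t i ↔ c ≤ i := by unfold emb; split_ifs <;> omega
          simp only [this, hw1, ih1, one_mul]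
        have h2 : (∑ i ∈ range t, if c + j < c + i then
            wt c t y (c + i) * U (K + t) (wt c t y) w (c + i) else 0)
            + ∑ i ∈ range (j + 1), y * pr (fun k => (i.choose k : ℚ)) s.2
            = ∑ i ∈ range t, y * pr (fun k => (i.choose k : ℚ)) s.2 := by
          have : range (j + 1) = (range t).filter (fun i => ¬ (c + j < c + i)) := by
            ext i; simp; omega
          rw [this, Finset.sum_filter, ← Finset.sum_add_distrib]
          refine Finset.sum_congr rfl fun i hi => ?_
          have hi := Finset.mem_range.1 hi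
          rw [hw2 i hi, ih2 i hi]
          split_ifs <;> simp
        rw [h1, hT] at *
        rw [Finset.sum_range_succ, ← Finset.mul_sum, sum_pr_choose] at h2
        linear_combination h2

lemma Z_eq_ZF (c K t : ℕ) (hc : c ≤ K) (y : ℚ) (w : List Bool) :
    Z (K + t) (wt c t y) w = ZF c K y (fun k => (t.choose (k + 1) : ℚ)) w := by
  obtain ⟨h1, h2⟩ := St_correct c K t hc y w
  unfold Z ZF
  rw [sum_split c K t hc]
  congr 1
  · refine Finset.sum_congr rfl fun i _ => ?_
    have : wt c t y (emb c t i) = 1 := by unfold wt emb; split_ifs <;> first | rfl | omega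
    rw [this, h1, one_mul]
  · rw [← sum_pr_choose, Finset.mul_sum]
    refine Finset.sum_congr rfl fun j hj => ?_
    have hj := Finset.mem_range.1 hj
    have : wt c t y (c + j) = y := by unfold wt; rw [if_pos (by omega)]
    rw [this, h2 j hj]

end correct

end Pool.Agent.Work.MP_be9894_co
end

-- merged part: Pool.Agent.Work.MP_be9894_co.Order
section
set_option autoImplicit false

namespace Pool.Agent.Work.MP_be9894_co

open Finset Polynomial

noncomputable def bin (k : ℕ) : ℚ[X] := C (1 / ((k + 1).factorial : ℚ)) * descPochhammer ℚ (k + 1)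

lemma bin_eval (t k : ℕ) : (bin k).eval (t : ℚ) = (t.choose (k + 1) : ℚ) := by
  unfold bin
  rw [eval_mul, eval_C, descPochhammer_eval_eq_descFactorial, Nat.descFactorial_eq_factorial_mul_choose]
  have : ((k + 1).factorial : ℚ) ≠ 0 := by positivity
  push_cast; field_simp

lemma bin_coeff_zero (k : ℕ) : (bin k).coeff 0 = 0 := by
  rw [coeff_zero_eq_eval_zero]
  have := bin_eval 0 k
  simpa using this

lemma desc_coeff (k : ℕ) : (descPochhammer ℚ (k + 1)).coeff 0 = 0 ∧
    (descPochhammer ℚ (k + 1)).coeff 1 = (-1) ^ k * k.factorial := by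
  induction k with
  | zero => simp
  | succ k ih =>
    rw [descPochhammer_succ_right, mul_sub]
    have hc : ((k + 1 : ℕ) : ℚ[X]) = C ((k + 1 : ℕ) : ℚ) := by simp
    rw [hc]
    constructor
    · rw [coeff_sub, coeff_mul_C, ih.1]; simp
    · rw [coeff_sub, coeff_mul_C, ih.2, coeff_mul_X, ih.1, Nat.factorial_succ]
      push_cast; ring

def lam (k : ℕ) : ℚ := (-1) ^ k / (k + 1)

lemma bin_coeff_one (k : ℕ) : (bin k).coeff 1 = lam k := by
  unfold bin lam
  rw [coeff_C_mul, (desc_coeff k).2, Nat.factorial_succ]
  have : (k.factorial : ℚ) ≠ 0 := by positivity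
  push_cast; field_simp

lemma pr_bin_coeff_one (m : ℚ[X][X]) :
    (pr bin m).coeff 1 = pr lam (m.map (evalRingHom 0)) := by
  induction m using Polynomial.induction_on' with
  | add p q hp hq => simp only [map_add, Polynomial.map_add, coeff_add, hp, hq]
  | monomial k a =>
    rw [pr_monomial, Polynomial.map_monomial, pr_monomial, coeff_mul]
    have : antidiagonal 1 = {(0, 1), (1, 0)} := by decide
    rw [this, Finset.sum_pair (by decide)]
    simp only [bin_coeff_zero, bin_coeff_one, mul_zero, add_zero, coe_evalRingHom,
      coeff_zero_eq_eval_zero a]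

/-- outside arm function -/
def h (K : ℕ) (w : List Bool) (i : ℕ) : ℚ := U K (fun _ => (1 : ℚ)) w i

def G (c K : ℕ) : List Bool → ℚ
  | [] => 1
  | b :: w => ∑ j ∈ range K, if (if b then c ≤ j else j < c) then h K w j else 0

noncomputable def poly : List Bool → ℚ[X]
  | [] => 1
  | b :: w => (if b then -(X + 1) else X) * poly w

lemma St_zero (c K : ℕ) (y : ℚ) (w : List Bool) :
    (St c K y (fun _ => 0) w).1 = h K w ∧
    (St c K y (fun _ => 0) w).2
      = ∑ k ∈ range (w.length + 1), C (y ^ k * G c K (w.drop k)) * poly (w.take k) := by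
  induction w with
  | nil => refine ⟨by funext i; simp [St, h, U], by simp [St, G, poly]⟩
  | cons b w ih =>
    obtain ⟨ih1, ih2⟩ := ih
    constructor
    · funext i
      simp only [St, ih1, pr_zero_fun, mul_zero, ite_self, add_zero, h, U, one_mul]
    · simp only [St, ih1, pr_zero_fun, mul_zero, add_zero, List.length_cons]
      rw [Finset.sum_range_succ' _ (w.length + 1), ih2]
      simp only [List.drop_succ_cons, List.take_succ_cons, List.drop_zero, List.take_zero, poly, G,
        pow_zero, one_mul, mul_one, Finset.mul_sum]
      cases b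
      · simp only [Bool.false_eq_true, if_false]
        rw [add_comm]
        refine congrArg₂ (· + ·) (Finset.sum_congr rfl fun k _ => ?_) rfl
        simp only [C_mul, pow_succ]; ring
      · simp only [if_true]
        rw [sub_eq_add_neg, add_comm, ← Finset.sum_neg_distrib]
        refine congrArg₂ (· + ·) (Finset.sum_congr rfl fun k _ => ?_) rfl
        simp only [C_mul, pow_succ]; ring

lemma St_bin_zero (c K : ℕ) (y : ℚ) (w : List Bool) :
    ((St c K (C y) bin w).2).map (evalRingHom 0) = (St c K y (fun _ => 0) w).2 := by
  have := St_map (evalRingHom (0 : ℚ)) c K (C y) bin w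
  have hb : (fun k => (evalRingHom (0 : ℚ)) (bin k)) = fun _ => 0 := by
    funext k
    have := bin_coeff_zero k
    rw [coeff_zero_eq_eval_zero] at this
    simpa using this
  rw [hb] at this
  simp only [coe_evalRingHom, eval_C] at this
  rw [this]

/-- first order term of the middle total -/
noncomputable def L1 (c K : ℕ) (y : ℚ) (w : List Bool) : ℚ := y * pr lam (St c K y (fun _ => 0) w).2

lemma T_coeff_one (c K : ℕ) (y : ℚ) (w : List Bool) :
    (C y * pr bin (St c K (C y) bin w).2).coeff 1 = L1 c K y w := by
  rw [coeff_C_mul, pr_bin_coeff_one, St_bin_zero]; rfl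

lemma o_pair (c K : ℕ) (y : ℚ) (w p : List Bool) :
    ∑ i ∈ range K, ((St c K (C y) bin w).1 i).coeff 1 * h K p i
      = ∑ k ∈ range w.length, G c K (star (w.take (k + 1)) ++ p) * L1 c K y (w.drop (k + 1)) := by
  induction w generalizing p with
  | nil => simp [St, coeff_one]
  | cons b w ih =>
    rw [List.length_cons, Finset.sum_range_succ']
    simp only [List.take_succ_cons, List.drop_succ_cons, star_cons, List.append_assoc,
      List.singleton_append, List.take_zero, List.drop_zero, star_nil, List.nil_append]
    rw [← ih ((!b) :: p)]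
    simp only [St, coeff_add, finsetSum_coeff, add_mul, Finset.sum_add_distrib]
    congr 1
    · simp only [h, U, one_mul, Finset.sum_mul, Finset.mul_sum]
      rw [Finset.sum_comm]
      refine Finset.sum_congr rfl fun j _ => Finset.sum_congr rfl fun i _ => ?_
      simp only [ind_not]
      split_ifs <;> simp
    · simp only [G, Finset.sum_mul]
      refine Finset.sum_congr rfl fun i _ => ?_
      rw [← T_coeff_one]
      cases b <;> simp only [Bool.not_false, Bool.not_true, if_true, Bool.false_eq_true, if_false] <;>
        split_ifs <;> simp [mul_comm]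

lemma ZF_coeff_one (c K : ℕ) (y : ℚ) (w : List Bool) :
    (ZF c K (C y) bin w).coeff 1
      = ∑ i ∈ range (w.length + 1), G c K (star (w.take i)) * L1 c K y (w.drop i) := by
  unfold ZF
  rw [coeff_add, T_coeff_one, finsetSum_coeff, Finset.sum_range_succ']
  have := o_pair c K y w []
  simp only [h, U, mul_one, List.append_nil] at this
  rw [this]
  simp [G]

noncomputable def phi (u : List Bool) : ℚ := pr lam (poly u)

noncomputable def E (c K : ℕ) (w : List Bool) (k : ℕ) : ℚ :=
  ∑ i ∈ range (w.length - k + 1),
    G c K (star (w.take i)) * phi ((w.drop i).take k) * G c K (w.drop (i + k))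

lemma ZF_coeff_one' (c K : ℕ) (y : ℚ) (w : List Bool) :
    (ZF c K (C y) bin w).coeff 1 = ∑ k ∈ range (w.length + 1), E c K w k * y ^ (k + 1) := by
  rw [ZF_coeff_one]
  simp only [L1, (St_zero c K y _).2, map_sum, pr_C_mul, E, Finset.mul_sum, Finset.sum_mul,
    List.length_drop, List.drop_drop]
  rw [Finset.sum_sigma', Finset.sum_sigma']
  refine Finset.sum_bij' (fun a _ => ⟨a.2, a.1⟩) (fun a _ => ⟨a.2, a.1⟩) ?_ ?_ ?_ ?_ ?_
  · rintro ⟨i, k⟩ hh; simp at hh ⊢; omega
  · rintro ⟨i, k⟩ hh; simp at hh ⊢; omega
  · rintro ⟨i, k⟩ _; rfl
  · rintro ⟨i, k⟩ _; rfl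
  · rintro ⟨i, k⟩ _
    simp only [phi, pow_succ]; ring

/-- the hypothesis on two words -/
def Same (w w' : List Bool) : Prop := ∀ (N : ℕ) (x : ℕ → ℚ), Z N x w = Z N x w'

lemma E_eq {w w' : List Bool} (hl : w.length = w'.length) (H : Same w w') (c K : ℕ) (hc : c ≤ K)
    (k : ℕ) (hk : k ≤ w.length) : E c K w k = E c K w' k := by
  have h1 : ∀ y : ℚ, ZF c K (C y) bin w = ZF c K (C y) bin w' := by
    intro y
    apply Polynomial.eq_of_infinite_eval_eq
    apply Set.infinite_of_injective_forall_mem (f := fun t : ℕ => (t : ℚ)) Nat.cast_injective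
    intro t
    have e : ∀ v, (ZF c K (C y) bin v).eval (t : ℚ) = Z (K + t) (wt c t y) v := by
      intro v
      have := ZF_map (evalRingHom (t : ℚ)) c K (C y) bin v
      simp only [coe_evalRingHom, eval_C, bin_eval] at this
      rw [← this, Z_eq_ZF c K t hc]
    simp only [Set.mem_ofPred_eq, e, H _ _]
  have h2 : (∑ k ∈ range (w.length + 1), C (E c K w k) * X ^ (k + 1) : ℚ[X])
      = ∑ k ∈ range (w.length + 1), C (E c K w' k) * X ^ (k + 1) := by
    apply Polynomial.funext
    intro y
    have := congrArg (fun p => p.coeff 1) (h1 y)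
    simp only [ZF_coeff_one', ← hl] at this
    simpa [eval_finsetSum] using this
  have h3 := congrArg (fun p => p.coeff (k + 1)) h2
  simp only [finsetSum_coeff, coeff_C_mul, coeff_X_pow, Nat.add_right_cancel_iff, mul_ite, mul_one,
    mul_zero, Finset.sum_ite_eq, Finset.mem_range] at h3
  rwa [if_pos (by omega), if_pos (by omega)] at h3

lemma poly_eq (u : List Bool) :
    poly u = C ((-1) ^ u.count true) * (X ^ u.count false * (X + 1) ^ u.count true) := by
  induction u with
  | nil => simp [poly]
  | cons b u ih =>
    cases b
    · simp [poly, ih, pow_succ]; ring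
    · simp [poly, ih, pow_succ]; ring

lemma pr_beta (b a : ℕ) : pr lam (X ^ a * (X + 1) ^ b)
    = (-1) ^ a * (a.factorial * b.factorial) / (a + b + 1).factorial := by
  induction b generalizing a with
  | zero =>
    rw [pow_zero, mul_one, ← monomial_one_right_eq_X_pow, pr_monomial, Nat.factorial_succ]
    have : (a.factorial : ℚ) ≠ 0 := by positivity
    unfold lam; push_cast; simp; field_simp
  | succ b ih =>
    have : (X ^ a * (X + 1) ^ (b + 1) : ℚ[X]) = X ^ (a + 1) * (X + 1) ^ b + X ^ a * (X + 1) ^ b := by
      ring
    rw [this, map_add, ih, ih]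
    rw [show a + 1 + b + 1 = (a + b + 1) + 1 by ring, show a + (b + 1) + 1 = (a + b + 1) + 1 by ring,
      Nat.factorial_succ (a + b + 1), Nat.factorial_succ a, Nat.factorial_succ b]
    have : ((a + b + 1).factorial : ℚ) ≠ 0 := by positivity
    push_cast; field_simp; ring

lemma count_add (u : List Bool) : u.count true + u.count false = u.length := by
  induction u with
  | nil => rfl
  | cons b u ih => cases b <;> simp <;> omega

/-- positive normalisation of the functional -/
def psi (n d : ℕ) : ℚ := (d.factorial * (n - d).factorial) / (n + 1).factorial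

lemma psi_pos (n d : ℕ) : 0 < psi n d := by unfold psi; positivity

lemma phi_eq (u : List Bool) : phi u = (-1) ^ u.length * psi u.length (u.count true) := by
  unfold phi psi
  rw [poly_eq, pr_C_mul, pr_beta, ← count_add u]
  rw [Nat.add_sub_cancel_left, add_comm (u.count false) (u.count true), pow_add]
  ring

lemma psi_inj {n d e : ℕ} (hd : d ≤ n) (he : e ≤ n) (H : psi n d = psi n e) : d = e ∨ d + e = n := by
  have key : ∀ a b : ℕ, a < b → 2 * b ≤ n →
      b.factorial * (n - b).factorial < a.factorial * (n - a).factorial := by
    have step : ∀ a : ℕ, 2 * (a + 1) ≤ n →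
        (a + 1).factorial * (n - (a + 1)).factorial < a.factorial * (n - a).factorial := by
      intro a hn
      obtain ⟨m, hm⟩ : ∃ m, n - a = m + 1 := ⟨n - a - 1, by omega⟩
      rw [hm, show n - (a + 1) = m by omega, Nat.factorial_succ m, Nat.factorial_succ a]
      have : 0 < a.factorial * m.factorial := by positivity
      nlinarith [show a + 1 < m + 1 by omega]
    intro a b hab
    induction b, hab using Nat.le_induction with
    | base => exact step a
    | succ b hab ih => intro hn; exact (step b hn).trans (ih (by omega))
  have H' : d.factorial * (n - d).factorial = e.factorial * (n - e).factorial := by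
    unfold psi at H
    have : ((n + 1).factorial : ℚ) ≠ 0 := by positivity
    rw [div_left_inj' this] at H
    exact_mod_cast H
  have sym : ∀ a ≤ n, (n - a).factorial * (n - (n - a)).factorial = a.factorial * (n - a).factorial := by
    intro a ha; rw [show n - (n - a) = a by omega, mul_comm]
  have red : ∀ a ≤ n, ∃ a', 2 * a' ≤ n ∧ (a' = a ∨ a' + a = n) ∧
      a'.factorial * (n - a').factorial = a.factorial * (n - a).factorial := by
    intro a ha
    by_cases h2 : 2 * a ≤ n
    · exact ⟨a, h2, Or.inl rfl, rfl⟩
    · exact ⟨n - a, by omega, Or.inr (by omega), sym a ha⟩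
  obtain ⟨d', h1, h2, h3⟩ := red d hd
  obtain ⟨e', h4, h5, h6⟩ := red e he
  have : d' = e' := by
    rcases lt_trichotomy d' e' with hlt | heq | hlt
    · have := key _ _ hlt h4; omega
    · exact heq
    · have := key _ _ hlt h1; omega
  omega

end Pool.Agent.Work.MP_be9894_co
end
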